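import Pool.Agent.H724R2.BH_Count
import Pool.Agent.W346.NM.Poly
import Pool.Agent.H373R2.T7.Vau

set_option autoImplicit false

/-!
# Sums over primes of polynomial phases: Cauchy-Schwarz and Weyl's inequality
-/

namespace Pool.Agent.Q51.MD

open Finset Polynomial
open Pool.Agent.Helper602.MK (ee)
open Pool.Agent.Helper602.MK.N_J5b (ee_eq ee_add ee_zero ee_conj norm_ee ee_int ee_nat_mul)
open Pool.Agent.H373R2.NB (IW_all Ph IW)
open Pool.Agent.W346.NM (Ph_polyR)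

/-- Cauchy-Schwarz for bilinear sums -/
theorem cs_bil (s t : Finset ℕ) (a b : ℕ → ℂ) (K : ℕ → ℕ → ℂ) :
    ‖∑ m ∈ s, ∑ l ∈ t, a m * b l * K m l‖ ^ 2 ≤
      (∑ m ∈ s, ‖a m‖ ^ 2) * ((∑ l ∈ t, ‖b l‖ ^ 2) *
        Real.sqrt (∑ l ∈ t, ∑ l' ∈ t, ‖∑ m ∈ s, K m l * (starRingEnd ℂ) (K m l')‖ ^ 2)) := by
  have h1 : ‖∑ m ∈ s, ∑ l ∈ t, a m * b l * K m l‖ ^ 2 ≤
      (∑ m ∈ s, ‖a m‖ ^ 2) * ∑ m ∈ s, ‖∑ l ∈ t, b l * K m l‖ ^ 2 := by
    have e : ∑ m ∈ s, ∑ l ∈ t, a m * b l * K m l = ∑ m ∈ s, a m * ∑ l ∈ t, b l * K m l := by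
      apply sum_congr rfl; intro m _
      rw [mul_sum]; apply sum_congr rfl; intro l _; ring
    rw [e]
    calc ‖∑ m ∈ s, a m * ∑ l ∈ t, b l * K m l‖ ^ 2
        ≤ (∑ m ∈ s, ‖a m‖ * ‖∑ l ∈ t, b l * K m l‖) ^ 2 := by
          apply pow_le_pow_left₀ (norm_nonneg _)
          refine (norm_sum_le _ _).trans (le_of_eq ?_)
          apply sum_congr rfl; intro m _; rw [norm_mul]
      _ ≤ _ := sum_mul_sq_le_sq_mul_sq _ _ _
  refine h1.trans (mul_le_mul_of_nonneg_left ?_ (sum_nonneg fun _ _ => sq_nonneg _))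
  have h2 : ((∑ m ∈ s, ‖∑ l ∈ t, b l * K m l‖ ^ 2 : ℝ) : ℂ) =
      ∑ l ∈ t, ∑ l' ∈ t, b l * (starRingEnd ℂ) (b l') * ∑ m ∈ s, K m l * (starRingEnd ℂ) (K m l') := by
    push_cast
    have e1 : ∀ m ∈ s, ((‖∑ l ∈ t, b l * K m l‖ : ℂ)) ^ 2 =
        ∑ l ∈ t, ∑ l' ∈ t, b l * (starRingEnd ℂ) (b l') * (K m l * (starRingEnd ℂ) (K m l')) := by
      intro m _
      rw [← Complex.mul_conj', map_sum, sum_mul_sum]
      apply sum_congr rfl; intro l _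
      apply sum_congr rfl; intro l' _
      rw [map_mul]; ring
    rw [sum_congr rfl e1, sum_comm]
    apply sum_congr rfl; intro l _
    rw [sum_comm]
    apply sum_congr rfl; intro l' _
    rw [mul_sum]
  have h3 : ∑ m ∈ s, ‖∑ l ∈ t, b l * K m l‖ ^ 2 ≤
      ∑ l ∈ t, ∑ l' ∈ t, (‖b l‖ * ‖b l'‖) * ‖∑ m ∈ s, K m l * (starRingEnd ℂ) (K m l')‖ := by
    have e0 : 0 ≤ ∑ m ∈ s, ‖∑ l ∈ t, b l * K m l‖ ^ 2 := sum_nonneg fun _ _ => sq_nonneg _
    have e2 : ∑ m ∈ s, ‖∑ l ∈ t, b l * K m l‖ ^ 2 = ‖((∑ m ∈ s, ‖∑ l ∈ t, b l * K m l‖ ^ 2 : ℝ) : ℂ)‖ := by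
      rw [Complex.norm_real, Real.norm_of_nonneg e0]
    rw [e2, h2]
    refine (norm_sum_le _ _).trans (sum_le_sum fun l _ => (norm_sum_le _ _).trans (sum_le_sum fun l' _ => ?_))
    rw [norm_mul, norm_mul, Complex.norm_conj]
  refine h3.trans ?_
  rw [← sum_product', ← sum_product' (f := fun l l' => ‖∑ m ∈ s, K m l * (starRingEnd ℂ) (K m l')‖ ^ 2)]
  have h4 := Real.sum_mul_le_sqrt_mul_sqrt (t ×ˢ t) (fun x : ℕ × ℕ => ‖b x.1‖ * ‖b x.2‖)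
    (fun x => ‖∑ m ∈ s, K m x.1 * (starRingEnd ℂ) (K m x.2)‖)
  refine h4.trans (mul_le_mul_of_nonneg_right ?_ (Real.sqrt_nonneg _))
  have h5 : ∑ x ∈ t ×ˢ t, (‖b x.1‖ * ‖b x.2‖) ^ 2 = (∑ l ∈ t, ‖b l‖ ^ 2) ^ 2 := by
    rw [sq (∑ l ∈ t, ‖b l‖ ^ 2), sum_mul_sum, ← sum_product']
    apply sum_congr rfl; intro x _; ring
  rw [h5, Real.sqrt_sq (sum_nonneg fun _ _ => sq_nonneg _)]

/-- inverse theorem for Weyl sums, real polynomials, intervals -/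
theorem weyl_inv (d : ℕ) (hd : 1 ≤ d) : ∃ c m : ℕ, 1 ≤ c ∧ ∀ (a b : ℕ) (X u : ℝ) (G : ℝ[X]),
    0 < X → ((b - a : ℕ) : ℝ) ≤ X → 1 ≤ u → G.natDegree ≤ d →
    X ≤ u * ‖∑ n ∈ Ioc a b, ee (G.eval (n : ℝ))‖ →
    ∃ q : ℕ, 1 ≤ q ∧ (q : ℝ) ≤ c * u ^ m ∧ ∃ z : ℤ, |q * G.coeff d - z| ≤ c * u ^ m / X ^ d := by
  obtain ⟨c, m, hc, hI⟩ := IW_all d hd
  refine ⟨c * d.factorial, m + d, Nat.one_le_iff_ne_zero.2 (by positivity), ?_⟩
  intro a b X u G hX hab hu hG hS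
  have hu0 : 0 < u := by linarith
  rcases le_or_gt b a with h | h
  · rw [Ioc_eq_empty (by omega), sum_empty, norm_zero, mul_zero] at hS
    linarith
  obtain ⟨n, rfl⟩ : ∃ n, b = a + n := ⟨b - a, by omega⟩
  have hn : 1 ≤ n := by omega
  have hn0 : (0 : ℝ) < n := by exact_mod_cast hn
  rw [Nat.add_sub_cancel_left] at hab
  set G' : ℝ[X] := taylor ((a + 1 : ℕ) : ℝ) G with hG'
  have hGd : G'.natDegree ≤ d := by rw [hG', natDegree_taylor]; exact hG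
  have hcoef : G'.coeff d = G.coeff d := by
    rw [hG', taylor_coeff]
    have h1 : (hasseDeriv d G).natDegree ≤ 0 := by
      have := natDegree_hasseDeriv_le G d
      omega
    rw [eq_C_of_natDegree_le_zero h1, eval_C, hasseDeriv_coeff, zero_add, Nat.choose_self]
    simp
  have hsum : ∑ k ∈ Ioc a (a + n), ee (G.eval (k : ℝ)) = ∑ k ∈ range n, ee (G'.eval (k : ℝ)) := by
    have e0 : Ioc a (a + n) = Ico (a + 1) (a + 1 + n) := by
      ext k; simp only [mem_Ioc, mem_Ico]; omega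
    rw [e0, sum_Ico_eq_sum_range]
    have e1 : a + 1 + n - (a + 1) = n := by omega
    rw [e1]
    apply sum_congr rfl
    intro k _
    rw [hG', taylor_eval]
    congr 2
    push_cast; ring
  rw [hsum] at hS
  have hPh := Ph_polyR d G' hGd 1
  simp only [one_mul] at hPh
  obtain ⟨q, hq1, hq2, z, hz⟩ := hI n u _ _ hn hu hPh (hab.trans hS)
  have hnX : X ≤ u * n := by
    refine hS.trans (mul_le_mul_of_nonneg_left ?_ hu0.le)
    refine (norm_sum_le _ _).trans (le_of_eq ?_)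
    simp [norm_ee]
  have hf1 : (1 : ℝ) ≤ d.factorial := by exact_mod_cast Nat.factorial_pos d
  have hud : 1 ≤ u ^ d := one_le_pow₀ hu
  refine ⟨q * d.factorial, Nat.one_le_iff_ne_zero.2 (by positivity), ?_, z, ?_⟩
  · push_cast
    calc (q : ℝ) * d.factorial ≤ (c * u ^ m) * d.factorial := by gcongr
      _ ≤ (c * u ^ m) * d.factorial * u ^ d := le_mul_of_one_le_right (by positivity) hud
      _ = _ := by ring
  · rw [hcoef] at hz
    have e : ((q * d.factorial : ℕ) : ℝ) * G.coeff d - z = q * (d.factorial * G.coeff d) - z := by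
      push_cast; ring
    rw [e]
    refine hz.trans ?_
    rw [div_le_div_iff₀ (by positivity) (by positivity)]
    have h1 : X ^ d ≤ u ^ d * n ^ d := by rw [← mul_pow]; exact pow_le_pow_left₀ hX.le hnX d
    have hc0 : (0 : ℝ) ≤ c := by positivity
    calc (c : ℝ) * u ^ m * X ^ d ≤ c * u ^ m * (u ^ d * n ^ d) := by gcongr
      _ ≤ c * u ^ m * (u ^ d * n ^ d) * d.factorial := le_mul_of_one_le_right (by positivity) hf1
      _ = _ := by push_cast; ring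

end Pool.Agent.Q51.MD
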