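import Pool.Agent.Q51.MD.Sys

set_option autoImplicit false

/-!
# The periodic set extracted from a set avoiding differences
-/

namespace Pool.Agent.Q51.MD

open MeasureTheory Filter Topology Finset

/-- the elements of `X` which are `≡ r mod M` are good for the mean ergodic theorem -/
def Erg (X : Set ℤ) (M : ℕ) (r : ℤ) : Prop :=
  ∀ (H : Type) [NormedAddCommGroup H] [InnerProductSpace ℝ H] [CompleteSpace H]
    (V : ℤ → H →ₗᵢ[ℝ] H), Rep V → ∀ w : H, Aper V w → ∀ v : H, ∀ ε : ℝ, 0 < ε →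
    ∃ (s : Finset ℕ) (y : ℕ → ℤ) (p : ℕ → ℝ),
      (∀ i ∈ s, 0 ≤ p i ∧ y i ∈ X ∧ y i ≠ 0 ∧ y i ≡ r [ZMOD M]) ∧
      ∑ i ∈ s, p i = 1 ∧ |∑ i ∈ s, p i * inner ℝ v (V (y i) w)| ≤ ε

variable {Ω : Type} {m0 : MeasurableSpace Ω} {μ : Measure Ω} {σ : ℤ → Ω → Ω}

/-- `σ k` as a measurable equivalence -/
def Flow.equiv (h : Flow μ σ) (k : ℤ) : Ω ≃ᵐ Ω where
  toFun := σ k
  invFun := σ (-k)
  left_inv x := by rw [← h.add, neg_add_cancel, h.zero]
  right_inv x := by rw [← h.add, add_neg_cancel, h.zero]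
  measurable_toFun := (h.mp k).measurable
  measurable_invFun := (h.mp (-k)).measurable

lemma Flow.emb (h : Flow μ σ) (k : ℤ) : MeasurableEmbedding (σ k) :=
  (h.equiv k).measurableEmbedding

lemma Flow.int (h : Flow μ σ) (k : ℤ) (F : Ω → ℝ) : ∫ x, F (σ k x) ∂μ = ∫ x, F x ∂μ :=
  (h.mp k).integral_comp (h.emb k) F

lemma Flow.ae (h : Flow μ σ) (k : ℤ) {p : Ω → Prop} (hp : ∀ᵐ x ∂μ, p x) :
    ∀ᵐ x ∂μ, p (σ k x) := (h.mp k).quasiMeasurePreserving.ae hp

lemma Flow.aesm (h : Flow μ σ) (k : ℤ) {F : Ω → ℝ} (hF : AEStronglyMeasurable F μ) :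
    AEStronglyMeasurable (fun x => F (σ k x)) μ :=
  hF.comp_measurePreserving (h.mp k)

lemma Flow.integrable (h : Flow μ σ) (k : ℤ) {F : Ω → ℝ} (hF : Integrable F μ) :
    Integrable (fun x => F (σ k x)) μ :=
  (h.mp k).integrable_comp_of_integrable hF

section

variable [IsProbabilityMeasure μ]

lemma ind_bdd (E : Set Ω) (x : Ω) : |E.indicator (fun _ => (1 : ℝ)) x| ≤ 1 := by
  by_cases h : x ∈ E <;> simp [h]

/-- the correlation bound -/
lemma corr (h : Flow μ σ) {E : Set Ω} (hE : MeasurableSet E) {X : Set ℤ}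
    (hX : ∀ x ∈ X, x ≠ 0 → μ (E ∩ (σ x) ⁻¹' E) = 0) {M : ℕ} {r : ℤ} (hErg : Erg X M r)
    {F : Ω → ℝ} (hF : Measurable[J μ σ M] F) (hFi : Integrable F μ) :
    |∫ x, (μ[E.indicator (fun _ => (1 : ℝ)) | KK h]) x *
      (μ[E.indicator (fun _ => (1 : ℝ)) | KK h]) (σ r x) ∂μ| ≤
      2 * ∫ x, |(μ[E.indicator (fun _ => (1 : ℝ)) | KK h]) x - F x| ∂μ := by
  set f : Ω → ℝ := E.indicator (fun _ => (1 : ℝ)) with hf
  set φ : Ω → ℝ := μ[f | KK h] with hφ
  have hfm : Measurable f := measurable_const.indicator hE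
  have hfa : AEStronglyMeasurable f μ := hfm.aestronglyMeasurable
  have hfb : ∀ᵐ x ∂μ, |f x| ≤ 1 := Eventually.of_forall fun x => ind_bdd E x
  have hfi : Integrable f μ := integrable_of_bdd hfa hfb
  have hf0 : ∀ x, 0 ≤ f x := fun x => Set.indicator_nonneg (fun _ _ => zero_le_one) x
  have hf1 : ∀ x, f x ≤ 1 := fun x => (le_abs_self _).trans (ind_bdd E x)
  have hφK : StronglyMeasurable[KK h] φ := stronglyMeasurable_condExp
  have hφm : AEStronglyMeasurable φ μ := (hφK.mono (KK_le h)).aestronglyMeasurable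
  have hφ01 : ∀ᵐ x ∂μ, 0 ≤ φ x ∧ φ x ≤ 1 :=
    condExp_bdd (KK_le h) hfi (Eventually.of_forall hf0) (Eventually.of_forall hf1)
  have hφb : ∀ᵐ x ∂μ, |φ x| ≤ 1 := by
    filter_upwards [hφ01] with x hx
    rw [abs_of_nonneg hx.1]; exact hx.2
  have hφi : Integrable φ μ := integrable_of_bdd hφm hφb
  have hwm : MemLp (fun x => f x - φ x) 2 μ := (bdd_memLp hfa hfb 2).sub (bdd_memLp hφm hφb 2)
  have hfL : MemLp f 2 μ := bdd_memLp hfa hfb 2
  set δ := ∫ x, |φ x - F x| ∂μ with hδ
  -- products with `f`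
  have hprod : ∀ (k : ℤ) {G : Ω → ℝ}, AEStronglyMeasurable G μ → (∀ᵐ x ∂μ, |G x| ≤ 1) →
      Integrable (fun x => f x * G (σ k x)) μ := by
    intro k G hG hGb
    apply integrable_of_bdd (hfa.mul (h.aesm k hG))
    filter_upwards [h.ae k hGb] with x hx
    rw [Pi.mul_apply, abs_mul]
    calc |f x| * |G (σ k x)| ≤ 1 * 1 := mul_le_mul (ind_bdd E x) hx (abs_nonneg _) zero_le_one
      _ = 1 := one_mul 1
  set a : ℤ → ℝ := fun x => ∫ y, f y * φ (σ x y) ∂μ with ha
  -- step 1
  have h1 : ∀ x ∈ X, x ≠ 0 → a x = - inner ℝ (hfL.toLp f) (V h x (hwm.toLp _)) := by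
    intro x hx hx0
    rw [inner_toLp h hfL hwm]
    have h2 : ∫ y, f y * f (σ x y) ∂μ = 0 := by
      have h3 : ∀ y, f y * f (σ x y) = (E ∩ (σ x) ⁻¹' E).indicator (fun _ => (1 : ℝ)) y := by
        intro y
        by_cases g1 : y ∈ E <;> by_cases g2 : σ x y ∈ E <;>
          simp [hf, g1, g2, Set.mem_inter_iff, Set.mem_preimage]
      simp only [h3]
      rw [integral_indicator_const (1 : ℝ) (hE.inter ((h.mp x).measurable hE)), measureReal_def,
        hX x hx hx0]
      simp
    have h3 : ∫ y, f y * (f (σ x y) - φ (σ x y)) ∂μ =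
        ∫ y, f y * f (σ x y) ∂μ - ∫ y, f y * φ (σ x y) ∂μ := by
      rw [← integral_sub (hprod x hfa hfb) (hprod x hφm hφb)]
      apply integral_congr_ae
      exact Eventually.of_forall fun y => by ring
    rw [h3, h2, zero_sub, neg_neg]
  -- step 2
  have h2 : ∀ x : ℤ, x ≡ r [ZMOD M] → |a r - a x| ≤ 2 * δ := by
    intro x hx
    have h3 := fn_congr h hF hx
    have h4 : a r - a x = ∫ y, (f y * φ (σ r y) - f y * φ (σ x y)) ∂μ :=
      (integral_sub (hprod r hφm hφb) (hprod x hφm hφb)).symm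
    have hFφ : Integrable (fun y => |φ y - F y|) μ := (hφi.sub hFi).abs
    rw [h4]
    calc |∫ y, (f y * φ (σ r y) - f y * φ (σ x y)) ∂μ|
        ≤ ∫ y, |f y * φ (σ r y) - f y * φ (σ x y)| ∂μ := abs_integral_le_integral_abs
      _ ≤ ∫ y, (|φ (σ r y) - F (σ r y)| + |φ (σ x y) - F (σ x y)|) ∂μ := by
          apply integral_mono_ae ((hprod r hφm hφb).sub (hprod x hφm hφb)).abs
            ((h.integrable r hFφ).add (h.integrable x hFφ))
          filter_upwards [h3] with y hy
          have h5 : f y * φ (σ r y) - f y * φ (σ x y) =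
              f y * ((φ (σ r y) - F (σ r y)) - (φ (σ x y) - F (σ x y))) := by
            rw [hy]; ring
          show |f y * φ (σ r y) - f y * φ (σ x y)| ≤
            |φ (σ r y) - F (σ r y)| + |φ (σ x y) - F (σ x y)|
          rw [h5, abs_mul]
          calc |f y| * |(φ (σ r y) - F (σ r y)) - (φ (σ x y) - F (σ x y))|
              ≤ 1 * |(φ (σ r y) - F (σ r y)) - (φ (σ x y) - F (σ x y))| :=
                mul_le_mul_of_nonneg_right (ind_bdd E y) (abs_nonneg _)
            _ ≤ |φ (σ r y) - F (σ r y)| + |φ (σ x y) - F (σ x y)| := by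
                rw [one_mul]; exact abs_sub _ _
      _ = 2 * δ := by
          rw [integral_add (h.integrable r hFφ) (h.integrable x hFφ),
            h.int r (fun y => |φ y - F y|), h.int x (fun y => |φ y - F y|)]
          ring
  -- step 3
  have h3 : |a r| ≤ 2 * δ := by
    apply le_of_forall_pos_le_add
    intro ε hε
    obtain ⟨s, y, p, hs, hp, hsum⟩ := hErg (Lp ℝ 2 μ) (V h) (V_rep h) (hwm.toLp _)
      (aper h hfa hfb hwm) (hfL.toLp f) ε hε
    have h4 : a r = ∑ i ∈ s, p i * (a r - a (y i)) + ∑ i ∈ s, p i * a (y i) := by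
      rw [← Finset.sum_add_distrib]
      have : ∀ i ∈ s, p i * (a r - a (y i)) + p i * a (y i) = p i * a r := fun i _ => by ring
      rw [Finset.sum_congr rfl this, ← Finset.sum_mul, hp, one_mul]
    have h5 : |∑ i ∈ s, p i * (a r - a (y i))| ≤ 2 * δ := by
      calc |∑ i ∈ s, p i * (a r - a (y i))| ≤ ∑ i ∈ s, |p i * (a r - a (y i))| :=
            Finset.abs_sum_le_sum_abs _ _
        _ ≤ ∑ i ∈ s, p i * (2 * δ) := by
            apply Finset.sum_le_sum
            intro i hi
            obtain ⟨g1, g2, g3, g4⟩ := hs i hi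
            rw [abs_mul, abs_of_nonneg g1]
            exact mul_le_mul_of_nonneg_left (h2 (y i) g4) g1
        _ = 2 * δ := by rw [← Finset.sum_mul, hp, one_mul]
    have h6 : ∑ i ∈ s, p i * a (y i) =
        - ∑ i ∈ s, p i * inner ℝ (hfL.toLp f) (V h (y i) (hwm.toLp _)) := by
      rw [← Finset.sum_neg_distrib]
      apply Finset.sum_congr rfl
      intro i hi
      obtain ⟨g1, g2, g3, g4⟩ := hs i hi
      rw [h1 (y i) g2 g3]; ring
    rw [h4]
    refine (abs_add_le _ _).trans (add_le_add h5 ?_)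
    rw [h6, abs_neg]
    exact hsum
  -- step 4
  have h4 : ∫ x, φ x * φ (σ r x) ∂μ = a r := by
    have hsK : StronglyMeasurable[KK h] (fun x => φ (σ r x)) :=
      hφK.comp_measurable (KK_shift h r)
    have h5 := pull (μ := μ) (KK_le h) hsK (h.integrable r hφi) hfa hfb
    calc ∫ x, φ x * φ (σ r x) ∂μ = ∫ x, φ (σ r x) * φ x ∂μ :=
          integral_congr_ae (Eventually.of_forall fun x => mul_comm _ _)
      _ = ∫ x, φ (σ r x) * f x ∂μ := h5.symm
      _ = a r := integral_congr_ae (Eventually.of_forall fun x => mul_comm _ _)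
  rw [h4]
  exact h3

omit [IsProbabilityMeasure μ] in
lemma L1_of_eLpNorm {F : ℕ → Ω → ℝ} {G : Ω → ℝ} (hF : ∀ n, Integrable (F n) μ) (hG : Integrable G μ)
    (h : Tendsto (fun n => eLpNorm (F n - G) 1 μ) atTop (𝓝 0)) :
    Tendsto (fun n => ∫ x, |F n x - G x| ∂μ) atTop (𝓝 0) := by
  have h1 : ∀ n, ∫ x, |F n x - G x| ∂μ = (eLpNorm (F n - G) 1 μ).toReal := by
    intro n
    rw [eLpNorm_one_eq_lintegral_enorm, ← integral_norm_eq_lintegral_enorm
      ((hF n).sub hG).aestronglyMeasurable]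
    rfl
  simp only [h1]
  rw [← ENNReal.toReal_zero]
  exact (ENNReal.tendsto_toReal ENNReal.zero_ne_top).comp h

/-- **the periodic set** -/
theorem exists_S (h : Flow μ σ) {E : Set Ω} (hE : MeasurableSet E) {X : Set ℤ}
    (hX : ∀ x ∈ X, x ≠ 0 → μ (E ∩ (σ x) ⁻¹' E) = 0) {R : ℕ → Set ℤ}
    (hR : ∀ M, 1 ≤ M → ∀ r ∈ R M, Erg X M r)
    (hlift : ∀ m M, 1 ≤ m → 1 ≤ M → m ∣ M → ∀ r ∈ R m, ∃ r' ∈ R M, r' ≡ r [ZMOD m])
    {ε : ℝ} (hε : 0 < ε) :
    ∃ m, 1 ≤ m ∧ ∃ S, MeasurableSet[J μ σ m] S ∧ μ.real (E \ S) ≤ ε ∧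
      ∀ r ∈ R m, μ (S ∩ (σ r) ⁻¹' S) = 0 := by
  set f : Ω → ℝ := E.indicator (fun _ => (1 : ℝ)) with hf
  set φ : Ω → ℝ := μ[f | KK h] with hφ
  have hfm : Measurable f := measurable_const.indicator hE
  have hfa : AEStronglyMeasurable f μ := hfm.aestronglyMeasurable
  have hfb : ∀ᵐ x ∂μ, |f x| ≤ 1 := Eventually.of_forall fun x => ind_bdd E x
  have hfi : Integrable f μ := integrable_of_bdd hfa hfb
  have hf0 : ∀ x, 0 ≤ f x := fun x => Set.indicator_nonneg (fun _ _ => zero_le_one) x
  have hf1 : ∀ x, f x ≤ 1 := fun x => (le_abs_self _).trans (ind_bdd E x)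
  have hφK : StronglyMeasurable[KK h] φ := stronglyMeasurable_condExp
  have hφmm : StronglyMeasurable φ := hφK.mono (KK_le h)
  have hφm : AEStronglyMeasurable φ μ := hφmm.aestronglyMeasurable
  have hφ01 : ∀ᵐ x ∂μ, 0 ≤ φ x ∧ φ x ≤ 1 :=
    condExp_bdd (KK_le h) hfi (Eventually.of_forall hf0) (Eventually.of_forall hf1)
  have hφb : ∀ᵐ x ∂μ, |φ x| ≤ 1 := by
    filter_upwards [hφ01] with x hx
    rw [abs_of_nonneg hx.1]; exact hx.2
  have hφi : Integrable φ μ := integrable_of_bdd hφm hφb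
  -- the set `E' = {φ > 0}`
  set E' : Set Ω := {x | 0 < φ x} with hE'
  have hE'K : MeasurableSet[KK h] E' := hφK.measurable measurableSet_Ioi
  have hE'm : MeasurableSet E' := KK_le h _ hE'K
  have hEE' : μ.real (E \ E') = 0 := by
    have h1 : ∫ x in E'ᶜ, φ x ∂μ = ∫ x in E'ᶜ, f x ∂μ := setIntegral_condExp (KK_le h) hfi hE'K.compl
    have h2 : ∫ x in E'ᶜ, φ x ∂μ ≤ 0 := by
      apply setIntegral_nonpos hE'm.compl
      intro x hx
      simpa [hE'] using hx
    have h3 : ∫ x in E'ᶜ, f x ∂μ = μ.real (E \ E') := by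
      rw [hf, setIntegral_indicator hE, setIntegral_const]
      simp [Set.sdiff_eq, Set.inter_comm]
    rw [← h3, ← h1]
    apply le_antisymm h2
    rw [h1, h3]
    exact measureReal_nonneg
  set g : Ω → ℝ := E'.indicator (fun _ => (1 : ℝ)) with hg
  have hgK : StronglyMeasurable[KK h] g := stronglyMeasurable_const.indicator hE'K
  have hgm : AEStronglyMeasurable g μ := (hgK.mono (KK_le h)).aestronglyMeasurable
  have hgb : ∀ x, |g x| ≤ 1 := ind_bdd E'
  have hg0 : ∀ x, 0 ≤ g x := fun x => Set.indicator_nonneg (fun _ _ => zero_le_one) x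
  have hg1 : ∀ x, g x ≤ 1 := fun x => (le_abs_self _).trans (ind_bdd E' x)
  have hgi : Integrable g μ := integrable_of_bdd hgm (Eventually.of_forall hgb)
  -- martingale convergence
  have hconvg : Tendsto (fun n => ∫ x, |(μ[g | filt h n]) x - g x| ∂μ) atTop (𝓝 0) :=
    L1_of_eLpNorm (fun n => integrable_condExp) hgi (hgi.tendsto_eLpNorm_condExp hgK)
  have hconvφ : Tendsto (fun n => ∫ x, |(μ[f | filt h n]) x - φ x| ∂μ) atTop (𝓝 0) :=
    L1_of_eLpNorm (fun n => integrable_condExp) hφi (tendsto_eLpNorm_condExp f)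
  obtain ⟨n, hn⟩ := (hconvg.eventually (gt_mem_nhds (half_pos hε))).exists
  set ψ : Ω → ℝ := μ[g | filt h n] with hψ
  have hψJ : StronglyMeasurable[J μ σ n.factorial] ψ := stronglyMeasurable_condExp
  have hψi : Integrable ψ μ := integrable_condExp
  set S : Set Ω := {x | 1 / 2 < ψ x} with hS
  have hSJ : MeasurableSet[J μ σ n.factorial] S := hψJ.measurable measurableSet_Ioi
  have hSm : MeasurableSet S := J_le _ _ hSJ
  refine ⟨n.factorial, Nat.factorial_pos n, S, hSJ, ?_, ?_⟩
  · -- the measure of `E \ S`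
    have h1 : E \ S ⊆ (E \ E') ∪ {x | 1 / 2 ≤ |ψ x - g x|} := by
      intro x hx
      by_cases hx' : x ∈ E'
      · right
        have h2 : g x = 1 := by rw [hg, Set.indicator_of_mem hx']
        have h3 : ψ x ≤ 1 / 2 := by
          have := hx.2
          simpa [hS] using this
        show 1 / 2 ≤ |ψ x - g x|
        rw [h2, abs_sub_comm, abs_of_nonneg (by linarith)]
        linarith
      · left; exact ⟨hx.1, hx'⟩
    have h2 := mul_meas_ge_le_integral_of_nonneg (μ := μ) (f := fun x => |ψ x - g x|)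
      (Eventually.of_forall fun x => abs_nonneg _) (hψi.sub hgi).abs (1 / 2)
    calc μ.real (E \ S) ≤ μ.real ((E \ E') ∪ {x | 1 / 2 ≤ |ψ x - g x|}) := measureReal_mono h1
      _ ≤ μ.real (E \ E') + μ.real {x | 1 / 2 ≤ |ψ x - g x|} := measureReal_union_le _ _
      _ ≤ ε := by rw [hEE']; linarith
  · intro r hr
    by_contra hne
    set W : Set Ω := S ∩ (σ r) ⁻¹' S with hW
    have hWJ : MeasurableSet[J μ σ n.factorial] W := hSJ.inter (J_shift h hSJ r)
    have hWm : MeasurableSet W := J_le _ _ hWJ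
    set η : ℝ := ∫ x in W, (ψ x + ψ (σ r x) - 1) ∂μ with hη
    have hηi : Integrable (fun x => ψ x + ψ (σ r x) - 1) μ :=
      (hψi.add (h.integrable r hψi)).sub (integrable_const _)
    have hη0 : 0 < η := by
      rw [hη, setIntegral_pos_iff_support_of_nonneg_ae]
      · have h1 : Function.support (fun x => ψ x + ψ (σ r x) - 1) ∩ W = W := by
          apply Set.inter_eq_right.2
          intro x hx
          have h2 : 1 / 2 < ψ x := hx.1
          have h3 : 1 / 2 < ψ (σ r x) := hx.2
          show ψ x + ψ (σ r x) - 1 ≠ 0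
          linarith
        rw [h1]
        exact pos_iff_ne_zero.2 hne
      · filter_upwards [ae_restrict_mem hWm] with x hx
        have h2 : 1 / 2 < ψ x := hx.1
        have h3 : 1 / 2 < ψ (σ r x) := hx.2
        show 0 ≤ ψ x + ψ (σ r x) - 1
        linarith
      · exact hηi.integrableOn
    -- lower bound for the correlations of `g`
    have hlow : ∀ k : ℤ, k ≡ r [ZMOD n.factorial] → η ≤ ∫ x, g x * g (σ k x) ∂μ := by
      intro k hk
      have h1 : ∫ x in W, g x ∂μ = ∫ x in W, ψ x ∂μ :=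
        (setIntegral_condExp ((filt h).le n) hgi hWJ).symm
      have h2 : ∀ G : Ω → ℝ, ∫ x in W, G (σ k x) ∂μ = ∫ x in (σ (-k)) ⁻¹' W, G x ∂μ := by
        intro G
        have h3 : W = (σ k) ⁻¹' ((σ (-k)) ⁻¹' W) := by
          ext x
          simp only [Set.mem_preimage]
          rw [← h.add, neg_add_cancel, h.zero]
        conv_lhs => rw [h3]
        exact (h.mp k).setIntegral_preimage_emb (h.emb k) G _
      have h3 : ∫ x in W, g (σ k x) ∂μ = ∫ x in W, ψ (σ k x) ∂μ := by
        rw [h2 g, h2 ψ]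
        exact (setIntegral_condExp ((filt h).le n) hgi (J_shift h hWJ (-k))).symm
      have h4 : ∫ x in W, ψ (σ k x) ∂μ = ∫ x in W, ψ (σ r x) ∂μ :=
        integral_congr_ae (ae_restrict_of_ae (fn_congr h hψJ.measurable hk))
      have hgg : Integrable (fun x => g x * g (σ k x)) μ := by
        apply integrable_of_bdd (hgm.mul (h.aesm k hgm))
        refine Eventually.of_forall fun x => ?_
        rw [Pi.mul_apply, abs_mul]
        calc |g x| * |g (σ k x)| ≤ 1 * 1 := mul_le_mul (hgb _) (hgb _) (abs_nonneg _) zero_le_one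
          _ = 1 := one_mul 1
      have h5 : η = ∫ x in W, (g x + g (σ k x) - 1) ∂μ := by
        have e1 : η = ∫ x in W, ψ x ∂μ + ∫ x in W, ψ (σ r x) ∂μ - ∫ x in W, (1 : ℝ) ∂μ := by
          rw [hη, integral_sub, integral_add]
          · exact hψi.integrableOn
          · exact (h.integrable r hψi).integrableOn
          · exact (hψi.add (h.integrable r hψi)).integrableOn
          · exact (integrable_const _).integrableOn
        have e2 : ∫ x in W, (g x + g (σ k x) - 1) ∂μ =
            ∫ x in W, g x ∂μ + ∫ x in W, g (σ k x) ∂μ - ∫ x in W, (1 : ℝ) ∂μ := by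
          rw [integral_sub, integral_add]
          · exact hgi.integrableOn
          · exact (h.integrable k hgi).integrableOn
          · exact (hgi.add (h.integrable k hgi)).integrableOn
          · exact (integrable_const _).integrableOn
        rw [e1, e2, h1, h3, h4]
      rw [h5]
      calc ∫ x in W, (g x + g (σ k x) - 1) ∂μ ≤ ∫ x in W, g x * g (σ k x) ∂μ := by
            apply setIntegral_mono ((hgi.add (h.integrable k hgi)).sub
              (integrable_const _)).integrableOn hgg.integrableOn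
            intro x
            have g1 := hg0 x
            have g2 := hg1 x
            have g3 := hg0 (σ k x)
            have g4 := hg1 (σ k x)
            show g x + g (σ k x) - 1 ≤ g x * g (σ k x)
            nlinarith
        _ ≤ ∫ x, g x * g (σ k x) ∂μ :=
            setIntegral_le_integral hgg (Eventually.of_forall fun x => mul_nonneg (hg0 _) (hg0 _))
    -- the level
    obtain ⟨j, hj⟩ : ∃ j : ℕ, μ.real {x | 0 < φ x ∧ φ x ≤ 1 / ((j : ℝ) + 1)} < η / 8 := by
      have h1 : Tendsto (μ ∘ fun j : ℕ => {x | 0 < φ x ∧ φ x ≤ 1 / ((j : ℝ) + 1)}) atTop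
          (𝓝 (μ (⋂ j : ℕ, {x | 0 < φ x ∧ φ x ≤ 1 / ((j : ℝ) + 1)}))) := by
        apply tendsto_measure_iInter_atTop
        · intro j
          exact ((hφmm.measurable measurableSet_Ioi).inter
            (hφmm.measurable measurableSet_Iic)).nullMeasurableSet
        · intro a b hab x hx
          refine ⟨hx.1, hx.2.trans ?_⟩
          have : (a : ℝ) ≤ b := by exact_mod_cast hab
          exact one_div_le_one_div_of_le (by positivity) (by linarith)
        · exact ⟨0, measure_ne_top _ _⟩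
      have h2 : (⋂ j : ℕ, {x | 0 < φ x ∧ φ x ≤ 1 / ((j : ℝ) + 1)}) = ∅ := by
        ext x
        simp only [Set.mem_iInter, Set.mem_ofPred_eq, Set.mem_empty_iff_false, iff_false, not_forall]
        by_cases hx : 0 < φ x
        · obtain ⟨j, hj⟩ := exists_nat_one_div_lt hx
          exact ⟨j, fun h3 => absurd h3.2 (not_le.2 hj)⟩
        · exact ⟨0, fun h3 => hx h3.1⟩
      rw [h2, measure_empty] at h1
      have h3 : Tendsto (fun j : ℕ => μ.real {x | 0 < φ x ∧ φ x ≤ 1 / ((j : ℝ) + 1)}) atTop (𝓝 0) := by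
        rw [← ENNReal.toReal_zero]
        exact (ENNReal.tendsto_toReal ENNReal.zero_ne_top).comp h1
      exact (h3.eventually (gt_mem_nhds (by positivity))).exists
    set A : Set Ω := {x | 0 < φ x ∧ φ x ≤ 1 / ((j : ℝ) + 1)} with hA
    have hAm : MeasurableSet A := (hφmm.measurable measurableSet_Ioi).inter
      (hφmm.measurable measurableSet_Iic)
    set τ : ℝ := (j : ℝ) + 1 with hτ
    have hτ0 : 0 < τ := by positivity
    -- large `N`
    obtain ⟨N, hN1, hN2⟩ := ((hconvφ.eventually (gt_mem_nhds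
      (show (0 : ℝ) < η / (16 * τ ^ 2) by positivity))).and (eventually_ge_atTop n)).exists
    obtain ⟨r', hr', hrr'⟩ := hlift n.factorial N.factorial (Nat.factorial_pos _)
      (Nat.factorial_pos _) (Nat.factorial_dvd_factorial hN2) r hr
    have hc := corr h hE hX (hR _ (Nat.factorial_pos N) r' hr')
      (F := μ[f | filt h N]) stronglyMeasurable_condExp.measurable integrable_condExp
    have hc2 : ∫ x, φ x * φ (σ r' x) ∂μ ≤ η / (8 * τ ^ 2) := by
      refine (le_abs_self _).trans (hc.trans ?_)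
      have h1 : ∫ x, |φ x - (μ[f | filt h N]) x| ∂μ = ∫ x, |(μ[f | filt h N]) x - φ x| ∂μ := by
        simp only [abs_sub_comm]
      show 2 * ∫ x, |φ x - (μ[f | filt h N]) x| ∂μ ≤ _
      rw [h1]
      calc 2 * ∫ x, |(μ[f | filt h N]) x - φ x| ∂μ ≤ 2 * (η / (16 * τ ^ 2)) := by linarith
        _ = η / (8 * τ ^ 2) := by field_simp; ring
    have hl := hlow r' hrr'
    -- pointwise bound
    have hφφ : Integrable (fun x => φ x * φ (σ r' x)) μ := by
      apply integrable_of_bdd (hφm.mul (h.aesm r' hφm))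
      filter_upwards [hφb, h.ae r' hφb] with x hx hx1
      rw [Pi.mul_apply, abs_mul]
      calc |φ x| * |φ (σ r' x)| ≤ 1 * 1 := mul_le_mul hx hx1 (abs_nonneg _) zero_le_one
        _ = 1 := one_mul 1
    have hAi : Integrable (A.indicator (fun _ => (1 : ℝ))) μ := (integrable_const _).indicator hAm
    have hpt : ∀ᵐ x ∂μ, g x * g (σ r' x) ≤ A.indicator (fun _ => (1 : ℝ)) x +
        A.indicator (fun _ => (1 : ℝ)) (σ r' x) + τ ^ 2 * (φ x * φ (σ r' x)) := by
      have hlev : ∀ y, g y ≤ A.indicator (fun _ => (1 : ℝ)) y + τ * max (φ y) 0 := by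
        intro y
        have hA0 : 0 ≤ A.indicator (fun _ => (1 : ℝ)) y :=
          Set.indicator_nonneg (fun _ _ => zero_le_one) y
        by_cases hy : y ∈ E'
        · have h0 : 0 < φ y := hy
          rw [max_eq_left h0.le]
          by_cases hyA : y ∈ A
          · rw [Set.indicator_of_mem hyA]
            have := hg1 y
            have : 0 ≤ τ * φ y := by positivity
            linarith
          · have h1 : 1 / τ < φ y := by
              by_contra hcon
              exact hyA ⟨h0, not_lt.1 hcon⟩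
            rw [div_lt_iff₀ hτ0] at h1
            have := hg1 y
            linarith
        · rw [hg, Set.indicator_of_notMem hy]
          have : 0 ≤ τ * max (φ y) 0 := mul_nonneg hτ0.le (le_max_right _ _)
          linarith
      filter_upwards [hφ01, h.ae r' hφ01] with x hx hx1
      have h1 := hlev x
      have h2 := hlev (σ r' x)
      rw [max_eq_left hx.1] at h1
      rw [max_eq_left hx1.1] at h2
      -- either `x ∈ A`, or `σ x ∈ A`, or both indicator terms vanish
      by_cases hxA : x ∈ A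
      · rw [Set.indicator_of_mem hxA]
        have h3 : g x * g (σ r' x) ≤ 1 := by
          calc g x * g (σ r' x) ≤ 1 * 1 := mul_le_mul (hg1 _) (hg1 _) (hg0 _) zero_le_one
            _ = 1 := one_mul 1
        have h4 : 0 ≤ A.indicator (fun _ => (1 : ℝ)) (σ r' x) :=
          Set.indicator_nonneg (fun _ _ => zero_le_one) _
        have h5 : 0 ≤ τ ^ 2 * (φ x * φ (σ r' x)) := by
          have := mul_nonneg hx.1 hx1.1
          positivity
        linarith
      · by_cases hxA' : σ r' x ∈ A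
        · rw [Set.indicator_of_mem hxA', Set.indicator_of_notMem hxA]
          have h3 : g x * g (σ r' x) ≤ 1 := by
            calc g x * g (σ r' x) ≤ 1 * 1 := mul_le_mul (hg1 _) (hg1 _) (hg0 _) zero_le_one
              _ = 1 := one_mul 1
          have h5 : 0 ≤ τ ^ 2 * (φ x * φ (σ r' x)) := by
            have := mul_nonneg hx.1 hx1.1
            positivity
          linarith
        · rw [Set.indicator_of_notMem hxA] at h1 ⊢
          rw [Set.indicator_of_notMem hxA'] at h2 ⊢
          rw [zero_add] at h1 h2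
          calc g x * g (σ r' x) ≤ (τ * φ x) * (τ * φ (σ r' x)) :=
                mul_le_mul h1 h2 (hg0 _) (mul_nonneg hτ0.le hx.1)
            _ = 0 + 0 + τ ^ 2 * (φ x * φ (σ r' x)) := by ring
    have hgg : Integrable (fun x => g x * g (σ r' x)) μ := by
      apply integrable_of_bdd (hgm.mul (h.aesm r' hgm))
      refine Eventually.of_forall fun x => ?_
      rw [Pi.mul_apply, abs_mul]
      calc |g x| * |g (σ r' x)| ≤ 1 * 1 := mul_le_mul (hgb _) (hgb _) (abs_nonneg _) zero_le_one
        _ = 1 := one_mul 1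
    have hup : ∫ x, g x * g (σ r' x) ∂μ ≤ μ.real A + μ.real A + τ ^ 2 * (η / (8 * τ ^ 2)) := by
      calc ∫ x, g x * g (σ r' x) ∂μ
          ≤ ∫ x, (A.indicator (fun _ => (1 : ℝ)) x +
              A.indicator (fun _ => (1 : ℝ)) (σ r' x) + τ ^ 2 * (φ x * φ (σ r' x))) ∂μ :=
            integral_mono_ae hgg ((hAi.add (h.integrable r' hAi)).add (hφφ.const_mul _)) hpt
        _ = μ.real A + μ.real A + τ ^ 2 * ∫ x, φ x * φ (σ r' x) ∂μ := by
            rw [integral_add, integral_add, h.int r' (A.indicator (fun _ => (1 : ℝ))),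
              integral_indicator_const (1 : ℝ) hAm, integral_const_mul, smul_eq_mul, mul_one]
            · exact hAi
            · exact h.integrable r' hAi
            · exact hAi.add (h.integrable r' hAi)
            · exact hφφ.const_mul _
        _ ≤ μ.real A + μ.real A + τ ^ 2 * (η / (8 * τ ^ 2)) := by
            have := mul_le_mul_of_nonneg_left hc2 (sq_nonneg τ)
            linarith
    have h9 : τ ^ 2 * (η / (8 * τ ^ 2)) = η / 8 := by field_simp
    rw [h9] at hup
    linarith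

end

end Pool.Agent.Q51.MD
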