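import Pool.Agent.Q51.MD.Extract

set_option autoImplicit false

/-!
# Furstenberg's correspondence principle
-/

namespace Pool.Agent.Q51.MD

open MeasureTheory Filter Topology Finset

/-- the shift space -/
abbrev Sp : Type := ℤ → Bool

/-- the shifts -/
def shift (k : ℤ) (ω : Sp) : Sp := fun n => ω (n + k)

lemma shift_cont (k : ℤ) : Continuous (shift k) :=
  continuous_pi fun n => continuous_apply (n + k)

lemma shift_add (j k : ℤ) (ω : Sp) : shift (j + k) ω = shift j (shift k ω) := by
  funext n; simp [shift, add_assoc]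

lemma shift_zero (ω : Sp) : shift 0 ω = ω := by funext n; simp [shift]

/-- the empirical measures of the orbit of `ω` -/
noncomputable def emp (ω : Sp) (N : ℕ) : ProbabilityMeasure Sp :=
  ⟨((N + 1 : ℕ) : ENNReal)⁻¹ • ∑ n ∈ range (N + 1), Measure.dirac (shift ((n : ℤ) + 1) ω), by
    constructor
    rw [Measure.smul_apply, Measure.finsetSum_apply]
    simp only [measure_univ, Finset.sum_const, Finset.card_range, nsmul_eq_mul, mul_one, smul_eq_mul]
    exact ENNReal.inv_mul_cancel (by simp) (ENNReal.natCast_ne_top _)⟩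

lemma emp_int (ω : Sp) (N : ℕ) (f : Sp → ℝ) :
    ∫ x, f x ∂(emp ω N : Measure Sp) =
      avg (fun n : ℕ => f (shift ((n : ℤ) + 1) ω)) (N + 1) := by
  show ∫ x, f x ∂(((N + 1 : ℕ) : ENNReal)⁻¹ • ∑ n ∈ range (N + 1), Measure.dirac (shift ((n : ℤ) + 1) ω)) = _
  rw [integral_smul_measure, integral_finsetSum_measure]
  · simp only [integral_dirac, avg]
    rw [ENNReal.toReal_inv, ENNReal.toReal_natCast]
  · intro i _
    exact integrable_dirac (by simp)

lemma emp_apply (ω : Sp) (N : ℕ) {s : Set Sp} (hs : MeasurableSet s) :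
    (emp ω N : Measure Sp).real s =
      avg (fun n : ℕ => s.indicator (fun _ => (1 : ℝ)) (shift ((n : ℤ) + 1) ω)) (N + 1) := by
  rw [← emp_int, integral_indicator_const (1 : ℝ) hs]
  simp

/-- the correspondence principle -/
theorem correspondence (ω : Sp) {δ : ℝ}
    (hδ : ∃ᶠ N : ℕ in atTop, δ ≤ avg (fun n : ℕ => if ω ((n : ℤ) + 1) then (1 : ℝ) else 0) (N + 1)) :
    ∃ μ : Measure Sp, IsProbabilityMeasure μ ∧ Flow μ shift ∧
      δ ≤ μ.real {x | x 0 = true} ∧
      ∀ x : ℤ, (∀ n : ℤ, ¬ (ω n = true ∧ ω (n + x) = true)) →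
        μ ({y | y 0 = true} ∩ (shift x) ⁻¹' {y | y 0 = true}) = 0 := by
  -- an ultrafilter
  set D : Set ℕ := {N | δ ≤ avg (fun n : ℕ => if ω ((n : ℤ) + 1) then (1 : ℝ) else 0) (N + 1)} with hD
  have hne : (atTop ⊓ 𝓟 D : Filter ℕ).NeBot := by
    rw [← frequently_mem_iff_neBot]
    exact hδ
  set U : Ultrafilter ℕ := Ultrafilter.of (atTop ⊓ 𝓟 D) with hU
  have hUle : (U : Filter ℕ) ≤ atTop ⊓ 𝓟 D := Ultrafilter.of_le _
  have hUtop : (U : Filter ℕ) ≤ atTop := hUle.trans inf_le_left
  have hUD : D ∈ U := hUle (mem_inf_of_right (mem_principal_self D))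
  obtain ⟨P, _, hP⟩ := isCompact_univ.ultrafilter_le_nhds (U.map (emp ω)) (by simp)
  have hP' : Tendsto (emp ω) U (𝓝 P) := hP
  -- clopen sets
  have hclopen : ∀ s : Set Sp, IsClopen s →
      Tendsto (fun N => (emp ω N : Measure Sp).real s) U (𝓝 ((P : Measure Sp).real s)) := by
    intro s hs
    have h1 := ProbabilityMeasure.tendsto_measure_of_null_frontier_of_tendsto' hP' (E := s)
      (by rw [hs.frontier_eq]; simp)
    exact (ENNReal.tendsto_toReal (measure_ne_top _ _)).comp h1
  have hcl0 : IsClopen {x : Sp | x 0 = true} := by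
    have : {x : Sp | x 0 = true} = (fun x : Sp => x 0) ⁻¹' {true} := by ext x; simp
    rw [this]
    exact (isClopen_discrete _).preimage (continuous_apply 0)
  -- invariance
  have hinv : ∀ k : ℕ, (P : Measure Sp).map (shift k) = P := by
    intro k
    have hm : Measurable (shift (k : ℤ)) := (shift_cont k).measurable
    have : IsProbabilityMeasure ((P : Measure Sp).map (shift (k : ℤ))) :=
      Measure.isProbabilityMeasure_map hm.aemeasurable
    apply ext_of_forall_integral_eq_of_IsFiniteMeasure
    intro f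
    rw [integral_map hm.aemeasurable f.continuous.aestronglyMeasurable]
    have h1 : Tendsto (fun N => ∫ x, f x ∂(emp ω N : Measure Sp)) U (𝓝 (∫ x, f x ∂(P : Measure Sp))) :=
      (ProbabilityMeasure.tendsto_iff_forall_integral_tendsto.1 hP') f
    have h2 : Tendsto (fun N => ∫ x, f (shift k x) ∂(emp ω N : Measure Sp)) U
        (𝓝 (∫ x, f (shift k x) ∂(P : Measure Sp))) :=
      (ProbabilityMeasure.tendsto_iff_forall_integral_tendsto.1 hP')
        (f.compContinuous ⟨shift k, shift_cont k⟩)
    have h3 : Tendsto (fun N => ∫ x, f (shift k x) ∂(emp ω N : Measure Sp) -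
        ∫ x, f x ∂(emp ω N : Measure Sp)) U (𝓝 0) := by
      simp only [emp_int]
      have h4 := tendsto_avg_shift (u := fun n : ℕ => f (shift ((n : ℤ) + 1) ω)) (B := ‖f‖)
        (fun n => f.norm_coe_le_norm _) k
      have h5 : ∀ n : ℕ, f (shift (k : ℤ) (shift ((n : ℤ) + 1) ω)) =
          f (shift (((n + k : ℕ) : ℤ) + 1) ω) := by
        intro n
        rw [← shift_add]
        congr 2
        push_cast; ring
      simp only [h5]
      exact (h4.comp (tendsto_add_atTop_nat 1)).mono_left hUtop
    have h4 := tendsto_nhds_unique (h2.sub h1) h3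
    linarith
  have hinv' : ∀ k : ℤ, (P : Measure Sp).map (shift k) = P := by
    intro k
    rcases Int.le_total 0 k with hk | hk
    · obtain ⟨n, rfl⟩ := Int.eq_ofNat_of_zero_le hk
      exact hinv n
    · obtain ⟨n, hn⟩ := Int.eq_ofNat_of_zero_le (show 0 ≤ -k by omega)
      have h1 := hinv n
      have h2 : ((P : Measure Sp).map (shift n)).map (shift k) = P := by
        rw [Measure.map_map (shift_cont k).measurable (shift_cont n).measurable]
        have : shift k ∘ shift n = id := by
          funext x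
          simp only [Function.comp, id]
          rw [← shift_add, ← hn, add_neg_cancel, shift_zero]
        rw [this, Measure.map_id]
      rwa [h1] at h2
  refine ⟨P, inferInstance, ⟨shift_zero, shift_add, fun k => ⟨(shift_cont k).measurable, hinv' k⟩⟩,
    ?_, ?_⟩
  · -- the density
    apply ge_of_tendsto (hclopen _ hcl0)
    filter_upwards [hUD] with N hN
    rw [emp_apply ω N hcl0.1.measurableSet]
    have h1 : (fun n : ℕ => {x : Sp | x 0 = true}.indicator (fun _ => (1 : ℝ)) (shift ((n : ℤ) + 1) ω)) =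
        fun n : ℕ => if ω ((n : ℤ) + 1) then (1 : ℝ) else 0 := by
      funext n
      rw [Set.indicator_apply]
      simp [shift]
    rw [h1]
    exact hN
  · intro x hx
    have hcl : IsClopen ({y : Sp | y 0 = true} ∩ (shift x) ⁻¹' {y | y 0 = true}) :=
      hcl0.inter (hcl0.preimage (shift_cont x))
    have h1 := hclopen _ hcl
    have h2 : ∀ N, (emp ω N : Measure Sp).real
        ({y : Sp | y 0 = true} ∩ (shift x) ⁻¹' {y | y 0 = true}) = 0 := by
      intro N
      rw [emp_apply ω N hcl.1.measurableSet]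
      have h3 : (fun n : ℕ => ({y : Sp | y 0 = true} ∩ (shift x) ⁻¹' {y | y 0 = true}).indicator
          (fun _ => (1 : ℝ)) (shift ((n : ℤ) + 1) ω)) = fun _ => 0 := by
        funext n
        apply Set.indicator_of_notMem
        intro h4
        apply hx ((n : ℤ) + 1)
        have h5 := h4.1
        have h6 := h4.2
        simp only [shift, Set.mem_ofPred_eq, Set.mem_preimage, zero_add] at h5 h6
        refine ⟨h5, ?_⟩
        rw [add_comm]; exact h6
      rw [h3]
      simp [avg]
    simp only [h2] at h1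
    have h3 := tendsto_nhds_unique h1 tendsto_const_nhds
    rw [measureReal_eq_zero_iff] at h3
    exact h3

end Pool.Agent.Q51.MD
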