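import Pool.Agent.Q51.MD.MJ

set_option autoImplicit false

/-!
# Sums over primes of polynomial phases: minor arcs, residue classes
-/

namespace Pool.Agent.Q51.MD

open Finset Filter Polynomial
open Pool.Agent.Helper602.MK (ee)
open Pool.Agent.Helper602.MK.N_J5b (ee_eq ee_add ee_zero ee_conj norm_ee ee_int ee_nat_mul ee_add_int ee_eq_one_iff)

theorem pp_small : ∃ N₀ : ℕ, ∀ N : ℕ, N₀ ≤ N →
    ∑ n ∈ Ioc N (2 * N), |ArithmeticFunction.vonMangoldt n - lp n| ≤ N / ell N := by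
  obtain ⟨N1, h1⟩ := ell_pow 4 (1 / 9) (by norm_num)
  refine ⟨max N1 1, fun N hN => ?_⟩
  have a1 : 1 ≤ N := (le_max_right _ _).trans hN
  have hN0 : (1 : ℝ) ≤ N := by exact_mod_cast a1
  have h2 := h1 N ((le_max_left _ _).trans hN)
  have hlog : 0 ≤ Real.log (4 * (N : ℝ)) := Real.log_nonneg (by linarith)
  have hell : 1 ≤ ell N := by unfold ell; linarith
  have e1 : ∀ n : ℕ, |ArithmeticFunction.vonMangoldt n - lp n| =
      if ¬ n.Prime then ArithmeticFunction.vonMangoldt n else 0 := by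
    intro n
    unfold lp
    by_cases hp : n.Prime
    · rw [if_pos hp, if_neg (not_not.2 hp), ArithmeticFunction.vonMangoldt_apply_prime hp, sub_self, abs_zero]
    · rw [if_neg hp, if_pos hp, sub_zero, abs_of_nonneg ArithmeticFunction.vonMangoldt_nonneg]
  simp_rw [e1]
  rw [← sum_filter]
  have hx1 : (1 : ℝ) ≤ ((2 * N : ℕ) : ℝ) := by push_cast; linarith
  have h3 := Chebyshev.psi_sub_theta_le hx1
  rw [Chebyshev.psi_sub_theta_eq_sum_not_prime, Nat.floor_natCast] at h3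
  have h4 : ∑ n ∈ (Ioc N (2 * N)).filter (fun n => ¬ n.Prime), ArithmeticFunction.vonMangoldt n ≤
      ∑ n ∈ (Ioc 0 (2 * N)).filter (fun n => ¬ n.Prime), ArithmeticFunction.vonMangoldt n := by
    apply sum_le_sum_of_subset_of_nonneg
    · apply filter_subset_filter
      intro k hk
      rw [mem_Ioc] at hk ⊢
      omega
    · intro k _ _
      exact ArithmeticFunction.vonMangoldt_nonneg
  refine (h4.trans h3).trans ?_
  have h5 : Real.log ((2 * N : ℕ) : ℝ) ≤ ell N := by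
    have : Real.log ((2 * N : ℕ) : ℝ) ≤ Real.log (4 * N) := by
      apply Real.log_le_log (by linarith)
      push_cast; linarith
    unfold ell; linarith
  have h5' : 0 ≤ Real.log ((2 * N : ℕ) : ℝ) := Real.log_nonneg hx1
  rw [le_div_iff₀ (by linarith)]
  have h6 : Real.sqrt ((2 * N : ℕ) : ℝ) * ell N ^ 2 ≤ N / 2 := by
    have h7 : Real.sqrt ((2 * N : ℕ) : ℝ) * ell N ^ 2 = Real.sqrt (((2 * N : ℕ) : ℝ) * ell N ^ 4) := by
      rw [Real.sqrt_mul (by positivity)]
      congr 1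
      rw [show ell N ^ 4 = (ell N ^ 2) ^ 2 by ring, Real.sqrt_sq (by positivity)]
    rw [h7]
    apply Real.sqrt_le_iff.2
    refine ⟨by positivity, ?_⟩
    push_cast
    nlinarith
  have h8 : 0 ≤ Real.sqrt ((2 * N : ℕ) : ℝ) := Real.sqrt_nonneg _
  calc 2 * Real.sqrt ((2 * N : ℕ) : ℝ) * Real.log ((2 * N : ℕ) : ℝ) * ell N ≤
        2 * Real.sqrt ((2 * N : ℕ) : ℝ) * ell N * ell N := by gcongr
    _ = 2 * (Real.sqrt ((2 * N : ℕ) : ℝ) * ell N ^ 2) := by ring
    _ ≤ N := by linarith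

theorem detect_mod (M : ℕ) (hM : 1 ≤ M) (n c : ℕ) :
    (if n ≡ c [MOD M] then (1 : ℂ) else 0) =
      1 / M * ∑ t ∈ range M, ee (t * (((n : ℝ) - c) / M)) := by
  have hM0 : (M : ℂ) ≠ 0 := by
    have : (M : ℕ) ≠ 0 := by omega
    exact_mod_cast this
  have hM1 : (M : ℝ) ≠ 0 := by
    have : (M : ℕ) ≠ 0 := by omega
    exact_mod_cast this
  simp_rw [ee_nat_mul]
  have hpow : ee (((n : ℝ) - c) / M) ^ M = 1 := by
    rw [← ee_nat_mul]
    have : (M : ℝ) * (((n : ℝ) - c) / M) = (((n : ℤ) - c : ℤ) : ℝ) := by push_cast; field_simp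
    rw [this, ee_int]
  by_cases h : n ≡ c [MOD M]
  · rw [if_pos h]
    have h1 : ee (((n : ℝ) - c) / M) = 1 := by
      rw [ee_eq_one_iff]
      obtain ⟨k, hk⟩ := (Nat.modEq_iff_dvd.1 h.symm)
      refine ⟨k, ?_⟩
      have h2 : ((n : ℝ) - c) = M * k := by exact_mod_cast hk
      rw [h2]; field_simp
    rw [h1]
    simp [hM0]
  · rw [if_neg h]
    have h1 : ee (((n : ℝ) - c) / M) ≠ 1 := by
      rw [Ne, ee_eq_one_iff]
      rintro ⟨k, hk⟩
      apply h
      apply Nat.ModEq.symm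
      rw [Nat.modEq_iff_dvd]
      refine ⟨k, ?_⟩
      rw [div_eq_iff hM1] at hk
      have h2 : (n : ℝ) - c = M * k := by rw [hk]; ring
      exact_mod_cast h2
    rw [geom_sum_eq h1, hpow, sub_self, zero_div, mul_zero]

/-- minor arcs, residue classes -/
theorem minor (h : ℤ[X]) (hd : 1 ≤ h.natDegree) (M : ℕ) (hM : 1 ≤ M) (c : ℕ) : ∃ E N₀ : ℕ,
    ∀ N : ℕ, N₀ ≤ N → ∀ θ : ℝ, ¬ Maj (ell N ^ E) h.natDegree N θ → ‖SP h M c N θ‖ ≤ 2 * (N / ell N) := by
  obtain ⟨E1, N1, h1⟩ := pv h.natDegree hd 1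
  obtain ⟨N2, h2⟩ := pp_small
  obtain ⟨N3, h3⟩ := ell_large (max 1 (M * |(h.leadingCoeff : ℝ)|))
  refine ⟨E1 + 1, max (max N1 N2) (max N3 1), ?_⟩
  intro N hN θ hmaj
  have a1 : N1 ≤ N := ((le_max_left _ _).trans (le_max_left _ _)).trans hN
  have a2 : N2 ≤ N := ((le_max_right _ _).trans (le_max_left _ _)).trans hN
  have a3 : N3 ≤ N := ((le_max_left _ _).trans (le_max_right _ _)).trans hN
  have a4 : 1 ≤ N := ((le_max_right _ _).trans (le_max_right _ _)).trans hN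
  have hN0 : (0 : ℝ) < N := by exact_mod_cast a4
  have hM0 : (0 : ℝ) < M := by exact_mod_cast hM
  have b1 : 1 ≤ ell N := (le_max_left _ _).trans (h3 N a3)
  have b2 : M * |(h.leadingCoeff : ℝ)| ≤ ell N := (le_max_right _ _).trans (h3 N a3)
  have hell : 0 < ell N := by linarith
  set d := h.natDegree with hdd
  have hlc0 : h.leadingCoeff ≠ 0 := by
    rw [Ne, leadingCoeff_eq_zero]
    intro h0
    rw [h0] at hdd
    simp at hdd
    omega
  have hlc1 : (1 : ℝ) ≤ |(h.leadingCoeff : ℝ)| := by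
    have := Int.one_le_abs hlc0
    exact_mod_cast this
  set F : ℕ → ℝ[X] := fun t => C θ * h.map (Int.castRingHom ℝ) + C ((t : ℝ) / M) * X with hF
  have hFd : ∀ t, (F t).natDegree ≤ d := by
    intro t
    refine (natDegree_add_le _ _).trans (max_le ?_ ?_)
    · exact (natDegree_C_mul_le _ _).trans natDegree_map_le
    · exact (natDegree_C_mul_le _ _).trans (natDegree_X_le.trans hd)
  have hFe : ∀ t n : ℕ, (F t).eval (n : ℝ) = θ * ((h.eval (n : ℤ) : ℤ) : ℝ) + t / M * n := by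
    intro t n
    simp only [hF, eval_add, eval_mul, eval_C, eval_X]
    congr 2
    simp
  have hFc : ∀ t, (F t).coeff d = θ * (h.leadingCoeff : ℝ) + (if d = 1 then (t : ℝ) / M else 0) := by
    intro t
    simp only [hF, coeff_add, coeff_C_mul, coeff_map]
    rw [coeff_X]
    rw [hdd]
    simp only [coeff_natDegree, eq_intCast]
    congr 1
    by_cases h5 : h.natDegree = 1
    · simp [h5]
    · rw [if_neg h5, if_neg (fun h6 => h5 h6.symm), mul_zero]
  have hnot : ∀ t, ¬ Maj (ell N ^ E1) d N ((F t).coeff d) := by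
    rintro t ⟨q, hq1, hq2, b, hb⟩
    apply hmaj
    rw [hFc] at hb
    -- an integer multiple of the shift
    obtain ⟨k, hk⟩ : ∃ k : ℤ, (M : ℝ) * (if d = 1 then (t : ℝ) / M else 0) = k := by
      split_ifs
      · exact ⟨t, by push_cast; field_simp⟩
      · exact ⟨0, by simp⟩
    have key : |((q : ℝ) * M * h.leadingCoeff) * θ - ((M * b - q * k : ℤ) : ℝ)| ≤ ell N ^ (E1 + 1) / (N : ℝ) ^ d := by
      have e : ((q : ℝ) * M * h.leadingCoeff) * θ - ((M * b - q * k : ℤ) : ℝ) =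
          M * (q * (θ * (h.leadingCoeff : ℝ) + (if d = 1 then (t : ℝ) / M else 0)) - b) := by
        push_cast
        rw [← hk]
        ring
      rw [e, abs_mul, abs_of_pos hM0, pow_succ]
      have h5 : (M : ℝ) ≤ ell N := by
        refine le_trans ?_ b2
        exact le_mul_of_one_le_right hM0.le hlc1
      calc (M : ℝ) * |q * (θ * (h.leadingCoeff : ℝ) + (if d = 1 then (t : ℝ) / M else 0)) - b| ≤
          ell N * (ell N ^ E1 / (N : ℝ) ^ d) := by gcongr
        _ = _ := by ring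
    have hnat : ((h.leadingCoeff.natAbs : ℕ) : ℝ) = |(h.leadingCoeff : ℝ)| := by
      rw [Nat.cast_natAbs, Int.cast_abs]
    refine ⟨q * M * h.leadingCoeff.natAbs, ?_, ?_, ?_⟩
    · exact Nat.mul_pos (Nat.mul_pos hq1 hM) (Int.natAbs_pos.2 hlc0)
    · rw [Nat.cast_mul, Nat.cast_mul, hnat, pow_succ]
      calc (q : ℝ) * M * |(h.leadingCoeff : ℝ)| = q * (M * |(h.leadingCoeff : ℝ)|) := by ring
        _ ≤ ell N ^ E1 * ell N := by gcongr
    · rcases abs_cases (h.leadingCoeff : ℝ) with ⟨h5, _⟩ | ⟨h5, _⟩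
      · refine ⟨M * b - q * k, ?_⟩
        have e : (((q * M * h.leadingCoeff.natAbs : ℕ)) : ℝ) = (q : ℝ) * M * h.leadingCoeff := by
          rw [Nat.cast_mul, Nat.cast_mul, hnat, h5]
        rw [e]
        exact key
      · refine ⟨-(M * b - q * k), ?_⟩
        have e : (((q * M * h.leadingCoeff.natAbs : ℕ)) : ℝ) = -((q : ℝ) * M * h.leadingCoeff) := by
          rw [Nat.cast_mul, Nat.cast_mul, hnat, h5]; ring
        rw [e]
        have e2 : -((q : ℝ) * M * h.leadingCoeff) * θ - ((-(M * b - q * k) : ℤ) : ℝ) =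
            -(((q : ℝ) * M * h.leadingCoeff) * θ - ((M * b - q * k : ℤ) : ℝ)) := by
          rw [Int.cast_neg]; ring
        rw [e2, abs_neg]
        exact key
  have hsum : ∀ t, ‖∑ n ∈ Ioc N (2 * N), ((lp n : ℝ) : ℂ) * ee ((F t).eval (n : ℝ))‖ ≤ 2 * (N / ell N) := by
    intro t
    have h5 := h1 N (2 * N) a1 (by omega) le_rfl (F t) (hFd t) (hnot t)
    rw [pow_one] at h5
    have h6 := h2 N a2
    have e : ∑ n ∈ Ioc N (2 * N), ((lp n : ℝ) : ℂ) * ee ((F t).eval (n : ℝ)) =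
        ∑ n ∈ Ioc N (2 * N), ((ArithmeticFunction.vonMangoldt n : ℝ) : ℂ) * ee ((F t).eval (n : ℝ)) -
        ∑ n ∈ Ioc N (2 * N), ((ArithmeticFunction.vonMangoldt n - lp n : ℝ) : ℂ) * ee ((F t).eval (n : ℝ)) := by
      rw [← sum_sub_distrib]
      apply sum_congr rfl
      intro n _
      push_cast; ring
    rw [e]
    refine (norm_sub_le _ _).trans ?_
    have h7 : ‖∑ n ∈ Ioc N (2 * N), ((ArithmeticFunction.vonMangoldt n - lp n : ℝ) : ℂ) * ee ((F t).eval (n : ℝ))‖ ≤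
        N / ell N := by
      refine (norm_sum_le _ _).trans (le_trans (le_of_eq ?_) h6)
      apply sum_congr rfl
      intro n _
      rw [norm_mul, norm_ee, mul_one, Complex.norm_real, Real.norm_eq_abs]
    linarith
  have hSP : SP h M c N θ = 1 / M * ∑ t ∈ range M, ee (-(t * ((c : ℝ) / M))) *
      ∑ n ∈ Ioc N (2 * N), ((lp n : ℝ) : ℂ) * ee ((F t).eval (n : ℝ)) := by
    unfold SP
    rw [sum_filter]
    simp_rw [mul_sum]
    rw [sum_comm]
    apply sum_congr rfl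
    intro n _
    have h5 := detect_mod M hM n c
    have e1 : (if n ≡ c [MOD M] then ((lp n : ℝ) : ℂ) * ee (θ * ((h.eval (n : ℤ) : ℤ) : ℝ)) else 0) =
        (if n ≡ c [MOD M] then (1 : ℂ) else 0) * (((lp n : ℝ) : ℂ) * ee (θ * ((h.eval (n : ℤ) : ℤ) : ℝ))) := by
      split_ifs <;> simp
    rw [e1, h5, mul_sum, sum_mul]
    apply sum_congr rfl
    intro t _
    rw [hFe]
    have e2 : ee ((t : ℝ) * (((n : ℝ) - c) / M)) = ee (-(t * ((c : ℝ) / M))) * ee (t / M * n) := by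
      rw [← ee_add]; congr 1; field_simp; ring
    rw [e2, ee_add]
    ring
  rw [hSP, norm_mul]
  have hn1 : ‖(1 / (M : ℂ))‖ = 1 / M := by
    rw [norm_div, norm_one, Complex.norm_natCast]
  rw [hn1]
  have h8 : ‖∑ t ∈ range M, ee (-(t * ((c : ℝ) / M))) *
      ∑ n ∈ Ioc N (2 * N), ((lp n : ℝ) : ℂ) * ee ((F t).eval (n : ℝ))‖ ≤ M * (2 * (N / ell N)) := by
    refine (norm_sum_le _ _).trans ?_
    have h9 : ∀ t ∈ range M, ‖ee (-(t * ((c : ℝ) / M))) *
      ∑ n ∈ Ioc N (2 * N), ((lp n : ℝ) : ℂ) * ee ((F t).eval (n : ℝ))‖ ≤ 2 * (N / ell N) := by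
      intro t _
      rw [norm_mul, norm_ee, one_mul]
      exact hsum t
    refine (sum_le_card_nsmul _ _ _ h9).trans (le_of_eq ?_)
    rw [card_range, nsmul_eq_mul]
  calc 1 / (M : ℝ) * ‖_‖ ≤ 1 / (M : ℝ) * (M * (2 * (N / ell N))) := by gcongr
    _ = 2 * (N / ell N) := by field_simp

end Pool.Agent.Q51.MD
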