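import Pool.Agent.Q51.MD.DI

set_option autoImplicit false

/-!
# Sums over primes of polynomial phases: the dichotomy
-/

namespace Pool.Agent.Q51.MD

open Finset Filter Polynomial
open Pool.Agent.Helper602.MK (ee)
open Pool.Agent.Helper602.MK.N_J5b (ee_eq ee_add ee_zero ee_conj norm_ee ee_int ee_nat_mul ee_add_int ee_eq_one_iff)

theorem one_le_ell (N : ℕ) (hN : 1 ≤ N) : 1 ≤ ell N := by
  have hN0 : (1 : ℝ) ≤ N := by exact_mod_cast hN
  have := Real.log_nonneg (show (1 : ℝ) ≤ 4 * N by linarith)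
  unfold ell; linarith

theorem ell_mono {N N' : ℕ} (hN : 1 ≤ N) (h : N ≤ N') : ell N ≤ ell N' := by
  have hN0 : (1 : ℝ) ≤ N := by exact_mod_cast hN
  have h' : (N : ℝ) ≤ N' := by exact_mod_cast h
  have := Real.log_le_log (show (0 : ℝ) < 4 * N by linarith) (show (4 * (N : ℝ)) ≤ 4 * N' by linarith)
  unfold ell; linarith

theorem ell_succ (N : ℕ) (hN : 1 ≤ N) : ell (N + 1) ≤ ell N + 1 := by
  have hN0 : (1 : ℝ) ≤ N := by exact_mod_cast hN
  have h1 : Real.log (4 * ((N + 1 : ℕ) : ℝ)) ≤ Real.log (4 * N) + 1 := by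
    have h2 : Real.log (4 * ((N + 1 : ℕ) : ℝ)) ≤ Real.log (Real.exp 1 * (4 * N)) := by
      apply Real.log_le_log (by positivity)
      have := Real.add_one_le_exp (1 : ℝ)
      push_cast
      nlinarith
    rw [Real.log_mul (Real.exp_pos 1).ne' (by positivity), Real.log_exp] at h2
    linarith
  unfold ell; linarith

theorem exists_scale (E N₀ : ℕ) : ∃ Q₀ : ℕ, ∀ q : ℕ, Q₀ ≤ q → ∃ N : ℕ, N₀ ≤ N ∧ 1 ≤ N ∧
    ell N ^ E < q ∧ (q : ℝ) ≤ ell N ^ (E + 1) := by
  classical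
  obtain ⟨X1, hX1⟩ := ell_large (2 ^ E)
  set X : ℕ := max (max N₀ X1) 1 with hX
  have hXa : N₀ ≤ X := (le_max_left _ _).trans (le_max_left _ _)
  have hXb : X1 ≤ X := (le_max_right _ _).trans (le_max_left _ _)
  have hXc : 1 ≤ X := le_max_right _ _
  refine ⟨⌈ell X ^ (E + 1)⌉₊ + 1, fun q hq => ?_⟩
  have hqX : ell X ^ (E + 1) < q := by
    have h1 := Nat.le_ceil (ell X ^ (E + 1))
    have h2 : ((⌈ell X ^ (E + 1)⌉₊ + 1 : ℕ) : ℝ) ≤ q := by exact_mod_cast hq
    push_cast at h2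
    linarith
  have hex : ∃ N : ℕ, X ≤ N ∧ (q : ℝ) ≤ ell N ^ (E + 1) := by
    obtain ⟨N1, hN1⟩ := ell_large (q : ℝ)
    refine ⟨max N1 X, le_max_right _ _, ?_⟩
    have h1 := hN1 (max N1 X) (le_max_left _ _)
    have h2 := one_le_ell (max N1 X) (hXc.trans (le_max_right _ _))
    exact h1.trans (le_self_pow₀ h2 (by omega))
  obtain ⟨hXN, hqN⟩ := Nat.find_spec hex
  set N := Nat.find hex with hN
  have hne : N ≠ X := by
    intro h
    rw [h] at hqN
    linarith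
  obtain ⟨n, hn⟩ : ∃ n, N = n + 1 := ⟨N - 1, by omega⟩
  have hXn : X ≤ n := by omega
  have hmin := Nat.find_min hex (m := n) (by omega)
  push Not at hmin
  have h3 := hmin hXn
  have hy : 2 ^ E ≤ ell n := hX1 n (by omega)
  have hy1 : 1 ≤ ell n := one_le_ell n (by omega)
  have h4 := ell_succ n (by omega)
  refine ⟨N, by omega, by omega, ?_, hqN⟩
  rw [hn]
  calc ell (n + 1) ^ E ≤ (2 * ell n) ^ E := by
        apply pow_le_pow_left₀ _ _ E
        · have := one_le_ell (n + 1) (by omega)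
          linarith
        · linarith
    _ = 2 ^ E * ell n ^ E := mul_pow _ _ _
    _ ≤ ell n * ell n ^ E := by gcongr
    _ = ell n ^ (E + 1) := by rw [pow_succ]; ring
    _ < q := h3

theorem GS_le (h : ℤ[X]) (M c : ℕ) (b : ℤ) (q : ℕ) : ‖GS h M c b q‖ ≤ (q * M).totient := by
  unfold GS
  refine (norm_sum_le _ _).trans ?_
  simp_rw [norm_ee]
  rw [sum_const, nsmul_eq_mul, mul_one]
  have h1 : ((range (q * M)).filter (fun r => r ≡ c [MOD M] ∧ r.Coprime (q * M))).card ≤ (q * M).totient := by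
    rw [Nat.totient_eq_card_coprime]
    apply card_le_card
    intro r hr
    rw [mem_filter] at hr ⊢
    exact ⟨hr.1, hr.2.2.symm⟩
  exact_mod_cast h1

/-- complete sums are small -/
theorem gauss_small (h : ℤ[X]) (hd : 1 ≤ h.natDegree) (M : ℕ) (hM : 1 ≤ M) (c : ℕ) (ε : ℝ) (hε : 0 < ε) :
    ∃ Q₀ : ℕ, ∀ q : ℕ, Q₀ ≤ q → ∀ b : ℤ, IsCoprime b (q : ℤ) → ‖GS h M c b q‖ ≤ ε * (q * M).totient := by
  obtain ⟨E, N1, h1⟩ := minor h hd M hM c
  obtain ⟨N2, h2⟩ := major h M hM c (E + 1)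
  obtain ⟨N3, h3⟩ := ell_large (3 / ε)
  obtain ⟨N4, h4⟩ := ell_pow (2 * E + 1) (1 / 2) (by norm_num)
  obtain ⟨Q₀, hQ⟩ := exists_scale E (max (max N1 N2) (max N3 N4))
  refine ⟨max Q₀ 1, fun q hq b hb => ?_⟩
  have hq1 : 1 ≤ q := (le_max_right _ _).trans hq
  obtain ⟨x, hx, hx1, hx2, hx3⟩ := hQ q ((le_max_left _ _).trans hq)
  have a1 : N1 ≤ x := ((le_max_left _ _).trans (le_max_left _ _)).trans hx
  have a2 : N2 ≤ x := ((le_max_right _ _).trans (le_max_left _ _)).trans hx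
  have a3 : N3 ≤ x := ((le_max_left _ _).trans (le_max_right _ _)).trans hx
  have a4 : N4 ≤ x := ((le_max_right _ _).trans (le_max_right _ _)).trans hx
  have hx0 : (0 : ℝ) < x := by exact_mod_cast hx1
  have hxr : (1 : ℝ) ≤ x := by exact_mod_cast hx1
  have hell := one_le_ell x hx1
  have hell0 : 0 < ell x := by linarith
  have hq0 : (0 : ℝ) < q := by exact_mod_cast hq1
  have hnot : ¬ Maj (ell x ^ E) h.natDegree x ((b : ℝ) / q) := by
    rintro ⟨q1, hq11, hq12, b1, hb1⟩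
    have e : |(q1 : ℝ) * b - b1 * q| ≤ ell x ^ (2 * E + 1) / (x : ℝ) ^ h.natDegree := by
      have e1 : (q1 : ℝ) * b - b1 * q = q * (q1 * ((b : ℝ) / q) - b1) := by field_simp
      rw [e1, abs_mul, abs_of_pos hq0]
      calc (q : ℝ) * |q1 * ((b : ℝ) / q) - b1| ≤ ell x ^ (E + 1) * (ell x ^ E / (x : ℝ) ^ h.natDegree) := by
            gcongr
        _ = _ := by rw [mul_div_assoc', ← pow_add]; congr 2; ring
    have h5 := h4 x a4
    have h6 : (x : ℝ) ≤ (x : ℝ) ^ h.natDegree := le_self_pow₀ hxr (by omega)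
    have h7 : ell x ^ (2 * E + 1) / (x : ℝ) ^ h.natDegree < 1 := by
      rw [div_lt_one (by positivity)]
      linarith
    have h8 : |((q1 * b - b1 * q : ℤ) : ℝ)| < 1 := by
      push_cast
      linarith
    have h9 : (q1 : ℤ) * b - b1 * q = 0 := by
      have : |((q1 : ℤ) * b - b1 * q : ℤ)| < 1 := by exact_mod_cast h8
      rwa [Int.abs_lt_one_iff] at this
    have h10 : (q : ℤ) ∣ (q1 : ℤ) * b := ⟨b1, by linarith⟩
    have h11 : (q : ℤ) ∣ (q1 : ℤ) := hb.symm.dvd_of_dvd_mul_right h10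
    have h12 : q ≤ q1 := Nat.le_of_dvd hq11 (Int.natCast_dvd_natCast.1 h11)
    have h13 : (q : ℝ) ≤ q1 := by exact_mod_cast h12
    linarith
  have h5 := h1 x a1 _ hnot
  have h6 := h2 x a2 q hq1 hx3 b 0 (by rw [abs_zero]; positivity)
  rw [add_zero] at h6
  have h7 : II h x 0 = x := by
    unfold II
    simp_rw [zero_mul, ee_zero]
    rw [sum_const, Nat.card_Ioc, nsmul_eq_mul, mul_one]
    congr 1; omega
  rw [h7] at h6
  have hφ : (0 : ℝ) < (q * M).totient := by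
    exact_mod_cast Nat.totient_pos.2 (Nat.mul_pos hq1 hM)
  have h8 : ‖GS h M c b q / ((q * M).totient : ℂ) * x‖ ≤ 3 * (x / ell x) := by
    have e : GS h M c b q / ((q * M).totient : ℂ) * x = SP h M c x ((b : ℝ) / q) -
        (SP h M c x ((b : ℝ) / q) - GS h M c b q / ((q * M).totient : ℂ) * x) := by ring
    rw [e]
    refine (norm_sub_le _ _).trans ?_
    linarith
  rw [norm_mul, norm_div, Complex.norm_natCast, Complex.norm_natCast] at h8
  have h9 : ‖GS h M c b q‖ / (q * M).totient ≤ 3 / ell x := by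
    have e : 3 * ((x : ℝ) / ell x) = 3 / ell x * x := by ring
    rw [e] at h8
    exact le_of_mul_le_mul_right h8 hx0
  have h10 : 3 / ell x ≤ ε := by
    have := h3 x a3
    rw [div_le_iff₀ hε] at this
    rw [div_le_iff₀ hell0]
    linarith
  rw [div_le_iff₀ hφ] at h9
  exact h9.trans (mul_le_mul_of_nonneg_right h10 hφ.le)

/-- smooth sums are small unless the frequency is tiny -/
theorem smooth_small (h : ℤ[X]) (hd : 1 ≤ h.natDegree) (δ : ℝ) (hδ : 0 < δ) (B : ℕ) :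
    ∃ (K : ℝ) (N₀ : ℕ), 0 ≤ K ∧ ∀ N : ℕ, N₀ ≤ N → ∀ β : ℝ, |β| ≤ ell N ^ B / (N : ℝ) ^ h.natDegree →
      δ * N < ‖II h N β‖ → |β| ≤ K / (N : ℝ) ^ h.natDegree := by
  obtain ⟨c, μ, hc, hW⟩ := weyl_inv h.natDegree hd
  have hlc0 : h.leadingCoeff ≠ 0 := by
    rw [Ne, leadingCoeff_eq_zero]
    intro h0
    rw [h0] at hd
    simp at hd
  have hlc1 : (1 : ℝ) ≤ |(h.leadingCoeff : ℝ)| := by
    have := Int.one_le_abs hlc0
    exact_mod_cast this
  set u : ℝ := max (1 / δ) 1 with hu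
  have hu1 : 1 ≤ u := le_max_right _ _
  have hu0 : 0 < u := by linarith
  have huδ : 1 ≤ u * δ := by
    have : 1 / δ ≤ u := le_max_left _ _
    rwa [div_le_iff₀ hδ] at this
  set K : ℝ := c * u ^ μ with hK
  have hK0 : 0 ≤ K := by positivity
  obtain ⟨N1, h1⟩ := ell_pow B (1 / (4 * (K * |(h.leadingCoeff : ℝ)| + 1))) (by positivity)
  refine ⟨K, max (max N1 1) (⌈4 * K⌉₊), hK0, ?_⟩
  intro N hN β hβ hI
  have a1 : N1 ≤ N := ((le_max_left _ _).trans (le_max_left _ _)).trans hN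
  have a2 : 1 ≤ N := ((le_max_right _ _).trans (le_max_left _ _)).trans hN
  have a3 : 4 * K ≤ N := (Nat.le_ceil _).trans (by exact_mod_cast (le_max_right _ _).trans hN)
  have hN0 : (0 : ℝ) < N := by exact_mod_cast a2
  have hNr : (1 : ℝ) ≤ N := by exact_mod_cast a2
  have hNd : (N : ℝ) ≤ (N : ℝ) ^ h.natDegree := le_self_pow₀ hNr (by omega)
  set G : ℝ[X] := C β * h.map (Int.castRingHom ℝ) with hG
  have hGd : G.natDegree ≤ h.natDegree := (natDegree_C_mul_le _ _).trans natDegree_map_le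
  have hGe : ∀ n : ℕ, G.eval (n : ℝ) = β * ((h.eval (n : ℤ) : ℤ) : ℝ) := by
    intro n
    simp [hG]
  have hGc : G.coeff h.natDegree = β * (h.leadingCoeff : ℝ) := by
    simp [hG]
  obtain ⟨q, hq1, hq2, z, hz⟩ := hW N (2 * N) (N : ℝ) u G hN0 (by
      have : 2 * N - N = N := by omega
      rw [this]) hu1 hGd (by
      simp_rw [hGe]
      have h2 : (N : ℝ) ≤ u * (δ * N) := by nlinarith
      refine h2.trans ?_
      exact mul_le_mul_of_nonneg_left hI.le hu0.le)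
  rw [hGc, ← hK] at hz
  rw [← hK] at hq2
  have hq0 : (1 : ℝ) ≤ q := by exact_mod_cast hq1
  have h2 : |(q : ℝ) * (β * (h.leadingCoeff : ℝ))| ≤ 1 / 4 := by
    rw [abs_mul, abs_mul, abs_of_pos (by linarith : (0 : ℝ) < q)]
    have h3 : |β| ≤ ell N ^ B / N := by
      refine hβ.trans ?_
      have : 0 ≤ ell N ^ B := by have := one_le_ell N a2; positivity
      gcongr
    have h4 := h1 N a1
    have h5 : ell N ^ B / N ≤ 1 / (4 * (K * |(h.leadingCoeff : ℝ)| + 1)) := by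
      rw [div_le_iff₀ hN0]; exact h4
    calc (q : ℝ) * (|β| * |(h.leadingCoeff : ℝ)|) ≤
        K * ((1 / (4 * (K * |(h.leadingCoeff : ℝ)| + 1))) * |(h.leadingCoeff : ℝ)|) := by
          have := h3.trans h5
          gcongr
      _ = (K * |(h.leadingCoeff : ℝ)|) / (4 * (K * |(h.leadingCoeff : ℝ)| + 1)) := by ring
      _ ≤ 1 / 4 := by
          rw [div_le_div_iff₀ (by positivity) (by norm_num)]
          nlinarith
  have h3 : K / (N : ℝ) ^ h.natDegree ≤ 1 / 4 := by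
    rw [div_le_div_iff₀ (by positivity) (by norm_num)]
    linarith
  have hz0 : z = 0 := by
    have h4 : |(z : ℝ)| < 1 := by
      have := abs_sub_abs_le_abs_sub (z : ℝ) ((q : ℝ) * (β * (h.leadingCoeff : ℝ)))
      rw [abs_sub_comm] at this
      linarith
    have h5 : |z| < 1 := by exact_mod_cast h4
    rwa [Int.abs_lt_one_iff] at h5
  rw [hz0, Int.cast_zero, sub_zero, abs_mul, abs_mul, abs_of_pos (by linarith : (0 : ℝ) < q)] at hz
  refine le_trans ?_ hz
  have h4 := abs_nonneg β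
  calc |β| = 1 * (|β| * 1) := by ring
    _ ≤ q * (|β| * |(h.leadingCoeff : ℝ)|) := by gcongr

theorem II_le (h : ℤ[X]) (N : ℕ) (β : ℝ) : ‖II h N β‖ ≤ N := by
  unfold II
  refine (norm_sum_le _ _).trans ?_
  simp_rw [norm_ee]
  rw [sum_const, Nat.card_Ioc, nsmul_eq_mul, mul_one]
  have : 2 * N - N = N := by omega
  rw [this]

/-- either the sum over primes is small or the frequency is very close to a rational with a bounded
denominator -/
theorem dichotomy (h : ℤ[X]) (hd : 1 ≤ h.natDegree) (M : ℕ) (hM : 1 ≤ M) (c : ℕ) (ε : ℝ) (hε : 0 < ε) :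
    ∃ (Q₀ : ℕ) (K : ℝ) (N₀ : ℕ), 0 ≤ K ∧ ∀ N : ℕ, N₀ ≤ N → ∀ θ : ℝ, ‖SP h M c N θ‖ ≤ ε * N ∨
      ∃ q : ℕ, 1 ≤ q ∧ q ≤ Q₀ ∧ ∃ b : ℤ, |q * θ - b| ≤ K / (N : ℝ) ^ h.natDegree := by
  obtain ⟨E, N1, h1⟩ := minor h hd M hM c
  obtain ⟨N2, h2⟩ := major h M hM c E
  obtain ⟨Q₀, h3⟩ := gauss_small h hd M hM c (ε / 4) (by positivity)
  obtain ⟨K, N3, hK, h4⟩ := smooth_small h hd (ε / 4) (by positivity) E
  obtain ⟨N4, h5⟩ := ell_large (4 / ε)
  refine ⟨Q₀, Q₀ * K, max (max N1 N2) (max (max N3 N4) 1), by positivity, ?_⟩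
  intro N hN θ
  have a1 : N1 ≤ N := ((le_max_left _ _).trans (le_max_left _ _)).trans hN
  have a2 : N2 ≤ N := ((le_max_right _ _).trans (le_max_left _ _)).trans hN
  have a3 : N3 ≤ N := (((le_max_left _ _).trans (le_max_left _ _)).trans (le_max_right _ _)).trans hN
  have a4 : N4 ≤ N := (((le_max_right _ _).trans (le_max_left _ _)).trans (le_max_right _ _)).trans hN
  have a5 : 1 ≤ N := ((le_max_right _ _).trans (le_max_right _ _)).trans hN
  have hN0 : (0 : ℝ) < N := by exact_mod_cast a5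
  have hell := one_le_ell N a5
  have hell0 : 0 < ell N := by linarith
  have h6 : 1 / ell N ≤ ε / 4 := by
    have := h5 N a4
    rw [div_le_iff₀ hε] at this
    rw [div_le_iff₀ hell0]
    linarith
  have h7 : N / ell N ≤ ε / 4 * N := by
    rw [div_eq_mul_one_div, mul_comm]
    gcongr
  by_cases hmaj : Maj (ell N ^ E) h.natDegree N θ
  swap
  · left
    have := h1 N a1 θ hmaj
    nlinarith
  by_contra hcon
  rw [not_or] at hcon
  obtain ⟨hc1, hc2⟩ := hcon
  push Not at hc1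
  obtain ⟨q, hq1, hq2, b, hb⟩ := hmaj
  -- lowest terms
  set g : ℕ := Int.gcd b q with hg
  have hg0 : 0 < g := Int.gcd_pos_of_ne_zero_right _ (by omega)
  obtain ⟨b1, hb1⟩ : (g : ℤ) ∣ b := Int.gcd_dvd_left _ _
  obtain ⟨q1', hq1'⟩ : (g : ℤ) ∣ (q : ℤ) := Int.gcd_dvd_right _ _
  have hq1pos : 0 < q1' := by
    have h8 : (0 : ℤ) < q := by omega
    rw [hq1'] at h8
    exact pos_of_mul_pos_right h8 (by omega)
  obtain ⟨q1, rfl⟩ : ∃ n : ℕ, q1' = n := ⟨q1'.toNat, by omega⟩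
  have hqq : q = g * q1 := by exact_mod_cast hq1'
  have hcop : IsCoprime b1 (q1 : ℤ) := by
    rw [Int.isCoprime_iff_gcd_eq_one]
    have h8 := Int.gcd_mul_left (g : ℤ) b1 q1
    rw [← hb1, ← hq1', Int.natAbs_natCast] at h8
    have h9 : g * 1 = g * Int.gcd b1 q1 := by rw [mul_one]; exact h8
    exact (Nat.eq_of_mul_eq_mul_left hg0 h9).symm
  have hgr : (1 : ℝ) ≤ g := by exact_mod_cast hg0
  have hq1r : (1 : ℝ) ≤ q1 := by exact_mod_cast hq1pos
  have hb2 : |q1 * θ - b1| ≤ ell N ^ E / (N : ℝ) ^ h.natDegree := by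
    refine le_trans ?_ hb
    have e : (q : ℝ) * θ - b = g * (q1 * θ - b1) := by
      rw [hqq, hb1]; push_cast; ring
    rw [e, abs_mul, abs_of_pos (by linarith : (0 : ℝ) < g)]
    exact le_mul_of_one_le_left (abs_nonneg _) hgr
  set β : ℝ := θ - b1 / q1 with hβ
  have hβe : |q1 * θ - b1| = q1 * |β| := by
    have e : (q1 : ℝ) * θ - b1 = q1 * β := by rw [hβ]; field_simp
    rw [e, abs_mul, abs_of_pos (by linarith : (0 : ℝ) < q1)]
  have hβ1 : |β| ≤ ell N ^ E / (N : ℝ) ^ h.natDegree := by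
    refine le_trans ?_ hb2
    rw [hβe]
    exact le_mul_of_one_le_left (abs_nonneg _) hq1r
  have hq1le : (q1 : ℝ) ≤ ell N ^ E := by
    refine le_trans ?_ hq2
    rw [hqq]; push_cast
    exact le_mul_of_one_le_left (by linarith) hgr
  have h8 := h2 N a2 q1 (by omega) hq1le b1 β hβ1
  have e8 : (b1 : ℝ) / q1 + β = θ := by rw [hβ]; ring
  rw [e8] at h8
  have hφ : (0 : ℝ) < (q1 * M).totient := by
    exact_mod_cast Nat.totient_pos.2 (Nat.mul_pos (by omega) hM)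
  have h9 : ε / 2 * N < ‖GS h M c b1 q1‖ / (q1 * M).totient * ‖II h N β‖ := by
    have e : ‖GS h M c b1 q1‖ / (q1 * M).totient * ‖II h N β‖ =
        ‖GS h M c b1 q1 / ((q1 * M).totient : ℂ) * II h N β‖ := by
      rw [norm_mul, norm_div, Complex.norm_natCast]
    rw [e]
    have h10 : ‖SP h M c N θ‖ ≤ ‖SP h M c N θ - GS h M c b1 q1 / ((q1 * M).totient : ℂ) * II h N β‖ +
        ‖GS h M c b1 q1 / ((q1 * M).totient : ℂ) * II h N β‖ := by
      have := norm_add_le (SP h M c N θ - GS h M c b1 q1 / ((q1 * M).totient : ℂ) * II h N β)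
        (GS h M c b1 q1 / ((q1 * M).totient : ℂ) * II h N β)
      rwa [sub_add_cancel] at this
    nlinarith
  have hG1 : ‖GS h M c b1 q1‖ / (q1 * M).totient ≤ 1 := by
    rw [div_le_one hφ]; exact GS_le h M c b1 q1
  have hI1 := II_le h N β
  have hI0 := norm_nonneg (II h N β)
  have hG0 : 0 ≤ ‖GS h M c b1 q1‖ / (q1 * M).totient := by positivity
  have hqQ : q1 ≤ Q₀ := by
    by_contra hcon
    push Not at hcon
    have h10 := h3 q1 hcon.le b1 hcop
    have h11 : ‖GS h M c b1 q1‖ / (q1 * M).totient ≤ ε / 4 := by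
      rw [div_le_iff₀ hφ]; exact h10
    have h12 : ‖GS h M c b1 q1‖ / (q1 * M).totient * ‖II h N β‖ ≤ ε / 4 * N := by gcongr
    nlinarith
  have hβK : |β| ≤ K / (N : ℝ) ^ h.natDegree := by
    apply h4 N a3 β hβ1
    by_contra hcon
    push Not at hcon
    have h12 : ‖GS h M c b1 q1‖ / (q1 * M).totient * ‖II h N β‖ ≤ 1 * (ε / 4 * N) := by gcongr
    nlinarith
  apply hc2
  refine ⟨q1, by omega, hqQ, b1, ?_⟩
  rw [hβe]
  have hqQr : (q1 : ℝ) ≤ Q₀ := by exact_mod_cast hqQ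
  calc (q1 : ℝ) * |β| ≤ Q₀ * (K / (N : ℝ) ^ h.natDegree) := by gcongr
    _ = _ := by ring

end Pool.Agent.Q51.MD
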