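import Pool.Agent.Q51.MD.Core

set_option autoImplicit false

/-!
# From a flow to a periodic set
-/

namespace Pool.Agent.Q51.MD

open MeasureTheory Filter Topology Finset

variable {Ω : Type} {m0 : MeasurableSpace Ω} {μ : Measure Ω} {σ : ℤ → Ω → Ω}
  [IsProbabilityMeasure μ]

theorem extract (h : Flow μ σ) {E : Set Ω} (hE : MeasurableSet E) {X : Set ℤ}
    (hX : ∀ x ∈ X, x ≠ 0 → μ (E ∩ (σ x) ⁻¹' E) = 0) {R : ℕ → Set ℤ}
    (hR : ∀ M, 1 ≤ M → ∀ r ∈ R M, Erg X M r)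
    (hlift : ∀ m M, 1 ≤ m → 1 ≤ M → m ∣ M → ∀ r ∈ R m, ∃ r' ∈ R M, r' ≡ r [ZMOD m])
    (hfin : ∀ m, 1 ≤ m → ∃ B : ℕ, ∀ x ∈ X, x ≠ 0 → (∀ r ∈ R m, ¬ x ≡ r [ZMOD m]) → x.natAbs ≤ B)
    {ε : ℝ} (hε : 0 < ε) :
    ∃ L : ℕ, 1 ≤ L ∧ ∃ W : Finset (ZMod L), (∀ x ∈ X, x ≠ 0 → ∀ a ∈ W, ∀ b ∈ W, a - b ≠ (x : ZMod L)) ∧
      (μ.real E - ε) * L ≤ W.card := by
  obtain ⟨m, hm, S, hSJ, hES, hSR⟩ := exists_S h hE hX hR hlift (half_pos hε)
  have hSm : MeasurableSet S := J_le _ _ hSJ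
  obtain ⟨B, hB⟩ := hfin m hm
  -- the length
  obtain ⟨K, hK⟩ := exists_nat_ge (max 1 ((B : ℝ) / (ε / 2)))
  have hK1 : 1 ≤ K := by
    have := (le_max_left _ _).trans hK
    exact_mod_cast this
  have hKB : (B : ℝ) ≤ ε / 2 * K := by
    have := (le_max_right _ _).trans hK
    rw [div_le_iff₀ (by positivity)] at this
    linarith
  set L := m * (K + B) with hL
  have hL1 : 1 ≤ L := Nat.mul_pos (by omega) (by omega)
  have hBL : B ≤ L := by
    calc B ≤ 1 * (K + B) := by omega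
      _ ≤ m * (K + B) := Nat.mul_le_mul_right _ hm
  have hBL' : (B : ℝ) ≤ ε / 2 * L := by
    have h1 : (K : ℝ) ≤ L := by
      have : K ≤ L := by
        calc K ≤ 1 * (K + B) := by omega
          _ ≤ m * (K + B) := Nat.mul_le_mul_right _ hm
      exact_mod_cast this
    calc (B : ℝ) ≤ ε / 2 * K := hKB
      _ ≤ ε / 2 * L := mul_le_mul_of_nonneg_left h1 (by positivity)
  have : NeZero L := ⟨by omega⟩
  -- the set `E₁`
  set E₁ : Set Ω := E ∩ S with hE₁
  have hE₁m : MeasurableSet E₁ := hE.inter hSm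
  have hμE₁ : μ.real E - ε / 2 ≤ μ.real E₁ := by
    have h1 : μ.real E ≤ μ.real E₁ + μ.real (E \ S) := by
      calc μ.real E = μ.real ((E ∩ S) ∪ (E \ S)) := by rw [Set.inter_union_sdiff]
        _ ≤ μ.real (E ∩ S) + μ.real (E \ S) := measureReal_union_le _ _
    linarith
  -- null sets
  have hN1 : ∀ᵐ ω ∂μ, ∀ i t : ℤ, (σ (i + m * t) ω ∈ S ↔ σ i ω ∈ S) := by
    rw [ae_all_iff]; intro i
    rw [ae_all_iff]; intro t
    have h1 := h.ae i (J_mul h hSJ t).mem_iff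
    filter_upwards [h1] with ω hω
    rw [add_comm, h.add]
    exact hω
  have hN2 : ∀ᵐ ω ∂μ, ∀ i r : ℤ, r ∈ R m → ¬ (σ i ω ∈ S ∧ σ (r + i) ω ∈ S) := by
    rw [ae_all_iff]; intro i
    rw [ae_all_iff]; intro r
    by_cases hr : r ∈ R m
    · have h1 := h.ae i (measure_eq_zero_iff_ae_notMem.1 (hSR r hr))
      filter_upwards [h1] with ω hω
      intro _ h2
      rw [h.add] at h2
      exact hω h2
    · exact Eventually.of_forall fun ω h2 => absurd h2 hr
  have hN3 : ∀ᵐ ω ∂μ, ∀ i x : ℤ, x ∈ X → x ≠ 0 → ¬ (σ i ω ∈ E ∧ σ (x + i) ω ∈ E) := by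
    rw [ae_all_iff]; intro i
    rw [ae_all_iff]; intro x
    by_cases hx : x ∈ X
    · by_cases hx0 : x = 0
      · exact Eventually.of_forall fun ω _ h2 => absurd hx0 h2
      · have h1 := h.ae i (measure_eq_zero_iff_ae_notMem.1 (hX x hx hx0))
        filter_upwards [h1] with ω hω
        intro _ _ h2
        rw [h.add] at h2
        exact hω h2
    · exact Eventually.of_forall fun ω h2 => absurd h2 hx
  have hN : ∀ᵐ ω ∂μ, (∀ i t : ℤ, (σ (i + m * t) ω ∈ S ↔ σ i ω ∈ S)) ∧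
      (∀ i r : ℤ, r ∈ R m → ¬ (σ i ω ∈ S ∧ σ (r + i) ω ∈ S)) ∧
      (∀ i x : ℤ, x ∈ X → x ≠ 0 → ¬ (σ i ω ∈ E ∧ σ (x + i) ω ∈ E)) := by
    filter_upwards [hN1, hN2, hN3] with ω h1 h2 h3
    exact ⟨h1, h2, h3⟩
  -- the counting function
  classical
  set c : Ω → ℝ := fun ω => ∑ i ∈ range (L - B), E₁.indicator (fun _ => (1 : ℝ)) (σ (i : ℤ) ω) with hc
  have hind : Integrable (E₁.indicator (fun _ => (1 : ℝ))) μ := (integrable_const _).indicator hE₁m
  have hci : Integrable c μ := by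
    rw [hc]
    exact integrable_finsetSum _ fun i _ => h.integrable i hind
  have hcint : ∫ ω, c ω ∂μ = (L - B : ℕ) * μ.real E₁ := by
    show ∫ ω, ∑ i ∈ range (L - B), E₁.indicator (fun _ => (1 : ℝ)) (σ (i : ℤ) ω) ∂μ = _
    have h0 := integral_finsetSum (μ := μ) (range (L - B))
      (f := fun (i : ℕ) ω => E₁.indicator (fun _ => (1 : ℝ)) (σ (i : ℤ) ω))
      (fun i _ => h.integrable (i : ℤ) hind)
    rw [h0]
    have h1 : ∀ i ∈ range (L - B), ∫ ω, E₁.indicator (fun _ => (1 : ℝ)) (σ (i : ℤ) ω) ∂μ = μ.real E₁ := by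
      intro i _
      rw [h.int i (E₁.indicator (fun _ => (1 : ℝ))), integral_indicator_const (1 : ℝ) hE₁m,
        smul_eq_mul, mul_one]
    rw [Finset.sum_congr rfl h1]
    simp
  obtain ⟨ω, hω, hωc⟩ := exists_notMem_null_integral_le hci (ae_iff.1 hN)
  simp only [Set.mem_ofPred_eq, not_not] at hω
  obtain ⟨g1, g2, g3⟩ := hω
  -- the set
  set I : Finset ℕ := (range (L - B)).filter (fun i => σ (i : ℤ) ω ∈ E₁) with hI
  have hcI : c ω = I.card := by
    rw [hc, hI, Finset.card_filter]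
    push_cast
    apply Finset.sum_congr rfl
    intro i _
    rw [Set.indicator_apply]
  refine ⟨L, hL1, I.image (fun i : ℕ => (i : ZMod L)), ?_, ?_⟩
  · intro x hx hx0 a ha b hb hab
    rw [Finset.mem_image] at ha hb
    obtain ⟨i, hi, rfl⟩ := ha
    obtain ⟨j, hj, rfl⟩ := hb
    rw [hI, Finset.mem_filter, Finset.mem_range] at hi hj
    have h1 : (L : ℤ) ∣ (i : ℤ) - j - x := by
      rw [← ZMod.intCast_zmod_eq_zero_iff_dvd]
      push_cast
      rw [hab, sub_self]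
    by_cases hxr : ∃ r ∈ R m, x ≡ r [ZMOD m]
    · obtain ⟨r, hr, hxr⟩ := hxr
      have h2 : (m : ℤ) ∣ (i : ℤ) - (r + j) := by
        have h3 : (m : ℤ) ∣ (i : ℤ) - j - x := by
          refine dvd_trans ?_ h1
          rw [hL]; push_cast
          exact Dvd.intro _ rfl
        have h4 : (m : ℤ) ∣ x - r := hxr.symm.dvd
        have h5 := dvd_add h3 h4
        have h6 : (i : ℤ) - j - x + (x - r) = i - (r + j) := by ring
        rwa [h6] at h5
      obtain ⟨t, ht⟩ := h2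
      have h3 := g1 (r + j) t
      have h4 : r + (j : ℤ) + m * t = i := by linarith
      rw [h4] at h3
      exact g2 j r hr ⟨hj.2.2, h3.1 hi.2.2⟩
    · have h2 : x.natAbs ≤ B := hB x hx hx0 (fun r hr hxr' => hxr ⟨r, hr, hxr'⟩)
      have h3 : (i : ℤ) - j - x = 0 := by
        apply Int.eq_zero_of_abs_lt_dvd h1
        rw [abs_lt]
        have hi1 := hi.1
        have hj1 := hj.1
        omega
      have h4 : (i : ℤ) = x + j := by linarith
      exact g3 j x hx hx0 ⟨hj.2.1, by rw [← h4]; exact hi.2.1⟩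
  · rw [Finset.card_image_of_injOn]
    · have h1 : ((L - B : ℕ) : ℝ) * μ.real E₁ ≤ I.card := by
        rw [← hcI, ← hcint]; exact hωc
      have h2 : μ.real E₁ ≤ 1 := measureReal_le_one
      have h3 : 0 ≤ μ.real E₁ := measureReal_nonneg
      rw [Nat.cast_sub hBL] at h1
      have hL0 : (0 : ℝ) < L := by exact_mod_cast (show 0 < L by omega)
      calc (μ.real E - ε) * L = (μ.real E - ε / 2) * L - ε / 2 * L := by ring
        _ ≤ μ.real E₁ * L - B := by
            have := mul_le_mul_of_nonneg_right hμE₁ hL0.le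
            linarith
        _ ≤ ((L : ℝ) - B) * μ.real E₁ := by
            have : (B : ℝ) * μ.real E₁ ≤ B * 1 := mul_le_mul_of_nonneg_left h2 (by positivity)
            linarith
        _ ≤ I.card := h1
    · intro i hi j hj hij
      have hi' := (Finset.mem_filter.1 (Finset.mem_coe.1 hi)).1
      have hj' := (Finset.mem_filter.1 (Finset.mem_coe.1 hj)).1
      rw [Finset.mem_range] at hi' hj'
      have h1 := (ZMod.natCast_eq_natCast_iff' i j L).1 hij
      rw [Nat.mod_eq_of_lt (by omega), Nat.mod_eq_of_lt (by omega)] at h1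
      exact h1

end Pool.Agent.Q51.MD
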