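import Pool.Agent.Q51.MD.SWint

set_option autoImplicit false

/-!
# Sums over primes of polynomial phases: major arcs
-/

namespace Pool.Agent.Q51.MD

open Finset Filter Polynomial
open Pool.Agent.Helper602.MK (ee)
open Pool.Agent.Helper602.MK.N_J5b (ee_eq ee_add ee_zero ee_conj norm_ee ee_int ee_nat_mul ee_add_int)

/-- sums over primes in a residue class -/
noncomputable def SP (h : ℤ[X]) (M c N : ℕ) (θ : ℝ) : ℂ :=
  ∑ n ∈ (Ioc N (2 * N)).filter (fun n => n ≡ c [MOD M]), ((lp n : ℝ) : ℂ) * ee (θ * ((h.eval (n : ℤ) : ℤ) : ℝ))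

/-- complete sums over reduced residues -/
noncomputable def GS (h : ℤ[X]) (M c : ℕ) (b : ℤ) (q : ℕ) : ℂ :=
  ∑ r ∈ (range (q * M)).filter (fun r => r ≡ c [MOD M] ∧ r.Coprime (q * M)),
    ee ((b : ℝ) / q * ((h.eval (r : ℤ) : ℤ) : ℝ))

/-- smooth sums -/
noncomputable def II (h : ℤ[X]) (N : ℕ) (β : ℝ) : ℂ :=
  ∑ n ∈ Ioc N (2 * N), ee (β * ((h.eval (n : ℤ) : ℤ) : ℝ))

theorem ee_sub_le (x y : ℝ) : ‖ee x - ee y‖ ≤ 7 * |x - y| := by
  have h1 : ee x - ee y = ee y * (ee (x - y) - 1) := by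
    rw [mul_sub, ← ee_add, mul_one]; congr 2; ring
  rw [h1, norm_mul, norm_ee, one_mul, ee_eq]
  have h2 := Real.norm_exp_I_mul_ofReal_sub_one_le (x := 2 * Real.pi * (x - y))
  rw [mul_comm Complex.I] at h2
  refine h2.trans ?_
  rw [Real.norm_eq_abs, abs_mul, abs_of_pos Real.two_pi_pos]
  have := Real.pi_lt_d2
  have h3 := abs_nonneg (x - y)
  nlinarith

theorem pow_diff (i : ℕ) (x : ℝ) (hx : 0 ≤ x) : (x + 1) ^ (i + 1) - x ^ (i + 1) ≤ (i + 1) * (x + 1) ^ i := by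
  induction i with
  | zero => simp
  | succ i ih =>
    have h1 : (x + 1) ^ (i + 1 + 1) - x ^ (i + 1 + 1) =
        ((x + 1) ^ (i + 1) - x ^ (i + 1)) * x + (x + 1) ^ (i + 1) := by ring
    rw [h1]
    have h2 : ((x + 1) ^ (i + 1) - x ^ (i + 1)) * x ≤ ((i + 1) * (x + 1) ^ i) * x :=
      mul_le_mul_of_nonneg_right ih hx
    have h3 : ((i + 1 : ℝ) * (x + 1) ^ i) * x ≤ (i + 1) * (x + 1) ^ (i + 1) := by
      rw [pow_succ, mul_assoc]
      have : (0 : ℝ) ≤ (x + 1) ^ i := by positivity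
      have h4 : (x + 1) ^ i * x ≤ (x + 1) ^ i * (x + 1) := by nlinarith
      have h5 : (0 : ℝ) ≤ (i : ℝ) + 1 := by positivity
      nlinarith
    push_cast
    linarith

/-- the increments of a polynomial -/
theorem incr (h : ℤ[X]) : ∃ C : ℝ, 0 ≤ C ∧ ∀ N n : ℕ, 1 ≤ N → n + 1 ≤ 2 * N →
    |((h.eval ((n + 1 : ℕ) : ℤ) : ℤ) : ℝ) - ((h.eval (n : ℤ) : ℤ) : ℝ)| * N ≤ C * (N : ℝ) ^ h.natDegree := by
  set d := h.natDegree with hd
  refine ⟨∑ i ∈ range (d + 1), |(h.coeff i : ℝ)| * (i * 2 ^ i), by positivity, ?_⟩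
  intro N n hN hn
  have hN1 : (1 : ℝ) ≤ N := by exact_mod_cast hN
  have e1 : ∀ m : ℕ, ((h.eval (m : ℤ) : ℤ) : ℝ) = ∑ i ∈ range (d + 1), (h.coeff i : ℝ) * (m : ℝ) ^ i := by
    intro m
    rw [eval_eq_sum_range]
    push_cast
    rfl
  rw [e1, e1, ← sum_sub_distrib]
  have h1 : |∑ i ∈ range (d + 1), ((h.coeff i : ℝ) * ((n + 1 : ℕ) : ℝ) ^ i - (h.coeff i : ℝ) * (n : ℝ) ^ i)| * N ≤
      (∑ i ∈ range (d + 1), |(h.coeff i : ℝ) * ((n + 1 : ℕ) : ℝ) ^ i - (h.coeff i : ℝ) * (n : ℝ) ^ i|) * N :=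
    mul_le_mul_of_nonneg_right (abs_sum_le_sum_abs _ _) (by positivity)
  refine h1.trans ?_
  rw [sum_mul, sum_mul]
  apply sum_le_sum
  intro i hi
  rw [mem_range] at hi
  rw [← mul_sub, abs_mul, mul_assoc, mul_assoc]
  apply mul_le_mul_of_nonneg_left _ (abs_nonneg _)
  rcases i with _ | i
  · simp
  · have hn' : (n : ℝ) + 1 ≤ 2 * N := by exact_mod_cast hn
    have h2 := pow_diff i (n : ℝ) (by positivity)
    have h3 : (0 : ℝ) ≤ ((n : ℝ) + 1) ^ (i + 1) - (n : ℝ) ^ (i + 1) := by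
      have : (n : ℝ) ^ (i + 1) ≤ ((n : ℝ) + 1) ^ (i + 1) := pow_le_pow_left₀ (by positivity) (by linarith) _
      linarith
    push_cast
    rw [abs_of_nonneg h3]
    have h4 : ((n : ℝ) + 1) ^ i ≤ (2 * N) ^ i := pow_le_pow_left₀ (by positivity) hn' i
    calc (((n : ℝ) + 1) ^ (i + 1) - (n : ℝ) ^ (i + 1)) * N ≤ ((i + 1) * ((n : ℝ) + 1) ^ i) * N := by gcongr
      _ ≤ ((i + 1) * (2 * N) ^ i) * N := by gcongr
      _ = ((i + 1) * 2 ^ i) * (N : ℝ) ^ (i + 1) := by rw [mul_pow]; ring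
      _ ≤ ((i + 1) * 2 ^ (i + 1)) * (N : ℝ) ^ d := by
          have h5 : (N : ℝ) ^ (i + 1) ≤ (N : ℝ) ^ d := pow_le_pow_right₀ hN1 (by omega)
          have h6 : (2 : ℝ) ^ i ≤ 2 ^ (i + 1) := pow_le_pow_right₀ (by norm_num) (by omega)
          gcongr

/-- major arcs -/
theorem major (h : ℤ[X]) (M : ℕ) (hM : 1 ≤ M) (c B : ℕ) : ∃ N₀ : ℕ, ∀ N : ℕ, N₀ ≤ N →
    ∀ q : ℕ, 1 ≤ q → (q : ℝ) ≤ ell N ^ B → ∀ b : ℤ, ∀ β : ℝ, |β| ≤ ell N ^ B / (N : ℝ) ^ h.natDegree →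
    ‖SP h M c N ((b : ℝ) / q + β) - GS h M c b q / ((q * M).totient : ℂ) * II h N β‖ ≤ N / ell N := by
  obtain ⟨C, hC, hinc⟩ := incr h
  obtain ⟨N1, hN1⟩ := sw_int (2 * B + 4) (B + 1)
  obtain ⟨N2, hN2⟩ := ell_large (max (max M 2) (7 * C + 1))
  obtain ⟨N3, hN3⟩ := ell_pow (B + 1) (1 / 2) (by norm_num)
  refine ⟨max (max N1 N2) (max N3 1), ?_⟩
  intro N hN q hq hqB b β hβ
  have a1 : N1 ≤ N := ((le_max_left _ _).trans (le_max_left _ _)).trans hN
  have a2 : N2 ≤ N := ((le_max_right _ _).trans (le_max_left _ _)).trans hN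
  have a3 : N3 ≤ N := ((le_max_left _ _).trans (le_max_right _ _)).trans hN
  have a4 : 1 ≤ N := ((le_max_right _ _).trans (le_max_right _ _)).trans hN
  have hN0 : (0 : ℝ) < N := by exact_mod_cast a4
  set d := h.natDegree with hd
  set L : ℝ := ell N with hL
  have b1 : (M : ℝ) ≤ L := ((le_max_left _ _).trans (le_max_left _ _)).trans (hN2 N a2)
  have b2 : 2 ≤ L := ((le_max_right _ _).trans (le_max_left _ _)).trans (hN2 N a2)
  have b3 : 7 * C + 1 ≤ L := (le_max_right _ _).trans (hN2 N a2)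
  have b4 := hN3 N a3
  have hL0 : 0 < L := by linarith
  have hL1 : 1 ≤ L := by linarith
  set Q : ℕ := q * M with hQ
  have hQ1 : 1 ≤ Q := Nat.mul_pos hq hM
  have hQle : (Q : ℝ) ≤ L ^ (B + 1) := by
    rw [hQ]; push_cast
    calc (q : ℝ) * M ≤ L ^ B * L := by gcongr
      _ = _ := by rw [pow_succ]
  have hQN : Q < N := by
    have : (Q : ℝ) < N := by
      have := hQle.trans b4
      linarith
    exact_mod_cast this
  -- split into residue classes modulo `Q`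
  set inner : ℕ → ℂ := fun r => ∑ n ∈ (Ioc N (2 * N)).filter (fun n => n ≡ r [MOD Q]),
    ((lp n : ℝ) : ℂ) * ee (β * ((h.eval (n : ℤ) : ℤ) : ℝ)) with hinner
  have hperiod : ∀ n r : ℕ, n ≡ r [MOD Q] → ee (((b : ℝ) / q + β) * ((h.eval (n : ℤ) : ℤ) : ℝ)) =
      ee ((b : ℝ) / q * ((h.eval (r : ℤ) : ℤ) : ℝ)) * ee (β * ((h.eval (n : ℤ) : ℤ) : ℝ)) := by
    intro n r hnr
    have h1 : (q : ℤ) ∣ h.eval (n : ℤ) - h.eval (r : ℤ) := by
      refine Dvd.dvd.trans ?_ (sub_dvd_eval_sub (n : ℤ) (r : ℤ) h)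
      have h2 : (Q : ℤ) ∣ (n : ℤ) - r := (Nat.modEq_iff_dvd.1 hnr.symm)
      exact (Dvd.intro _ (by rw [hQ]; push_cast; rfl)).trans h2
    obtain ⟨k, hk⟩ := h1
    have h3 : ((h.eval (n : ℤ) : ℤ) : ℝ) = ((h.eval (r : ℤ) : ℤ) : ℝ) + q * k := by
      have : h.eval (n : ℤ) = h.eval (r : ℤ) + q * k := by linarith
      rw [this]; push_cast; ring
    have hq0 : (q : ℝ) ≠ 0 := by positivity
    rw [add_mul, ee_add]
    congr 1
    rw [h3]
    have e : (b : ℝ) / q * (((h.eval (r : ℤ) : ℤ) : ℝ) + q * k) =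
        (b : ℝ) / q * ((h.eval (r : ℤ) : ℤ) : ℝ) + ((b * k : ℤ) : ℝ) := by
      push_cast; field_simp
    rw [e, ee_add_int]
  have hS1 : SP h M c N ((b : ℝ) / q + β) =
      ∑ r ∈ (range Q).filter (fun r => r ≡ c [MOD M]), ee ((b : ℝ) / q * ((h.eval (r : ℤ) : ℤ) : ℝ)) * inner r := by
    unfold SP
    rw [← sum_fiberwise_of_maps_to (t := (range Q).filter (fun r => r ≡ c [MOD M])) (g := fun n => n % Q)]
    · apply sum_congr rfl
      intro r hr
      rw [mem_filter, mem_range] at hr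
      simp only [hinner]
      rw [mul_sum, filter_filter]
      apply sum_congr
      · ext n
        simp only [mem_filter, mem_Ioc]
        constructor
        · rintro ⟨h1, h2, h3⟩
          refine ⟨h1, ?_⟩
          show n % Q = r % Q
          rw [h3, Nat.mod_eq_of_lt hr.1]
        · rintro ⟨h1, h2⟩
          refine ⟨h1, ?_, ?_⟩
          · exact (h2.of_dvd (Dvd.intro_left q rfl)).trans hr.2
          · have h3 : n % Q = r % Q := h2
            rw [h3, Nat.mod_eq_of_lt hr.1]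
      · intro n hn
        rw [mem_filter] at hn
        rw [hperiod n r hn.2]
        ring
    · intro n hn
      rw [mem_filter] at hn ⊢
      refine ⟨mem_range.2 (Nat.mod_lt _ (by omega)), ?_⟩
      have h1 : n % Q ≡ n [MOD M] := (Nat.mod_modEq n Q).of_dvd (Dvd.intro_left q rfl)
      exact h1.trans hn.2
  have hzero : ∀ r : ℕ, ¬ r.Coprime Q → inner r = 0 := by
    intro r hr
    simp only [hinner]
    apply sum_eq_zero
    intro n hn
    rw [mem_filter, mem_Ioc] at hn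
    have : lp n = 0 := by
      unfold lp
      rw [if_neg]
      intro hp
      apply hr
      have h1 : Nat.gcd n Q = Nat.gcd r Q := Nat.ModEq.gcd_eq hn.2
      rw [Nat.coprime_iff_gcd_eq_one, ← h1, ← Nat.coprime_iff_gcd_eq_one]
      rw [Nat.Prime.coprime_iff_not_dvd hp]
      intro hdv
      have := Nat.le_of_dvd (by omega) hdv
      omega
    rw [this]; simp
  have hS2 : SP h M c N ((b : ℝ) / q + β) =
      ∑ r ∈ (range Q).filter (fun r => r ≡ c [MOD M] ∧ r.Coprime Q),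
        ee ((b : ℝ) / q * ((h.eval (r : ℤ) : ℤ) : ℝ)) * inner r := by
    rw [hS1, ← filter_filter, sum_filter (fun r : ℕ => r.Coprime Q)]
    apply sum_congr rfl
    intro r _
    split_ifs with h1
    · rfl
    · rw [hzero r h1, mul_zero]
  set φ : ℂ := ((Q.totient : ℕ) : ℂ) with hφ
  have hGS : GS h M c b q / φ * II h N β =
      ∑ r ∈ (range Q).filter (fun r => r ≡ c [MOD M] ∧ r.Coprime Q),
        ee ((b : ℝ) / q * ((h.eval (r : ℤ) : ℤ) : ℝ)) * (II h N β / φ) := by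
    unfold GS
    rw [← sum_mul]
    ring
  rw [hS2, hGS, ← sum_sub_distrib]
  refine (norm_sum_le _ _).trans ?_
  have hterm : ∀ r ∈ (range Q).filter (fun r => r ≡ c [MOD M] ∧ r.Coprime Q),
      ‖ee ((b : ℝ) / q * ((h.eval (r : ℤ) : ℤ) : ℝ)) * inner r -
        ee ((b : ℝ) / q * ((h.eval (r : ℤ) : ℤ) : ℝ)) * (II h N β / φ)‖ ≤
      (N / L ^ (2 * B + 4)) * (1 + 7 * C * L ^ B) := by
    intro r hr
    rw [mem_filter] at hr
    rw [← mul_sub, norm_mul, norm_ee, one_mul]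
    have e1 : inner r - II h N β / φ = ∑ n ∈ Ioc N (2 * N),
        ((((if n ≡ r [MOD Q] then lp n else 0) - 1 / (Q.totient : ℝ) : ℝ)) : ℂ) *
          ee (β * ((h.eval (n : ℤ) : ℤ) : ℝ)) := by
      simp only [hinner]
      unfold II
      rw [sum_filter, sum_div, ← sum_sub_distrib]
      apply sum_congr rfl
      intro n _
      rw [hφ]
      split_ifs
      · push_cast; ring
      · push_cast; ring
    rw [e1]
    apply abel_bd _ _ N (2 * N) (by omega)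
    · positivity
    · intro t ht1 ht2
      have h1 := hN1 N a1 t ht1 ht2 Q hQ1 hQle r hr.2.2
      have e2 : ∑ m ∈ Ioc N t, ((((if m ≡ r [MOD Q] then lp m else 0) - 1 / (Q.totient : ℝ) : ℝ)) : ℂ) =
          (((∑ m ∈ (Ioc N t).filter (fun m => m ≡ r [MOD Q]), lp m - ((t : ℝ) - N) / Q.totient : ℝ)) : ℂ) := by
        rw [← Complex.ofReal_sum, sum_sub_distrib, sum_filter, sum_const, Nat.card_Ioc, nsmul_eq_mul,
          Nat.cast_sub ht1]
        congr 2
        ring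
      rw [e2, Complex.norm_real]
      exact h1
    · rw [norm_ee]
    · have h1 : ∀ m ∈ Ioc N (2 * N - 1), ‖ee (β * ((h.eval ((m + 1 : ℕ) : ℤ) : ℤ) : ℝ)) -
          ee (β * ((h.eval (m : ℤ) : ℤ) : ℝ))‖ ≤ 7 * (|β| * (C * (N : ℝ) ^ d / N)) := by
        intro m hm
        rw [mem_Ioc] at hm
        refine (ee_sub_le _ _).trans ?_
        rw [← mul_sub, abs_mul]
        have h2 := hinc N m a4 (by omega)
        have h3 : |((h.eval ((m + 1 : ℕ) : ℤ) : ℤ) : ℝ) - ((h.eval (m : ℤ) : ℤ) : ℝ)| ≤ C * (N : ℝ) ^ d / N := by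
          rw [le_div_iff₀ hN0]; exact h2
        gcongr
      refine (sum_le_sum h1).trans ?_
      rw [sum_const, Nat.card_Ioc, nsmul_eq_mul]
      have h2 : ((2 * N - 1 - N : ℕ) : ℝ) ≤ N := by
        have : 2 * N - 1 - N ≤ N := by omega
        exact_mod_cast this
      have h3 : 0 ≤ 7 * (|β| * (C * (N : ℝ) ^ d / N)) := by positivity
      calc ((2 * N - 1 - N : ℕ) : ℝ) * (7 * (|β| * (C * (N : ℝ) ^ d / N)))
          ≤ N * (7 * (|β| * (C * (N : ℝ) ^ d / N))) := by gcongr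
        _ = 7 * C * (|β| * (N : ℝ) ^ d) := by field_simp
        _ ≤ 7 * C * L ^ B := by
            rw [le_div_iff₀ (by positivity)] at hβ
            gcongr
  refine (sum_le_card_nsmul _ _ _ hterm).trans ?_
  rw [nsmul_eq_mul]
  have hcard : ((((range Q).filter (fun r => r ≡ c [MOD M] ∧ r.Coprime Q)).card : ℕ) : ℝ) ≤ L ^ (B + 1) := by
    refine le_trans ?_ hQle
    have := card_filter_le (range Q) (fun r => r ≡ c [MOD M] ∧ r.Coprime Q)
    rw [card_range] at this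
    exact_mod_cast this
  have h5 : 1 + 7 * C * L ^ B ≤ L ^ (B + 1) := by
    have h6 : 1 ≤ L ^ B := one_le_pow₀ hL1
    rw [pow_succ]
    nlinarith
  calc ((((range Q).filter (fun r => r ≡ c [MOD M] ∧ r.Coprime Q)).card : ℕ) : ℝ) *
        ((N / L ^ (2 * B + 4)) * (1 + 7 * C * L ^ B)) ≤
      L ^ (B + 1) * ((N / L ^ (2 * B + 4)) * L ^ (B + 1)) := by gcongr
    _ = N / L ^ 2 := by
        have e : L ^ (2 * B + 4) = L ^ (B + 1) * L ^ (B + 1) * L ^ 2 := by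
          rw [← pow_add, ← pow_add]; congr 1; ring
        rw [e]; field_simp
    _ ≤ N / L := by
        apply div_le_div_of_nonneg_left hN0.le hL0
        nlinarith

end Pool.Agent.Q51.MD
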