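import Pool.Agent.Q51.MD.Corr
import Pool.Agent.Q51.PD.Basic

set_option autoImplicit false

/-!
# The maximal density of sets avoiding the differences in `X`
-/

namespace Pool.Agent.Q51.MD

open MeasureTheory Filter Topology Finset

/-- the upper density `limsup |A ∩ {1, ..., N}| / N` -/
noncomputable def upperDensity (A : Set ℕ) : ℝ :=
  limsup (fun N : ℕ => ({n : ℕ | 1 ≤ n ∧ n ≤ N ∧ n ∈ A}.ncard : ℝ) / N) atTop

/-- `μ(X)`: the supremum of the upper densities of the sets `A ⊆ {1, 2, ...}` with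
`(A - A) ∩ X ⊆ {0}` -/
noncomputable def mu (X : Set ℤ) : ℝ :=
  sSup {d : ℝ | ∃ A : Set ℕ, 0 ∉ A ∧
    (∀ a ∈ A, ∀ b ∈ A, (a : ℤ) - b ∈ X → (a : ℤ) - b = 0) ∧ d = upperDensity A}

/-- `X_m`: the residue classes modulo `m` containing a nonzero element of `X` -/
def classes (X : Set ℤ) (m : ℕ) : Set (ZMod m) := {r | ∃ x ∈ X, x ≠ 0 ∧ (x : ZMod m) = r}

/-- `d_X(m)`: the maximal number of elements of a set `A ⊆ ℤ/m` with `(A - A) ∩ X_m = ∅` -/
noncomputable def dX (X : Set ℤ) (m : ℕ) : ℕ :=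
  sSup {n : ℕ | ∃ A : Finset (ZMod m), (∀ a ∈ A, ∀ b ∈ A, a - b ∉ classes X m) ∧ A.card = n}

lemma dX_bdd (X : Set ℤ) {m : ℕ} (hm : 1 ≤ m) :
    BddAbove {n : ℕ | ∃ A : Finset (ZMod m), (∀ a ∈ A, ∀ b ∈ A, a - b ∉ classes X m) ∧ A.card = n} := by
  have : NeZero m := ⟨by omega⟩
  refine ⟨m, ?_⟩
  rintro n ⟨A, _, rfl⟩
  calc A.card ≤ (Finset.univ : Finset (ZMod m)).card := Finset.card_le_card (Finset.subset_univ _)
    _ = m := by rw [Finset.card_univ, ZMod.card]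

lemma dX_mem (X : Set ℤ) {m : ℕ} (hm : 1 ≤ m) :
    ∃ A : Finset (ZMod m), (∀ a ∈ A, ∀ b ∈ A, a - b ∉ classes X m) ∧ A.card = dX X m :=
  Nat.sSup_mem (s := {n : ℕ | ∃ A : Finset (ZMod m),
    (∀ a ∈ A, ∀ b ∈ A, a - b ∉ classes X m) ∧ A.card = n}) ⟨0, ∅, by simp⟩ (dX_bdd X hm)

lemma dX_le (X : Set ℤ) {m : ℕ} (hm : 1 ≤ m) : dX X m ≤ m := by
  obtain ⟨A, _, hA⟩ := dX_mem X hm
  rw [← hA]
  have : NeZero m := ⟨by omega⟩
  calc A.card ≤ (Finset.univ : Finset (ZMod m)).card := Finset.card_le_card (Finset.subset_univ _)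
    _ = m := by rw [Finset.card_univ, ZMod.card]

lemma count_eq (A : Set ℕ) (N : ℕ) [DecidablePred (· ∈ A)] :
    ({n : ℕ | 1 ≤ n ∧ n ≤ N ∧ n ∈ A}.ncard : ℝ) = ∑ n ∈ range N, if n + 1 ∈ A then (1 : ℝ) else 0 := by
  have h1 : {n : ℕ | 1 ≤ n ∧ n ≤ N ∧ n ∈ A} =
      (((range N).filter (fun n => n + 1 ∈ A)).image (fun n => n + 1) : Finset ℕ) := by
    ext n
    simp only [Set.mem_ofPred_eq, Finset.coe_image, Finset.coe_filter, Finset.mem_range, Set.mem_image]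
    constructor
    · rintro ⟨h1, h2, h3⟩
      exact ⟨n - 1, ⟨by omega, by rwa [Nat.sub_add_cancel h1]⟩, by omega⟩
    · rintro ⟨x, ⟨h1, h2⟩, rfl⟩
      exact ⟨by omega, by omega, h2⟩
  rw [h1, Set.ncard_coe_finset, Finset.card_image_of_injective _ (fun a b hab => by simpa using hab),
    Finset.card_filter]
  push_cast
  rfl

lemma count_nonneg (A : Set ℕ) (N : ℕ) : 0 ≤ ({n : ℕ | 1 ≤ n ∧ n ≤ N ∧ n ∈ A}.ncard : ℝ) / N := by
  positivity

lemma count_le (A : Set ℕ) (N : ℕ) : ({n : ℕ | 1 ≤ n ∧ n ≤ N ∧ n ∈ A}.ncard : ℝ) / N ≤ 1 := by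
  classical
  rw [count_eq]
  rcases Nat.eq_zero_or_pos N with h | h
  · subst h; simp
  · rw [div_le_one (by exact_mod_cast h)]
    calc ∑ n ∈ range N, (if n + 1 ∈ A then (1 : ℝ) else 0) ≤ ∑ n ∈ range N, (1 : ℝ) :=
          Finset.sum_le_sum fun n _ => by split_ifs <;> norm_num
      _ = N := by simp

lemma bdd_above (A : Set ℕ) : IsBoundedUnder (· ≤ ·) atTop
    (fun N : ℕ => ({n : ℕ | 1 ≤ n ∧ n ≤ N ∧ n ∈ A}.ncard : ℝ) / N) :=
  isBoundedUnder_of ⟨1, count_le A⟩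

lemma bdd_below (A : Set ℕ) : IsBoundedUnder (· ≥ ·) atTop
    (fun N : ℕ => ({n : ℕ | 1 ≤ n ∧ n ≤ N ∧ n ∈ A}.ncard : ℝ) / N) :=
  isBoundedUnder_of ⟨0, count_nonneg A⟩

lemma upperDensity_le_one (A : Set ℕ) : upperDensity A ≤ 1 :=
  limsup_le_of_le (bdd_below A).isCoboundedUnder_le (Eventually.of_forall (count_le A))

/-- periodic sets -/
lemma density_periodic {m : ℕ} (hm : 1 ≤ m) (A : Finset (ZMod m)) :
    (A.card : ℝ) / m ≤ upperDensity {n : ℕ | 1 ≤ n ∧ (n : ZMod m) ∈ A} := by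
  classical
  have : NeZero m := ⟨by omega⟩
  apply le_limsup_of_frequently_le _ (bdd_above _)
  rw [frequently_atTop]
  intro N
  refine ⟨(N + 1) * m, ?_, ?_⟩
  · calc N ≤ (N + 1) * 1 := by omega
      _ ≤ (N + 1) * m := Nat.mul_le_mul_left _ hm
  · rw [count_eq]
    have h1 : ∀ n : ℕ, (if n + 1 ∈ {n : ℕ | 1 ≤ n ∧ (n : ZMod m) ∈ A} then (1 : ℝ) else 0) =
        (fun k : ℕ => if (k : ZMod m) ∈ A then (1 : ℝ) else 0) (n + 1) := by
      intro n
      simp only [Set.mem_ofPred_eq]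
      congr 1
      simp
    simp only [h1]
    have hper : ∀ n : ℕ, (fun k : ℕ => if (k : ZMod m) ∈ A then (1 : ℝ) else 0) (n + m) =
        (fun k : ℕ => if (k : ZMod m) ∈ A then (1 : ℝ) else 0) n := by
      intro n
      simp
    have hper' : ∀ n : ℕ, (fun n : ℕ => (fun k : ℕ => if (k : ZMod m) ∈ A then (1 : ℝ) else 0) (n + 1))
        (n + m) = (fun n : ℕ => (fun k : ℕ => if (k : ZMod m) ∈ A then (1 : ℝ) else 0) (n + 1)) n := by
      intro n
      simp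
    have h2 := Pool.Agent.Q51.PD.sum_mul_period
      (f := fun n : ℕ => (fun k : ℕ => if (k : ZMod m) ∈ A then (1 : ℝ) else 0) (n + 1)) hper' (N + 1)
    have h2' := Pool.Agent.Q51.PD.sum_shift
      (f := fun k : ℕ => if (k : ZMod m) ∈ A then (1 : ℝ) else 0) hper 1
    rw [h2, h2']
    have h3 : ∑ n ∈ range m, (if (n : ZMod m) ∈ A then (1 : ℝ) else 0) = A.card := by
      have h4 : ((range m).filter (fun n : ℕ => (n : ZMod m) ∈ A)) = A.image ZMod.val := by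
        ext n
        simp only [Finset.mem_filter, Finset.mem_range, Finset.mem_image]
        constructor
        · rintro ⟨h5, h6⟩
          exact ⟨n, h6, ZMod.val_cast_of_lt h5⟩
        · rintro ⟨z, hz, rfl⟩
          exact ⟨ZMod.val_lt z, by rwa [ZMod.natCast_zmod_val]⟩
      have h5 : ((range m).filter (fun n : ℕ => (n : ZMod m) ∈ A)).card = A.card := by
        rw [h4, Finset.card_image_of_injective _ (ZMod.val_injective m)]
      rw [← h5, Finset.card_filter]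
      push_cast
      rfl
    rw [h3]
    have hm0 : (m : ℝ) ≠ 0 := by exact_mod_cast (show m ≠ 0 by omega)
    push_cast
    apply le_of_eq
    field_simp

/-- conditions under which the formula holds -/
structure Nice (X : Set ℤ) (R : ℕ → Set ℤ) : Prop where
  erg : ∀ M, 1 ≤ M → ∀ r ∈ R M, Erg X M r
  lift : ∀ m M, 1 ≤ m → 1 ≤ M → m ∣ M → ∀ r ∈ R m, ∃ r' ∈ R M, r' ≡ r [ZMOD m]
  fin : ∀ m, 1 ≤ m → ∃ B : ℕ, ∀ x ∈ X, x ≠ 0 → (∀ r ∈ R m, ¬ x ≡ r [ZMOD m]) → x.natAbs ≤ B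

theorem density_le {X : Set ℤ} {R : ℕ → Set ℤ} (hN : Nice X R) {A : Set ℕ}
    (hA : ∀ a ∈ A, ∀ b ∈ A, (a : ℤ) - b ∈ X → (a : ℤ) - b = 0) {ε : ℝ} (hε : 0 < ε) :
    ∃ L : ℕ, 1 ≤ L ∧ upperDensity A - ε ≤ (dX X L : ℝ) / L := by
  classical
  let ω : Sp := fun n => decide (1 ≤ n ∧ n.toNat ∈ A)
  have hω : ∀ n : ℤ, ω n = true ↔ 1 ≤ n ∧ n.toNat ∈ A := fun n => by simp [ω]
  have hfreq : ∃ᶠ N : ℕ in atTop, upperDensity A - ε / 2 ≤
      avg (fun n : ℕ => if ω ((n : ℤ) + 1) then (1 : ℝ) else 0) (N + 1) := by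
    have h1 : ∃ᶠ N : ℕ in atTop, upperDensity A - ε / 2 <
        ({n : ℕ | 1 ≤ n ∧ n ≤ N ∧ n ∈ A}.ncard : ℝ) / N :=
      frequently_lt_of_lt_limsup (bdd_below A).isCoboundedUnder_le (by
        show upperDensity A - ε / 2 < upperDensity A
        linarith)
    rw [frequently_atTop] at h1 ⊢
    intro a
    obtain ⟨N, hN1, hN2⟩ := h1 (a + 1)
    refine ⟨N - 1, by omega, ?_⟩
    rw [Nat.sub_add_cancel (by omega)]
    rw [count_eq] at hN2
    refine hN2.le.trans (le_of_eq ?_)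
    unfold avg
    rw [smul_eq_mul, div_eq_inv_mul]
    congr 1
    apply Finset.sum_congr rfl
    intro n _
    have h2 : (ω ((n : ℤ) + 1) = true) ↔ n + 1 ∈ A := by
      rw [hω]
      have h3 : ((n : ℤ) + 1).toNat = n + 1 := by omega
      rw [h3]
      constructor
      · exact fun h => h.2
      · exact fun h => ⟨by omega, h⟩
    simp only [h2]
  obtain ⟨μ, hμ, hflow, hE, hzero⟩ := correspondence ω hfreq
  have hEm : MeasurableSet {x : Sp | x 0 = true} := by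
    have h0 : {x : Sp | x 0 = true} = (fun x : Sp => x 0) ⁻¹' {true} := by ext x; simp
    rw [h0]
    exact measurable_pi_apply 0 (measurableSet_singleton true)
  have hX : ∀ x ∈ X, x ≠ 0 → μ ({y : Sp | y 0 = true} ∩ (shift x) ⁻¹' {y | y 0 = true}) = 0 := by
    intro x hx hx0
    apply hzero x
    rintro n ⟨h1, h2⟩
    rw [hω] at h1 h2
    have h3 := hA _ h2.2 _ h1.2
    have h4 : ((n + x).toNat : ℤ) - n.toNat = x := by omega
    rw [h4] at h3
    exact hx0 (h3 hx)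
  obtain ⟨L, hL, W, hW1, hW2⟩ := extract hflow hEm hX hN.erg hN.lift hN.fin (half_pos hε)
  refine ⟨L, hL, ?_⟩
  have hL0 : (0 : ℝ) < L := by exact_mod_cast hL
  rw [le_div_iff₀ hL0]
  have h1 : W.card ≤ dX X L := by
    apply le_csSup (dX_bdd X hL)
    refine ⟨W, ?_, rfl⟩
    rintro a ha b hb ⟨x, hx, hx0, hxab⟩
    exact hW1 x hx hx0 a ha b hb hxab.symm
  have h2 : (W.card : ℝ) ≤ dX X L := by exact_mod_cast h1
  calc (upperDensity A - ε) * L ≤ (μ.real {x : Sp | x 0 = true} - ε / 2) * L :=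
        mul_le_mul_of_nonneg_right (by linarith) hL0.le
    _ ≤ W.card := hW2
    _ ≤ dX X L := h2

/-- **the formula for `μ(X)`** -/
theorem mu_eq {X : Set ℤ} {R : ℕ → Set ℤ} (hN : Nice X R) :
    mu X = sSup {q : ℝ | ∃ m : ℕ, 1 ≤ m ∧ q = (dX X m : ℝ) / m} := by
  have hbdd1 : BddAbove {d : ℝ | ∃ A : Set ℕ, 0 ∉ A ∧
      (∀ a ∈ A, ∀ b ∈ A, (a : ℤ) - b ∈ X → (a : ℤ) - b = 0) ∧ d = upperDensity A} := by
    refine ⟨1, ?_⟩
    rintro _ ⟨A, _, _, rfl⟩
    exact upperDensity_le_one A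
  have hbdd2 : BddAbove {q : ℝ | ∃ m : ℕ, 1 ≤ m ∧ q = (dX X m : ℝ) / m} := by
    refine ⟨1, ?_⟩
    rintro _ ⟨m, hm, rfl⟩
    rw [div_le_one (by exact_mod_cast hm)]
    exact_mod_cast dX_le X hm
  have hne1 : {d : ℝ | ∃ A : Set ℕ, 0 ∉ A ∧
      (∀ a ∈ A, ∀ b ∈ A, (a : ℤ) - b ∈ X → (a : ℤ) - b = 0) ∧ d = upperDensity A}.Nonempty :=
    ⟨_, ∅, by simp, by simp, rfl⟩
  have hne2 : {q : ℝ | ∃ m : ℕ, 1 ≤ m ∧ q = (dX X m : ℝ) / m}.Nonempty := ⟨_, 1, le_rfl, rfl⟩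
  apply le_antisymm
  · apply csSup_le hne1
    rintro _ ⟨A, _, hA, rfl⟩
    apply le_of_forall_pos_le_add
    intro ε hε
    obtain ⟨L, hL, hle⟩ := density_le hN hA hε
    have := le_csSup hbdd2 ⟨L, hL, rfl⟩
    linarith
  · apply csSup_le hne2
    rintro _ ⟨m, hm, rfl⟩
    obtain ⟨A, hA, hcard⟩ := dX_mem X hm
    rw [← hcard]
    refine (density_periodic hm A).trans ?_
    apply le_csSup hbdd1
    refine ⟨_, by simp, ?_, rfl⟩
    rintro a ⟨_, ha⟩ b ⟨_, hb⟩ hab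
    by_contra h0
    apply hA _ ha _ hb
    exact ⟨(a : ℤ) - b, hab, h0, by push_cast; rfl⟩

/-! ### Polynomial values -/

open Polynomial

theorem nice_finite {X : Set ℤ} (hX : X.Finite) : Nice X (fun _ => ∅) where
  erg _ _ r hr := absurd hr (Set.notMem_empty r)
  lift _ _ _ _ _ r hr := absurd hr (Set.notMem_empty r)
  fin m _ := by
    obtain ⟨B, hB⟩ := (hX.image Int.natAbs).bddAbove
    exact ⟨B, fun x hx _ _ => hB ⟨x, hx, rfl⟩⟩

theorem nice_poly (h : ℤ[X]) (hd : 1 ≤ h.natDegree) :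
    Nice (Set.range fun n : ℤ => h.eval n) (fun _ => Set.range fun n : ℤ => h.eval n) where
  erg := by
    rintro M hM r ⟨c, rfl⟩
    intro H _ _ _ V hV w hw v ε hε
    -- avoid the zeros
    have hh0 : h ≠ 0 := by rintro rfl; simp at hd
    obtain ⟨n₀, hn₀⟩ : ∃ n₀ : ℕ, ∀ n : ℕ, n₀ ≤ n → h.eval ((M : ℤ) * n + c) ≠ 0 := by
      have hfin : (h.roots.toFinset : Set ℤ).Finite := Finset.finite_toSet _
      obtain ⟨B, hB⟩ := hfin.bddAbove
      refine ⟨(B - c).toNat + 1, fun n hn h0 => ?_⟩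
      have h1 : (M : ℤ) * n + c ∈ (h.roots.toFinset : Set ℤ) := by
        simp only [Finset.mem_coe, Multiset.mem_toFinset]
        rw [mem_roots hh0]
        exact h0
      have h2 := hB h1
      have h3 : (n : ℤ) ≤ M * n := by
        have : (1 : ℤ) ≤ M := by exact_mod_cast hM
        nlinarith
      omega
    set q : ℤ[X] := h.comp (C (M : ℤ) * X + C ((M : ℤ) * n₀ + c)) with hq
    have hqe : ∀ n : ℕ, q.eval (n : ℤ) = h.eval ((M : ℤ) * (n + n₀ : ℕ) + c) := by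
      intro n
      rw [hq, eval_comp]
      congr 1
      simp
      ring
    have hM0 : (M : ℤ) ≠ 0 := by exact_mod_cast (show M ≠ 0 by omega)
    have hqd : 1 ≤ q.natDegree := by
      rw [hq, natDegree_comp, natDegree_linear hM0, mul_one]
      exact hd
    have h1 := mean_poly hV hw q hqd
    have h2 : Tendsto (fun N => (inner ℝ v (avg (fun n : ℕ => V (q.eval (n : ℤ)) w) N) : ℝ)) atTop
        (𝓝 (inner ℝ v (0 : H))) := tendsto_const_nhds.inner h1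
    rw [inner_zero_right] at h2
    have h3 := h2.abs
    rw [abs_zero] at h3
    obtain ⟨N, hN1, hN2⟩ := ((h3.eventually (gt_mem_nhds hε)).and (eventually_ge_atTop 1)).exists
    refine ⟨range N, fun n => q.eval (n : ℤ), fun _ => (N : ℝ)⁻¹, ?_, ?_, ?_⟩
    · intro i _
      refine ⟨by positivity, ?_, ?_, ?_⟩
      · show q.eval (i : ℤ) ∈ _
        rw [hqe]; exact ⟨_, rfl⟩
      · show q.eval (i : ℤ) ≠ 0
        rw [hqe]; exact hn₀ _ (by omega)
      · show q.eval (i : ℤ) ≡ h.eval c [ZMOD M]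
        rw [hqe, Int.modEq_iff_dvd]
        refine dvd_trans ?_ (sub_dvd_eval_sub _ _ h)
        exact ⟨-(i + n₀ : ℕ), by ring⟩
    · simp only [Finset.sum_const, Finset.card_range, nsmul_eq_mul]
      have : (N : ℝ) ≠ 0 := by exact_mod_cast (show N ≠ 0 by omega)
      field_simp
    · have h4 : ∑ i ∈ range N, (N : ℝ)⁻¹ * inner ℝ v (V (q.eval (i : ℤ)) w) =
          inner ℝ v (avg (fun n : ℕ => V (q.eval (n : ℤ)) w) N) := by
        unfold avg
        rw [inner_smul_right, inner_sum, Finset.mul_sum]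
      rw [h4]
      exact hN1.le
  lift _ _ _ _ _ r hr := ⟨r, hr, Int.ModEq.refl _⟩
  fin m _ := ⟨0, fun x hx _ h1 => absurd (Int.ModEq.refl x) (h1 x hx)⟩

end Pool.Agent.Q51.MD
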