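import Pool.Agent.Q51.MD.VdC
import Pool.Agent.Helper602.MK.J5b

set_option autoImplicit false

/-!
# Finite spectral measures

For a unitary representation `V` of `ℤ` on a real Hilbert space and a vector `w`, inequalities
between squares of trigonometric polynomials transfer to the vectors.
-/

namespace Pool.Agent.Q51.MD

open Finset Filter Topology
open Pool.Agent.Helper602.MK (ee)
open Pool.Agent.Helper602.MK.N_J5b (ee_eq ee_add ee_zero ee_conj norm_ee ee_int ee_nat_mul ee_add_int ee_eq_one_iff)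

/-- `cos (2 π x)` -/
noncomputable def cs (x : ℝ) : ℝ := Real.cos (2 * Real.pi * x)

/-- `sin (2 π x)` -/
noncomputable def sn (x : ℝ) : ℝ := Real.sin (2 * Real.pi * x)

theorem cs_sub (x y : ℝ) : cs (x - y) = cs x * cs y + sn x * sn y := by
  unfold cs sn; rw [mul_sub, Real.cos_sub]

theorem cs_add (x y : ℝ) : cs (x + y) = cs x * cs y - sn x * sn y := by
  unfold cs sn; rw [mul_add, Real.cos_add]

theorem ee_re (x : ℝ) : (ee x).re = cs x := by
  rw [ee_eq, Complex.exp_ofReal_mul_I_re]; rfl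

theorem ee_im (x : ℝ) : (ee x).im = sn x := by
  rw [ee_eq, Complex.exp_ofReal_mul_I_im]; rfl

theorem sum_ee (M : ℕ) (hM : 1 ≤ M) (z : ℤ) :
    ∑ j ∈ range M, ee (j * ((z : ℝ) / M)) = if (M : ℤ) ∣ z then (M : ℂ) else 0 := by
  have hM1 : (M : ℝ) ≠ 0 := by
    have : (M : ℕ) ≠ 0 := by omega
    exact_mod_cast this
  simp_rw [ee_nat_mul]
  have hpow : ee ((z : ℝ) / M) ^ M = 1 := by
    rw [← ee_nat_mul]
    have : (M : ℝ) * ((z : ℝ) / M) = z := by field_simp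
    rw [this, ee_int]
  by_cases h : (M : ℤ) ∣ z
  · rw [if_pos h]
    have h1 : ee ((z : ℝ) / M) = 1 := by
      rw [ee_eq_one_iff]
      obtain ⟨k, hk⟩ := h
      refine ⟨k, ?_⟩
      rw [hk]; push_cast; field_simp
    rw [h1]
    simp
  · rw [if_neg h]
    have h1 : ee ((z : ℝ) / M) ≠ 1 := by
      rw [Ne, ee_eq_one_iff]
      rintro ⟨k, hk⟩
      apply h
      refine ⟨k, ?_⟩
      rw [div_eq_iff hM1] at hk
      have h2 : (z : ℝ) = M * k := by rw [hk]; ring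
      exact_mod_cast h2
    rw [geom_sum_eq h1, hpow, sub_self, zero_div]

theorem sum_cs (M : ℕ) (hM : 1 ≤ M) (z : ℤ) (hz : |z| < M) :
    ∑ j ∈ range M, cs (z * ((j : ℝ) / M)) = if z = 0 then (M : ℝ) else 0 := by
  have h1 := congrArg Complex.re (sum_ee M hM z)
  rw [Complex.re_sum] at h1
  simp_rw [ee_re] at h1
  have h2 : ((M : ℤ) ∣ z) ↔ z = 0 := by
    constructor
    · intro h
      by_contra h0
      have := Int.le_of_dvd (abs_pos.2 h0) ((dvd_abs _ _).2 h)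
      omega
    · rintro rfl; exact dvd_zero _
  have h3 : ∑ j ∈ range M, cs (z * ((j : ℝ) / M)) = ∑ j ∈ range M, cs (j * ((z : ℝ) / M)) := by
    apply sum_congr rfl
    intro j _
    congr 1
    ring
  rw [h3, h1]
  by_cases h : z = 0
  · rw [if_pos h, if_pos (h2.2 h)]; simp
  · rw [if_neg h, if_neg (fun h' => h (h2.1 h'))]; simp

theorem sum_cs_cs (R : ℕ) (hR : 1 ≤ R) (a y : ℤ) (ha : |a| < R) (hy : |y| < R) :
    ∑ j ∈ range (2 * R), cs (a * ((j : ℝ) / (2 * R : ℕ))) * cs (y * ((j : ℝ) / (2 * R : ℕ))) =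
      R * ((if a = y then 1 else 0) + (if a = -y then 1 else 0)) := by
  have h1 := sum_cs (2 * R) (by omega) (a - y) (by
    have := abs_sub a y
    push_cast; omega)
  have h2 := sum_cs (2 * R) (by omega) (a + y) (by
    have := abs_add_le a y
    push_cast; omega)
  have h3 : ∀ j : ℕ, cs (a * ((j : ℝ) / (2 * R : ℕ))) * cs (y * ((j : ℝ) / (2 * R : ℕ))) =
      (cs (((a - y : ℤ) : ℝ) * ((j : ℝ) / (2 * R : ℕ))) + cs (((a + y : ℤ) : ℝ) * ((j : ℝ) / (2 * R : ℕ)))) / 2 := by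
    intro j
    have e1 : ((a - y : ℤ) : ℝ) * ((j : ℝ) / (2 * R : ℕ)) =
        a * ((j : ℝ) / (2 * R : ℕ)) - y * ((j : ℝ) / (2 * R : ℕ)) := by push_cast; ring
    have e2 : ((a + y : ℤ) : ℝ) * ((j : ℝ) / (2 * R : ℕ)) =
        a * ((j : ℝ) / (2 * R : ℕ)) + y * ((j : ℝ) / (2 * R : ℕ)) := by push_cast; ring
    rw [e1, e2, cs_sub, cs_add]; ring
  simp_rw [h3]
  rw [← sum_div, sum_add_distrib, h1, h2]
  have h4 : (a - y = 0) ↔ a = y := sub_eq_zero
  have h5 : (a + y = 0) ↔ a = -y := by constructor <;> intro h <;> omega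
  simp only [h4, h5]
  split_ifs <;> push_cast <;> ring

theorem card_pairs (R : ℕ) (y : ℤ) (hy : |y| ≤ R) :
    ((((range R ×ˢ range R).filter (fun kk : ℕ × ℕ => ((kk.1 : ℤ) - kk.2) = y)).card : ℕ) : ℤ) = R - |y| := by
  rcases le_total 0 y with h | h
  · obtain ⟨m, rfl⟩ := Int.eq_ofNat_of_zero_le h
    rw [abs_of_nonneg h] at hy ⊢
    have e : (range R ×ˢ range R).filter (fun kk : ℕ × ℕ => ((kk.1 : ℤ) - kk.2) = m) =
        (range (R - m)).image (fun k => (k + m, k)) := by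
      ext ⟨k1, k2⟩
      simp only [mem_filter, mem_product, mem_range, mem_image, Prod.mk.injEq]
      constructor
      · rintro ⟨⟨h1, h2⟩, h3⟩
        exact ⟨k2, by omega, by omega, rfl⟩
      · rintro ⟨k, h1, h2, h3⟩
        omega
    rw [e, card_image_of_injective _ (fun a b hab => by simpa using congrArg Prod.snd hab), card_range]
    omega
  · obtain ⟨m, hm⟩ := Int.eq_ofNat_of_zero_le (show 0 ≤ -y by omega)
    have hym : y = -(m : ℤ) := by omega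
    subst hym
    rw [abs_neg, abs_of_nonneg (by omega : (0 : ℤ) ≤ m)] at hy ⊢
    have e : (range R ×ˢ range R).filter (fun kk : ℕ × ℕ => ((kk.1 : ℤ) - kk.2) = -(m : ℤ)) =
        (range (R - m)).image (fun k => (k, k + m)) := by
      ext ⟨k1, k2⟩
      simp only [mem_filter, mem_product, mem_range, mem_image, Prod.mk.injEq]
      constructor
      · rintro ⟨⟨h1, h2⟩, h3⟩
        exact ⟨k1, by omega, rfl, by omega⟩
      · rintro ⟨k, h1, h2, h3⟩
        omega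
    rw [e, card_image_of_injective _ (fun a b hab => by simpa using congrArg Prod.fst hab), card_range]
    omega

variable {H : Type*} [NormedAddCommGroup H] [InnerProductSpace ℝ H]

/-- mass of the finite spectral measure -/
noncomputable def amp (V : ℤ → H →ₗᵢ[ℝ] H) (w : H) (R j : ℕ) : ℝ :=
  (‖∑ k ∈ range R, cs (k * ((j : ℝ) / (2 * R : ℕ))) • V k w‖ ^ 2 +
    ‖∑ k ∈ range R, sn (k * ((j : ℝ) / (2 * R : ℕ))) • V k w‖ ^ 2) / (2 * R * R)

theorem amp_nonneg (V : ℤ → H →ₗᵢ[ℝ] H) (w : H) (R j : ℕ) : 0 ≤ amp V w R j := by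
  unfold amp; positivity

theorem norm_sum_sq {ι : Type*} (s : Finset ι) (V : ℤ → H →ₗᵢ[ℝ] H) (hV : Rep V) (w : H) (a : ι → ℝ) (y : ι → ℤ) :
    ‖∑ n ∈ s, a n • V (y n) w‖ ^ 2 = ∑ n ∈ s, ∑ m ∈ s, a n * a m * inner ℝ (V (y n - y m) w) w := by
  rw [← real_inner_self_eq_norm_sq, sum_inner]
  apply sum_congr rfl
  intro n _
  rw [inner_sum]
  apply sum_congr rfl
  intro m _
  rw [real_inner_smul_left, real_inner_smul_right, hV.inner_eq]
  ring

theorem amp_eq (V : ℤ → H →ₗᵢ[ℝ] H) (hV : Rep V) (w : H) (R j : ℕ) :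
    amp V w R j = (∑ k ∈ range R, ∑ k' ∈ range R,
      cs ((((k : ℤ) - k' : ℤ) : ℝ) * ((j : ℝ) / (2 * R : ℕ))) * inner ℝ (V ((k : ℤ) - k') w) w) / (2 * R * R) := by
  unfold amp
  rw [norm_sum_sq (range R) V hV w (fun k => cs (k * ((j : ℝ) / (2 * R : ℕ)))) (fun k => (k : ℤ)),
    norm_sum_sq (range R) V hV w (fun k => sn (k * ((j : ℝ) / (2 * R : ℕ)))) (fun k => (k : ℤ)), ← sum_add_distrib]
  congr 1
  apply sum_congr rfl
  intro k _
  rw [← sum_add_distrib]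
  apply sum_congr rfl
  intro k' _
  have e : ((((k : ℤ) - k' : ℤ) : ℝ) * ((j : ℝ) / (2 * R : ℕ))) =
      k * ((j : ℝ) / (2 * R : ℕ)) - k' * ((j : ℝ) / (2 * R : ℕ)) := by push_cast; ring
  rw [e, cs_sub]
  ring

/-- integration against the finite spectral measure -/
noncomputable def mR (V : ℤ → H →ₗᵢ[ℝ] H) (w : H) (R : ℕ) (f : ℝ → ℝ) : ℝ :=
  ∑ j ∈ range (2 * R), amp V w R j * f ((j : ℝ) / (2 * R : ℕ))

theorem mR_mono (V : ℤ → H →ₗᵢ[ℝ] H) (w : H) (R : ℕ) {f g : ℝ → ℝ} (h : ∀ x, f x ≤ g x) :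
    mR V w R f ≤ mR V w R g :=
  sum_le_sum fun j _ => mul_le_mul_of_nonneg_left (h _) (amp_nonneg V w R j)

theorem mR_add (V : ℤ → H →ₗᵢ[ℝ] H) (w : H) (R : ℕ) (f g : ℝ → ℝ) :
    mR V w R (fun x => f x + g x) = mR V w R f + mR V w R g := by
  unfold mR; rw [← sum_add_distrib]; apply sum_congr rfl; intro j _; ring

theorem mR_smul (V : ℤ → H →ₗᵢ[ℝ] H) (w : H) (R : ℕ) (c : ℝ) (f : ℝ → ℝ) :
    mR V w R (fun x => c * f x) = c * mR V w R f := by
  unfold mR; rw [mul_sum]; apply sum_congr rfl; intro j _; ring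

theorem mR_sum {ι : Type*} (s : Finset ι) (V : ℤ → H →ₗᵢ[ℝ] H) (w : H) (R : ℕ) (f : ι → ℝ → ℝ) :
    mR V w R (fun x => ∑ i ∈ s, f i x) = ∑ i ∈ s, mR V w R (f i) := by
  unfold mR; rw [sum_comm]; apply sum_congr rfl; intro j _; rw [mul_sum]

theorem corr_symm (V : ℤ → H →ₗᵢ[ℝ] H) (hV : Rep V) (w : H) (y : ℤ) :
    (inner ℝ (V (-y) w) w : ℝ) = inner ℝ (V y w) w := by
  have h := hV.inner_eq 0 y w w
  rw [zero_sub, hV.zero] at h
  rw [← h, real_inner_comm]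

theorem mR_cs (V : ℤ → H →ₗᵢ[ℝ] H) (hV : Rep V) (w : H) (R : ℕ) (hR : 1 ≤ R) (y : ℤ) (hy : |y| < R) :
    mR V w R (fun x => cs (y * x)) = (1 - (|y| : ℝ) / R) * inner ℝ (V y w) w := by
  have hR0 : (0 : ℝ) < R := by exact_mod_cast hR
  unfold mR
  have h1 : ∀ j ∈ range (2 * R), amp V w R j * cs (y * ((j : ℝ) / (2 * R : ℕ))) =
      ∑ k ∈ range R, ∑ k' ∈ range R, (inner ℝ (V ((k : ℤ) - k') w) w / (2 * R * R)) *
        (cs ((((k : ℤ) - k' : ℤ) : ℝ) * ((j : ℝ) / (2 * R : ℕ))) * cs (y * ((j : ℝ) / (2 * R : ℕ)))) := by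
    intro j _
    rw [amp_eq V hV, sum_div, sum_mul]
    apply sum_congr rfl; intro k _
    rw [sum_div, sum_mul]
    apply sum_congr rfl; intro k' _
    ring
  rw [sum_congr rfl h1, sum_comm]
  have h2 : ∀ k ∈ range R, ∑ j ∈ range (2 * R), ∑ k' ∈ range R,
      (inner ℝ (V ((k : ℤ) - k') w) w / (2 * R * R)) *
        (cs ((((k : ℤ) - k' : ℤ) : ℝ) * ((j : ℝ) / (2 * R : ℕ))) * cs (y * ((j : ℝ) / (2 * R : ℕ)))) =
      ∑ k' ∈ range R, (inner ℝ (V y w) w / (2 * R)) *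
        ((if (k : ℤ) - k' = y then 1 else 0) + (if (k : ℤ) - k' = -y then 1 else 0)) := by
    intro k hk
    rw [sum_comm]
    apply sum_congr rfl
    intro k' hk'
    rw [mem_range] at hk hk'
    rw [← mul_sum, sum_cs_cs R hR ((k : ℤ) - k') y (by rw [abs_lt]; omega) hy]
    by_cases e1 : (k : ℤ) - k' = y
    · rw [e1]; field_simp
    · by_cases e2 : (k : ℤ) - k' = -y
      · rw [e2, corr_symm V hV]; field_simp
      · rw [if_neg e1, if_neg e2]; simp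
  rw [sum_congr rfl h2]
  simp_rw [← mul_sum]
  rw [← sum_product' (f := fun k k' : ℕ => ((if (k : ℤ) - k' = y then (1 : ℝ) else 0) + (if (k : ℤ) - k' = -y then 1 else 0))),
    sum_add_distrib, sum_boole, sum_boole]
  have c1 := card_pairs R y hy.le
  have c2 := card_pairs R (-y) (by rw [abs_neg]; exact hy.le)
  rw [abs_neg] at c2
  have c1' : (((range R ×ˢ range R).filter (fun kk : ℕ × ℕ => ((kk.1 : ℤ) - kk.2) = y)).card : ℝ) = R - |(y : ℝ)| := by
    have : ((((range R ×ˢ range R).filter (fun kk : ℕ × ℕ => ((kk.1 : ℤ) - kk.2) = y)).card : ℤ) : ℝ) =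
      ((R - |y| : ℤ) : ℝ) := by rw [c1]
    push_cast at this
    exact this
  have c2' : (((range R ×ˢ range R).filter (fun kk : ℕ × ℕ => ((kk.1 : ℤ) - kk.2) = -y)).card : ℝ) = R - |(y : ℝ)| := by
    have : ((((range R ×ˢ range R).filter (fun kk : ℕ × ℕ => ((kk.1 : ℤ) - kk.2) = -y)).card : ℤ) : ℝ) =
      ((R - |y| : ℤ) : ℝ) := by rw [c2]
    push_cast at this
    exact this
  rw [c1', c2']
  field_simp
  ring

theorem mR_cs_tendsto (V : ℤ → H →ₗᵢ[ℝ] H) (hV : Rep V) (w : H) (y : ℤ) :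
    Tendsto (fun R => mR V w R (fun x => cs (y * x))) atTop (𝓝 (inner ℝ (V y w) w)) := by
  have h1 : Tendsto (fun R : ℕ => (1 - (|y| : ℝ) / R) * (inner ℝ (V y w) w : ℝ)) atTop
      (𝓝 ((1 - 0) * inner ℝ (V y w) w)) :=
    (tendsto_const_nhds.sub (tendsto_const_div_atTop_nhds_zero_nat _)).mul_const _
  rw [sub_zero, one_mul] at h1
  refine h1.congr' ?_
  filter_upwards [eventually_ge_atTop (y.natAbs + 1)] with R hR
  have hy : |y| < R := by
    rw [Int.abs_eq_natAbs]; omega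
  exact (mR_cs V hV w R (by omega) y hy).symm

theorem normSq_sum {ι : Type*} (s : Finset ι) (a : ι → ℝ) (y : ι → ℤ) (x : ℝ) :
    ‖∑ n ∈ s, (a n : ℂ) * ee (y n * x)‖ ^ 2 = ∑ n ∈ s, ∑ m ∈ s, a n * a m * cs (((y n - y m : ℤ) : ℝ) * x) := by
  rw [← Complex.normSq_eq_norm_sq, Complex.normSq_apply, Complex.re_sum, Complex.im_sum]
  simp_rw [Complex.re_ofReal_mul, Complex.im_ofReal_mul, ee_re, ee_im]
  rw [sum_mul_sum, sum_mul_sum, ← sum_add_distrib]
  apply sum_congr rfl; intro n _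
  rw [← sum_add_distrib]
  apply sum_congr rfl; intro m _
  have e : ((y n - y m : ℤ) : ℝ) * x = y n * x - y m * x := by push_cast; ring
  rw [e, cs_sub]; ring

theorem mR_tendsto {ι : Type*} (s : Finset ι) (V : ℤ → H →ₗᵢ[ℝ] H) (hV : Rep V) (w : H) (a : ι → ℝ) (y : ι → ℤ) :
    Tendsto (fun R => mR V w R (fun x => ‖∑ n ∈ s, (a n : ℂ) * ee (y n * x)‖ ^ 2)) atTop
      (𝓝 (‖∑ n ∈ s, a n • V (y n) w‖ ^ 2)) := by
  rw [norm_sum_sq s V hV w a y]
  simp_rw [normSq_sum, mR_sum, mR_smul]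
  apply tendsto_finsetSum; intro n _
  apply tendsto_finsetSum; intro m _
  exact (mR_cs_tendsto V hV w _).const_mul _

/-- transfer of inequalities -/
theorem transfer {ι κ : Type*} (s : Finset ι) (V : ℤ → H →ₗᵢ[ℝ] H) (hV : Rep V) (w : H) (a : ι → ℝ) (y : ι → ℤ)
    (A C : ℝ) (Q : Finset κ) (t : κ → Finset ι) (b : κ → ι → ℝ) (z : κ → ι → ℤ)
    (h : ∀ x : ℝ, ‖∑ n ∈ s, (a n : ℂ) * ee (y n * x)‖ ^ 2 ≤
      A + C * ∑ q ∈ Q, ‖∑ n ∈ t q, (b q n : ℂ) * ee (z q n * x)‖ ^ 2) :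
    ‖∑ n ∈ s, a n • V (y n) w‖ ^ 2 ≤ A * ‖w‖ ^ 2 + C * ∑ q ∈ Q, ‖∑ n ∈ t q, b q n • V (z q n) w‖ ^ 2 := by
  have h1 := mR_tendsto s V hV w a y
  have h2 : Tendsto (fun R => A * mR V w R (fun x => cs ((0 : ℤ) * x)) +
      C * ∑ q ∈ Q, mR V w R (fun x => ‖∑ n ∈ t q, (b q n : ℂ) * ee (z q n * x)‖ ^ 2)) atTop
      (𝓝 (A * inner ℝ (V 0 w) w + C * ∑ q ∈ Q, ‖∑ n ∈ t q, b q n • V (z q n) w‖ ^ 2)) := by
    apply Tendsto.add
    · exact (mR_cs_tendsto V hV w 0).const_mul _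
    · apply Tendsto.const_mul
      apply tendsto_finsetSum; intro q _
      exact mR_tendsto (t q) V hV w (b q) (z q)
  rw [hV.zero, real_inner_self_eq_norm_sq] at h2
  refine le_of_tendsto_of_tendsto' h1 h2 fun R => ?_
  rw [← mR_sum, ← mR_smul, ← mR_smul, ← mR_add]
  apply mR_mono
  intro x
  refine (h x).trans (le_of_eq ?_)
  have : cs (((0 : ℤ) : ℝ) * x) = 1 := by unfold cs; simp
  rw [this, mul_one]

end Pool.Agent.Q51.MD
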