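import Pool.Agent.Q51.MD.DJ
import Pool.Agent.Q51.MD.Spc
import Pool.Agent.Q51.MD.Main

set_option autoImplicit false

/-!
# Polynomial values at primes
-/

namespace Pool.Agent.Q51.MD

open Finset Filter Topology Polynomial
open Pool.Agent.Helper602.MK (ee)
open Pool.Agent.Helper602.MK.N_J5b (ee_eq ee_add ee_zero ee_conj norm_ee ee_int ee_nat_mul ee_add_int ee_eq_one_iff)

theorem sum_lp_le (N : ℕ) (hN : 1 ≤ N) : ∑ n ∈ Ioc N (2 * N), lp n ≤ 3 * N := by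
  have hN0 : (1 : ℝ) ≤ N := by exact_mod_cast hN
  have h1 := Chebyshev.theta_le_log4_mul_x (x := ((2 * N : ℕ) : ℝ)) (by positivity)
  have h2 : ∑ n ∈ Ioc N (2 * N), lp n ≤ Chebyshev.theta ((2 * N : ℕ) : ℝ) := by
    rw [Chebyshev.theta, Nat.floor_natCast, sum_filter]
    calc ∑ n ∈ Ioc N (2 * N), lp n ≤ ∑ n ∈ Ioc 0 (2 * N), lp n := by
          apply sum_le_sum_of_subset_of_nonneg
          · intro k hk
            rw [mem_Ioc] at hk ⊢
            omega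
          · intro k _ _
            exact lp_nonneg k
      _ = _ := rfl
  refine (h2.trans h1).trans ?_
  have h3 : Real.log 4 ≤ 3 / 2 := by
    have : (4 : ℝ) = 2 ^ 2 := by norm_num
    rw [this, Real.log_pow]
    have := Real.log_two_lt_d9
    push_cast
    linarith
  push_cast
  nlinarith

theorem cs_ge (t : ℝ) (ht : |t| ≤ 1 / 8) : 1 / 2 ≤ cs t := by
  unfold cs
  have h1 := Real.one_sub_sq_div_two_le_cos (x := 2 * Real.pi * t)
  have h2 := Real.pi_lt_d2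
  have h3 := Real.pi_pos
  have h4 : |2 * Real.pi * t| ≤ 8 / 10 := by
    rw [abs_mul, abs_of_pos (by positivity)]
    nlinarith [abs_nonneg t]
  have h5 : (2 * Real.pi * t) ^ 2 ≤ (8 / 10) ^ 2 := by
    rw [← sq_abs]
    exact pow_le_pow_left₀ (abs_nonneg _) h4 2
  nlinarith

variable {H : Type*} [NormedAddCommGroup H] [InnerProductSpace ℝ H] [CompleteSpace H]

/-- **Mean ergodic theorem along values of polynomials at primes** -/
theorem prime_mean {V : ℤ → H →ₗᵢ[ℝ] H} (hV : Rep V) {w : H} (hw : Aper V w) (h : ℤ[X])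
    (hd : 1 ≤ h.natDegree) (M : ℕ) (hM : 1 ≤ M) (c : ℕ) (ε : ℝ) (hε : 0 < ε) :
    ∃ N₀ : ℕ, ∀ N : ℕ, N₀ ≤ N →
      ‖∑ n ∈ (Ioc N (2 * N)).filter (fun n => n ≡ c [MOD M]), lp n • V (h.eval (n : ℤ)) w‖ ≤ ε * N := by
  set ε₁ : ℝ := ε / (2 * (‖w‖ + 1)) with hε₁
  have hw0 := norm_nonneg w
  have hε₁0 : 0 < ε₁ := by positivity
  obtain ⟨Q₀, K, N1, hK, h1⟩ := dichotomy h hd M hM c ε₁ hε₁0
  set η : ℝ := ε ^ 2 / (72 * (Q₀ + 1)) with hη
  have hη0 : 0 < η := by positivity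
  have h2 : ∀ᶠ T : ℕ in atTop, ∀ q ∈ Icc 1 Q₀, ‖avg (fun n => V ((q : ℤ) * n + 0) w) T‖ ^ 2 ≤ η := by
    rw [eventually_all_finset]
    intro q hq
    rw [mem_Icc] at hq
    have h3 := mean_linear hV hw (a := (q : ℤ)) (by omega) 0
    have h4 : Tendsto (fun T => ‖avg (fun n => V ((q : ℤ) * n + 0) w) T‖ ^ 2) atTop (𝓝 0) := by
      have := (h3.norm).pow 2
      simpa using this
    exact h4.eventually_le_const hη0
  obtain ⟨T₀, hT₀⟩ := eventually_atTop.1 h2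
  set d := h.natDegree with hdd
  refine ⟨max (max N1 1) ⌈8 * (K + 1) * (T₀ + 1)⌉₊, ?_⟩
  intro N hN
  have a1 : N1 ≤ N := ((le_max_left _ _).trans (le_max_left _ _)).trans hN
  have a2 : 1 ≤ N := ((le_max_right _ _).trans (le_max_left _ _)).trans hN
  have a3 : 8 * (K + 1) * (T₀ + 1) ≤ N := (Nat.le_ceil _).trans (by exact_mod_cast (le_max_right _ _).trans hN)
  have hN0 : (0 : ℝ) < N := by exact_mod_cast a2
  have hN1 : (1 : ℝ) ≤ N := by exact_mod_cast a2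
  have hNd : (N : ℝ) ≤ (N : ℝ) ^ d := le_self_pow₀ hN1 (by omega)
  set T : ℕ := ⌊(N : ℝ) ^ d / (8 * (K + 1))⌋₊ with hT
  have hTle : (T : ℝ) ≤ (N : ℝ) ^ d / (8 * (K + 1)) := Nat.floor_le (by positivity)
  have hTge : T₀ + 1 ≤ T := by
    rw [hT]
    apply Nat.le_floor
    rw [le_div_iff₀ (by positivity)]
    push_cast
    linarith
  have hT1 : (1 : ℝ) ≤ T := by
    have : 1 ≤ T := by omega
    exact_mod_cast this
  -- pointwise inequality
  have hpt : ∀ x : ℝ, ‖∑ n ∈ (Ioc N (2 * N)).filter (fun n => n ≡ c [MOD M]),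
      ((lp n : ℝ) : ℂ) * ee (((h.eval (n : ℤ) : ℤ) : ℝ) * x)‖ ^ 2 ≤ (ε₁ * N) ^ 2 +
      (36 * (N : ℝ) ^ 2) * ∑ q ∈ Icc 1 Q₀, ‖∑ k ∈ range T, (((T : ℝ)⁻¹ : ℝ) : ℂ) *
        ee ((((q : ℤ) * k + 0 : ℤ) : ℝ) * x)‖ ^ 2 := by
    intro x
    have e : ∑ n ∈ (Ioc N (2 * N)).filter (fun n => n ≡ c [MOD M]),
        ((lp n : ℝ) : ℂ) * ee (((h.eval (n : ℤ) : ℤ) : ℝ) * x) = SP h M c N x := by
      unfold SP
      apply sum_congr rfl; intro n _
      rw [mul_comm x]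
    rw [e]
    have hpos : 0 ≤ ∑ q ∈ Icc 1 Q₀, ‖∑ k ∈ range T, (((T : ℝ)⁻¹ : ℝ) : ℂ) *
        ee ((((q : ℤ) * k + 0 : ℤ) : ℝ) * x)‖ ^ 2 := by positivity
    rcases h1 N a1 x with h3 | ⟨q, hq1, hq2, b, hb⟩
    · have h4 : ‖SP h M c N x‖ ^ 2 ≤ (ε₁ * N) ^ 2 := pow_le_pow_left₀ (norm_nonneg _) h3 2
      have h5 : 0 ≤ (36 * (N : ℝ) ^ 2) * ∑ q ∈ Icc 1 Q₀, ‖∑ k ∈ range T, (((T : ℝ)⁻¹ : ℝ) : ℂ) *
        ee ((((q : ℤ) * k + 0 : ℤ) : ℝ) * x)‖ ^ 2 := by positivity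
      linarith
    · have h4 : ‖SP h M c N x‖ ≤ 3 * N := by
        unfold SP
        refine (norm_sum_le _ _).trans ?_
        have h5 : ∀ n ∈ (Ioc N (2 * N)).filter (fun n => n ≡ c [MOD M]),
            ‖((lp n : ℝ) : ℂ) * ee (x * ((h.eval (n : ℤ) : ℤ) : ℝ))‖ = lp n := by
          intro n _
          rw [norm_mul, norm_ee, mul_one, Complex.norm_real, Real.norm_of_nonneg (lp_nonneg n)]
        rw [sum_congr rfl h5]
        refine le_trans ?_ (sum_lp_le N a2)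
        exact sum_le_sum_of_subset_of_nonneg (filter_subset _ _) (fun n _ _ => lp_nonneg n)
      have h5 : 1 / 2 ≤ ‖∑ k ∈ range T, (((T : ℝ)⁻¹ : ℝ) : ℂ) * ee ((((q : ℤ) * k + 0 : ℤ) : ℝ) * x)‖ := by
        refine le_trans ?_ (Complex.re_le_norm _)
        rw [Complex.re_sum]
        simp_rw [Complex.re_ofReal_mul, ee_re]
        have h6 : ∀ k ∈ range T, (T : ℝ)⁻¹ * (1 / 2) ≤ (T : ℝ)⁻¹ * cs ((((q : ℤ) * k + 0 : ℤ) : ℝ) * x) := by
          intro k hk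
          rw [mem_range] at hk
          apply mul_le_mul_of_nonneg_left _ (by positivity)
          have e2 : (((q : ℤ) * k + 0 : ℤ) : ℝ) * x = k * (q * x - b) + ((k * b : ℤ) : ℝ) := by
            push_cast; ring
          have e3 : cs ((((q : ℤ) * k + 0 : ℤ) : ℝ) * x) = cs (k * (q * x - b)) := by
            rw [e2, ← ee_re, ee_add_int, ee_re]
          rw [e3]
          apply cs_ge
          rw [abs_mul, Nat.abs_cast]
          have hkT : (k : ℝ) ≤ T := by exact_mod_cast hk.le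
          calc (k : ℝ) * |q * x - b| ≤ ((N : ℝ) ^ d / (8 * (K + 1))) * (K / (N : ℝ) ^ d) := by
                have := hkT.trans hTle
                gcongr
            _ = K / (8 * (K + 1)) := by field_simp
            _ ≤ 1 / 8 := by
                rw [div_le_div_iff₀ (by positivity) (by norm_num)]
                linarith
        refine le_trans ?_ (sum_le_sum h6)
        rw [sum_const, card_range, nsmul_eq_mul]
        have : (T : ℝ) ≠ 0 := by positivity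
        field_simp
        exact le_rfl
      have h6 : (1 / 4 : ℝ) ≤ ∑ q ∈ Icc 1 Q₀, ‖∑ k ∈ range T, (((T : ℝ)⁻¹ : ℝ) : ℂ) *
          ee ((((q : ℤ) * k + 0 : ℤ) : ℝ) * x)‖ ^ 2 := by
        have h7 := single_le_sum (f := fun q : ℕ => ‖∑ k ∈ range T, (((T : ℝ)⁻¹ : ℝ) : ℂ) *
          ee ((((q : ℤ) * k + 0 : ℤ) : ℝ) * x)‖ ^ 2) (fun i _ => sq_nonneg _) (mem_Icc.2 ⟨hq1, hq2⟩)
        refine le_trans ?_ h7
        have := pow_le_pow_left₀ (by norm_num) h5 2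
        norm_num at this ⊢
        exact this
      have h7 : ‖SP h M c N x‖ ^ 2 ≤ (3 * N) ^ 2 := pow_le_pow_left₀ (norm_nonneg _) h4 2
      have h8 : 0 ≤ (ε₁ * N) ^ 2 := sq_nonneg _
      have h9 : (0 : ℝ) ≤ 36 * (N : ℝ) ^ 2 := by positivity
      nlinarith
  have h3 := transfer ((Ioc N (2 * N)).filter (fun n => n ≡ c [MOD M])) V hV w lp (fun n => h.eval (n : ℤ))
    ((ε₁ * N) ^ 2) (36 * (N : ℝ) ^ 2) (Icc 1 Q₀) (fun _ => range T) (fun _ _ => (T : ℝ)⁻¹)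
    (fun q k => (q : ℤ) * k + 0) hpt
  have h4 : ∑ q ∈ Icc 1 Q₀, ‖∑ n ∈ range T, (T : ℝ)⁻¹ • V ((q : ℤ) * n + 0) w‖ ^ 2 ≤ Q₀ * η := by
    have h5 : ∀ q ∈ Icc 1 Q₀, ‖∑ n ∈ range T, (T : ℝ)⁻¹ • V ((q : ℤ) * n + 0) w‖ ^ 2 ≤ η := by
      intro q hq
      have := hT₀ T (by omega) q hq
      unfold avg at this
      rw [smul_sum] at this
      exact this
    refine (sum_le_card_nsmul _ _ _ h5).trans (le_of_eq ?_)
    rw [Nat.card_Icc, nsmul_eq_mul, Nat.add_sub_cancel]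
  have h5 : ‖∑ n ∈ (Ioc N (2 * N)).filter (fun n => n ≡ c [MOD M]), lp n • V (h.eval (n : ℤ)) w‖ ^ 2 ≤
      (ε * N) ^ 2 := by
    refine h3.trans ?_
    have h6 : (ε₁ * N) ^ 2 * ‖w‖ ^ 2 ≤ (ε ^ 2 / 4) * (N : ℝ) ^ 2 := by
      have h7 : ε₁ * ‖w‖ ≤ ε / 2 := by
        rw [hε₁, div_mul_eq_mul_div, div_le_div_iff₀ (by positivity) (by norm_num)]
        nlinarith
      have h8 : (ε₁ * ‖w‖) ^ 2 ≤ (ε / 2) ^ 2 := pow_le_pow_left₀ (by positivity) h7 2
      calc (ε₁ * N) ^ 2 * ‖w‖ ^ 2 = (ε₁ * ‖w‖) ^ 2 * (N : ℝ) ^ 2 := by ring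
        _ ≤ (ε / 2) ^ 2 * (N : ℝ) ^ 2 := by gcongr
        _ = _ := by ring
    have h7 : 36 * (N : ℝ) ^ 2 * ∑ q ∈ Icc 1 Q₀, ‖∑ n ∈ range T, (T : ℝ)⁻¹ • V ((q : ℤ) * n + 0) w‖ ^ 2 ≤
        (ε ^ 2 / 2) * (N : ℝ) ^ 2 := by
      calc 36 * (N : ℝ) ^ 2 * ∑ q ∈ Icc 1 Q₀, ‖∑ n ∈ range T, (T : ℝ)⁻¹ • V ((q : ℤ) * n + 0) w‖ ^ 2 ≤
          36 * (N : ℝ) ^ 2 * (Q₀ * η) := by gcongr
        _ ≤ 36 * (N : ℝ) ^ 2 * (ε ^ 2 / 72) := by
            have : (Q₀ : ℝ) * η ≤ ε ^ 2 / 72 := by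
              rw [hη, mul_div_assoc', div_le_div_iff₀ (by positivity) (by norm_num)]
              nlinarith [sq_nonneg ε]
            gcongr
        _ = _ := by ring
    have h8 : 0 ≤ ε ^ 2 * (N : ℝ) ^ 2 := by positivity
    nlinarith
  exact (sq_le_sq₀ (norm_nonneg _) (by positivity)).1 h5

/-- the values of `h` at the primes -/
def PV (h : ℤ[X]) : Set ℤ := {x | ∃ p : ℕ, p.Prime ∧ x = h.eval (p : ℤ)}

theorem erg_primes (h : ℤ[X]) (hd : 1 ≤ h.natDegree) (M : ℕ) (hM : 1 ≤ M) (c : ℕ) (hc : c.Coprime M) :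
    Erg (PV h) M (h.eval (c : ℤ)) := by
  intro H _ _ _ V hV w hw v ε hε
  have hh0 : h ≠ 0 := by rintro rfl; simp at hd
  obtain ⟨n₀, hn₀⟩ : ∃ n₀ : ℕ, ∀ n : ℕ, n₀ ≤ n → h.eval (n : ℤ) ≠ 0 := by
    have hfin : (h.roots.toFinset : Set ℤ).Finite := Finset.finite_toSet _
    obtain ⟨B, hB⟩ := hfin.bddAbove
    refine ⟨B.toNat + 1, fun n hn h0 => ?_⟩
    have h1 : (n : ℤ) ∈ (h.roots.toFinset : Set ℤ) := by
      simp only [Finset.mem_coe, Multiset.mem_toFinset]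
      rw [mem_roots hh0]
      exact h0
    have h2 := hB h1
    omega
  have hφ : (0 : ℝ) < M.totient := by exact_mod_cast Nat.totient_pos.2 (by omega)
  have hv0 := norm_nonneg v
  obtain ⟨N1, h1⟩ := prime_mean hV hw h hd M hM c (ε / (2 * M.totient * (‖v‖ + 1))) (by positivity)
  obtain ⟨N2, h2⟩ := sw_int 1 1
  obtain ⟨N3, h3⟩ := ell_large (max M (2 * M.totient))
  set N : ℕ := max (max N1 N2) (max (max N3 n₀) 1) with hN
  have a1 : N1 ≤ N := (le_max_left _ _).trans (le_max_left _ _)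
  have a2 : N2 ≤ N := (le_max_right _ _).trans (le_max_left _ _)
  have a3 : N3 ≤ N := ((le_max_left _ _).trans (le_max_left _ _)).trans (le_max_right _ _)
  have a4 : n₀ ≤ N := ((le_max_right _ _).trans (le_max_left _ _)).trans (le_max_right _ _)
  have a5 : 1 ≤ N := (le_max_right _ _).trans (le_max_right _ _)
  have hN0 : (0 : ℝ) < N := by exact_mod_cast a5
  have b1 : (M : ℝ) ≤ ell N := (le_max_left _ _).trans (h3 N a3)
  have b2 : 2 * (M.totient : ℝ) ≤ ell N := (le_max_right _ _).trans (h3 N a3)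
  have hell : 0 < ell N := by linarith
  have h4 := h1 N a1
  have h5 := h2 N a2 (2 * N) (by omega) le_rfl M hM (by rw [pow_one]; exact b1) c hc
  set S := (Ioc N (2 * N)).filter (fun n => n ≡ c [MOD M]) with hS
  set W : ℝ := ∑ n ∈ S, lp n with hW
  have hWge : (N : ℝ) / (2 * M.totient) ≤ W := by
    rw [pow_one] at h5
    have h6 : (N : ℝ) / ell N ≤ N / (2 * M.totient) := by gcongr
    have h7 := (abs_le.1 (h5.trans h6)).1
    have e : (((2 * N : ℕ) : ℝ) - N) / M.totient = N / (2 * M.totient) + N / (2 * M.totient) := by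
      push_cast; field_simp; ring
    rw [e] at h7
    linarith
  have hW0 : 0 < W := lt_of_lt_of_le (by positivity) hWge
  have hlp0 : ∀ n : ℕ, ¬ n.Prime → lp n = 0 := fun n hn => by unfold lp; rw [if_neg hn]
  refine ⟨S.filter Nat.Prime, fun n => h.eval (n : ℤ), fun n => lp n / W, ?_, ?_, ?_⟩
  · intro n hn
    rw [mem_filter, hS, mem_filter, mem_Ioc] at hn
    refine ⟨div_nonneg (lp_nonneg n) hW0.le, ⟨n, hn.2, rfl⟩, hn₀ n (by omega), ?_⟩
    show h.eval (n : ℤ) ≡ h.eval (c : ℤ) [ZMOD M]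
    rw [Int.modEq_iff_dvd]
    refine dvd_trans ?_ (sub_dvd_eval_sub _ _ h)
    exact Nat.modEq_iff_dvd.1 hn.1.2
  · rw [sum_filter_of_ne (p := Nat.Prime)]
    · rw [← sum_div, ← hW, div_self hW0.ne']
    · intro n _ hne
      by_contra hp
      exact hne (by rw [hlp0 n hp, zero_div])
  · rw [sum_filter_of_ne (p := Nat.Prime)]
    · have e : ∑ n ∈ S, lp n / W * inner ℝ v (V (h.eval (n : ℤ)) w) =
          inner ℝ v (∑ n ∈ S, lp n • V (h.eval (n : ℤ)) w) / W := by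
        rw [inner_sum, sum_div]
        apply sum_congr rfl; intro n _
        rw [real_inner_smul_right]; ring
      rw [e, abs_div, abs_of_pos hW0, div_le_iff₀ hW0]
      refine (abs_real_inner_le_norm _ _).trans ?_
      calc ‖v‖ * ‖∑ n ∈ S, lp n • V (h.eval (n : ℤ)) w‖ ≤
          ‖v‖ * (ε / (2 * M.totient * (‖v‖ + 1)) * N) := by gcongr
        _ = (ε * (‖v‖ / (‖v‖ + 1))) * (N / (2 * M.totient)) := by field_simp
        _ ≤ (ε * 1) * W := by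
            have : ‖v‖ / (‖v‖ + 1) ≤ 1 := by rw [div_le_one (by positivity)]; linarith
            gcongr
        _ = ε * W := by ring
    · intro n _ hne
      by_contra hp
      refine hne ?_
      show lp n / W * _ = 0
      rw [hlp0 n hp, zero_div, zero_mul]

theorem coprime_lift {m M : ℕ} (hM : 1 ≤ M) (hmM : m ∣ M) (c : ℕ) (hc : c.Coprime m) :
    ∃ c' : ℕ, c'.Coprime M ∧ c' ≡ c [MOD m] := by
  have hm : m ≠ 0 := by rintro rfl; simp at hmM; omega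
  have : NeZero M := ⟨by omega⟩
  have : NeZero m := ⟨hm⟩
  obtain ⟨u, hu⟩ := ZMod.unitsMap_surjective hmM (ZMod.unitOfCoprime c hc)
  refine ⟨(u : ZMod M).val, ZMod.val_coe_unit_coprime u, ?_⟩
  rw [← ZMod.natCast_eq_natCast_iff]
  have h1 := congrArg (fun u : (ZMod m)ˣ => (u : ZMod m)) hu
  simp only [ZMod.coe_unitOfCoprime] at h1
  rw [← h1, ZMod.unitsMap_val, ZMod.natCast_val]

theorem nice_primes (h : ℤ[X]) (hd : 1 ≤ h.natDegree) :
    Nice (PV h) (fun m => {r | ∃ c : ℕ, c.Coprime m ∧ r = h.eval (c : ℤ)}) where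
  erg := by
    rintro M hM r ⟨c, hc, rfl⟩
    exact erg_primes h hd M hM c hc
  lift := by
    rintro m M hm hM hmM r ⟨c, hc, rfl⟩
    obtain ⟨c', h1, h2⟩ := coprime_lift hM hmM c hc
    refine ⟨_, ⟨c', h1, rfl⟩, ?_⟩
    rw [Int.modEq_iff_dvd]
    refine dvd_trans ?_ (sub_dvd_eval_sub _ _ h)
    exact Nat.modEq_iff_dvd.1 h2
  fin := by
    intro m hm
    refine ⟨∑ p ∈ m.primeFactors, (h.eval (p : ℤ)).natAbs, ?_⟩
    rintro x ⟨p, hp, rfl⟩ _ hx
    have hpm : p ∣ m := by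
      by_contra hdv
      exact hx _ ⟨p, (Nat.Prime.coprime_iff_not_dvd hp).2 hdv, rfl⟩ (Int.ModEq.refl _)
    exact single_le_sum (f := fun p : ℕ => (h.eval (p : ℤ)).natAbs) (fun _ _ => Nat.zero_le _)
      (Nat.mem_primeFactors.2 ⟨hp, hpm, by omega⟩)

end Pool.Agent.Q51.MD
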