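import Pool.Agent.Q51.MD.PVa

set_option autoImplicit false

/-!
# Sums over primes of polynomial phases: the diophantine step
-/

namespace Pool.Agent.Q51.MD

open Finset
open Pool.Agent.H442R2.EHI (nint)
open Pool.Agent.H724R2.BH (count_inv)

/-- many pairs `(k, k')` with `(k^d - k'^d) α` very close to an integer: `α` is very close to a
rational with a small denominator -/
theorem core_dio (d : ℕ) (hd : 1 ≤ d) (U : ℕ) : ∃ (E : ℕ) (L0 : ℝ), ∀ L : ℝ, L0 ≤ L →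
    ∀ K : ℕ, 1 ≤ K → L ^ E ≤ K → ∀ Δ α : ℝ, 0 ≤ Δ → Δ * L ^ E ≤ 1 →
    (K : ℝ) ^ 2 / L ^ U < (((Ioc K (2 * K) ×ˢ Ioc K (2 * K)).filter (fun kk : ℕ × ℕ =>
      nint (((((kk.1 ^ d : ℕ) : ℤ) - ((kk.2 ^ d : ℕ) : ℤ) : ℤ) : ℝ) * α) ≤ Δ)).card : ℝ) →
    ∃ q : ℕ, 1 ≤ q ∧ (q : ℝ) ≤ L ^ E ∧ ∃ b : ℤ, |q * α - b| ≤ L ^ E * Δ / (K : ℝ) ^ d := by
  obtain ⟨E1, L1, h1⟩ := count_inv d hd (U + 3) 1
  set E : ℕ := E1 + (U + (2 * E1 + 1)) + 2 with hE
  refine ⟨E, max L1 5, ?_⟩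
  intro L hL K hK hKE Δ α hΔ hΔE hcard
  have hL1 : L1 ≤ L := (le_max_left _ _).trans hL
  have hL5 : 5 ≤ L := (le_max_right _ _).trans hL
  have hLpos : 0 < L := by linarith
  have hLone : 1 ≤ L := by linarith
  have hK0 : (0 : ℝ) < K := by exact_mod_cast hK
  have hLE1 : L ^ E1 ≤ L ^ E := pow_le_pow_right₀ hLone (by omega)
  have hΔE1 : Δ * L ^ E1 ≤ 1 := (mul_le_mul_of_nonneg_left hLE1 hΔ).trans hΔE
  obtain ⟨q, hq1, hq2, b, hb⟩ := h1 L hL1 (2 * K) K (by omega) (by omega) (by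
      push_cast; rw [pow_one]; nlinarith) Δ α hΔ hΔE1 (by
      refine lt_of_le_of_lt ?_ hcard
      push_cast
      rw [div_le_div_iff₀ (by positivity) (by positivity), pow_add]
      have h3 : (4 : ℝ) ≤ L ^ 3 := by nlinarith [pow_pos hLpos 2, pow_pos hLpos 3, sq_nonneg L]
      have h4 : 0 ≤ (K : ℝ) ^ 2 * L ^ U := by positivity
      nlinarith)
  set P := (Ioc K (2 * K) ×ˢ Ioc K (2 * K)).filter (fun kk : ℕ × ℕ =>
      nint (((((kk.1 ^ d : ℕ) : ℤ) - ((kk.2 ^ d : ℕ) : ℤ) : ℤ) : ℝ) * α) ≤ Δ) with hP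
  have hq0 : (0 : ℝ) < q := by exact_mod_cast hq1
  set β : ℝ := α - b / q with hβ
  -- the integer attached to a pair
  set jj : ℕ × ℕ → ℤ := fun kk => ((kk.1 ^ d : ℕ) : ℤ) - ((kk.2 ^ d : ℕ) : ℤ) with hjj
  set ii : ℕ × ℕ → ℤ := fun kk => q * round ((jj kk : ℝ) * α) - jj kk * b with hii
  have hqΔ : (q : ℝ) * Δ ≤ 1 := by
    calc (q : ℝ) * Δ ≤ L ^ E1 * Δ := mul_le_mul_of_nonneg_right hq2 hΔ
      _ = Δ * L ^ E1 := by ring
      _ ≤ 1 := hΔE1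
  have hclose : ∀ kk ∈ P, |(q : ℝ) * (jj kk : ℝ) * β - (ii kk : ℝ)| ≤ q * Δ := by
    intro kk hkk
    rw [hP, mem_filter] at hkk
    have h2 := hkk.2
    unfold nint at h2
    have e : (q : ℝ) * (jj kk : ℝ) * β - (ii kk : ℝ) =
        q * ((jj kk : ℝ) * α - round ((jj kk : ℝ) * α)) := by
      simp only [hii, hβ]
      push_cast
      field_simp
      ring
    rw [e, abs_mul, abs_of_pos hq0]
    exact mul_le_mul_of_nonneg_left h2 hq0.le
  have hjb : ∀ kk ∈ P, |(jj kk : ℝ)| ≤ (2 * (K : ℝ)) ^ d := by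
    intro kk hkk
    rw [hP, mem_filter, mem_product, mem_Ioc, mem_Ioc] at hkk
    obtain ⟨⟨⟨_, h2⟩, ⟨_, h4⟩⟩, _⟩ := hkk
    have h2' : (kk.1 : ℝ) ≤ 2 * K := by exact_mod_cast h2
    have h4' : (kk.2 : ℝ) ≤ 2 * K := by exact_mod_cast h4
    have h5 : (kk.1 : ℝ) ^ d ≤ (2 * (K : ℝ)) ^ d := pow_le_pow_left₀ (by positivity) h2' d
    have h6 : (kk.2 : ℝ) ^ d ≤ (2 * (K : ℝ)) ^ d := pow_le_pow_left₀ (by positivity) h4' d
    have h7 : (0 : ℝ) ≤ (kk.1 : ℝ) ^ d := by positivity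
    have h8 : (0 : ℝ) ≤ (kk.2 : ℝ) ^ d := by positivity
    simp only [hjj]
    push_cast
    rw [abs_le]; constructor <;> linarith
  set B : ℕ := ⌊L ^ (2 * E1) + 1⌋₊ with hB
  have hBle : (B : ℝ) ≤ L ^ (2 * E1) + 1 := Nat.floor_le (by positivity)
  have hiB : ∀ kk ∈ P, ii kk ∈ Icc (-(B : ℤ)) B := by
    intro kk hkk
    have h2 := hclose kk hkk
    have h3 := hjb kk hkk
    have h4 : |(ii kk : ℝ)| ≤ L ^ (2 * E1) + 1 := by
      have h5 : |(ii kk : ℝ)| ≤ |(q : ℝ) * (jj kk : ℝ) * β| + q * Δ := by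
        have := abs_sub_abs_le_abs_sub (ii kk : ℝ) ((q : ℝ) * (jj kk : ℝ) * β)
        rw [abs_sub_comm] at this
        linarith
      have h6 : |(q : ℝ) * (jj kk : ℝ) * β| ≤ L ^ (2 * E1) := by
        rw [abs_mul, abs_mul, abs_of_pos hq0]
        have h7 : |β| ≤ L ^ E1 / (2 * (K : ℝ)) ^ d := by
          rw [hβ]; convert hb using 2; push_cast; ring
        calc (q : ℝ) * |(jj kk : ℝ)| * |β| ≤ L ^ E1 * (2 * (K : ℝ)) ^ d * (L ^ E1 / (2 * (K : ℝ)) ^ d) := by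
              gcongr
          _ = L ^ (2 * E1) := by
              have : (2 * (K : ℝ)) ^ d ≠ 0 := by positivity
              field_simp
              ring
      linarith
    rw [abs_le] at h4
    rw [mem_Icc]
    have h8 : (ii kk).natAbs ≤ B := by
      rw [hB]
      apply Nat.le_floor
      rw [Nat.cast_natAbs, Int.cast_abs, abs_le]
      exact h4
    omega
  -- pigeonhole
  set V : ℝ := L ^ (U + (2 * E1 + 1)) with hV
  have hV0 : 0 < V := by positivity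
  have hV1 : 1 ≤ V := one_le_pow₀ hLone
  obtain ⟨y, hy, hfib⟩ := exists_le_card_fiber_of_nsmul_le_card_of_maps_to
    (s := P) (t := Ioc K (2 * K) ×ˢ Icc (-(B : ℤ)) B) (f := fun kk => (kk.2, ii kk))
    (b := (K : ℝ) / V)
    (by
      intro kk hkk
      rw [mem_product]
      refine ⟨?_, hiB kk hkk⟩
      have h2 := hkk
      rw [hP, mem_filter, mem_product] at h2
      exact h2.1.2)
    ⟨(2 * K, 0), by rw [mem_product, mem_Ioc, mem_Icc]; constructor <;> constructor <;> simp <;> omega⟩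
    (by
      refine le_trans ?_ hcard.le
      rw [nsmul_eq_mul, card_product, Nat.card_Ioc, Int.card_Icc]
      have e1 : 2 * K - K = K := by omega
      have e2 : ((B : ℤ) + 1 - (-(B : ℤ))).toNat = 2 * B + 1 := by omega
      rw [e1, e2]
      push_cast
      have h2 : (2 * (B : ℝ) + 1) ≤ L ^ (2 * E1 + 1) := by
        have h3 : 1 ≤ L ^ (2 * E1) := one_le_pow₀ hLone
        rw [pow_succ]
        nlinarith
      have h4 : (K : ℝ) * (2 * B + 1) * (K / V) ≤ K * L ^ (2 * E1 + 1) * (K / V) := by gcongr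
      refine h4.trans (le_of_eq ?_)
      rw [hV]
      have : L ^ (2 * E1 + 1) ≠ 0 := by positivity
      have : L ^ U ≠ 0 := by positivity
      field_simp
      rw [← pow_add]
      congr 1; omega)
  set S := (P.filter (fun kk => (kk.2, ii kk) = y)).image Prod.fst with hS
  have hScard : (K : ℝ) / V ≤ S.card := by
    rw [hS, card_image_of_injOn]
    · exact hfib
    · rintro ⟨k1, k2⟩ h2 ⟨k3, k4⟩ h3 h4
      simp only [coe_filter, Set.mem_ofPred_eq] at h2 h3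
      have h5 := h2.2.trans h3.2.symm
      simp only [Prod.mk.injEq] at h5 ⊢
      exact ⟨h4, h5.1⟩
  have hKV : 2 ≤ (K : ℝ) / V := by
    rw [le_div_iff₀ hV0]
    refine le_trans ?_ hKE
    rw [hE, pow_add L (E1 + (U + (2 * E1 + 1))), pow_add L E1, ← hV]
    have h2 : 1 ≤ L ^ E1 := one_le_pow₀ hLone
    have h3 : (2 : ℝ) ≤ L ^ 2 := by nlinarith
    calc 2 * V ≤ L ^ 2 * V := by gcongr
      _ ≤ L ^ 2 * V * L ^ E1 := le_mul_of_one_le_right (by positivity) h2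
      _ = _ := by ring
  have hSne : S.Nonempty := by
    rw [← card_pos]
    have : (0 : ℝ) < S.card := by linarith
    exact_mod_cast this
  set k1 := S.min' hSne with hk1
  set k2 := S.max' hSne with hk2
  have hk12 : k1 ≤ k2 := S.min'_le_max' hSne
  have hSsub : S ⊆ Icc k1 k2 := fun k hk => by
    rw [mem_Icc]; exact ⟨S.min'_le k hk, S.le_max' k hk⟩
  have hcardle : S.card ≤ k2 + 1 - k1 := by
    have := card_le_card hSsub
    rwa [Nat.card_Icc] at this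
  have hgap : (K : ℝ) / (2 * V) ≤ (k2 : ℝ) - k1 := by
    have h2 : (S.card : ℝ) ≤ k2 + 1 - k1 := by
      have h3 : S.card + k1 ≤ k2 + 1 := by omega
      have h4 : ((S.card + k1 : ℕ) : ℝ) ≤ ((k2 + 1 : ℕ) : ℝ) := by exact_mod_cast h3
      push_cast at h4; linarith
    have h5 : (K : ℝ) / (2 * V) = (K / V) / 2 := by field_simp
    rw [h5]; linarith
  have hmem : ∀ k ∈ S, K < k ∧ |(q : ℝ) * ((k : ℝ) ^ d - (y.1 : ℝ) ^ d) * β - (y.2 : ℝ)| ≤ q * Δ := by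
    intro k hk
    rw [hS, mem_image] at hk
    obtain ⟨kk, hkk, rfl⟩ := hk
    rw [mem_filter] at hkk
    have h2 := hclose kk hkk.1
    have h3 := hkk.1
    rw [hP, mem_filter, mem_product, mem_Ioc] at h3
    refine ⟨h3.1.1.1, ?_⟩
    rw [← hkk.2]
    simp only [hjj] at h2
    push_cast at h2
    exact h2
  have hm1 := hmem k1 (S.min'_mem hSne)
  have hm2 := hmem k2 (S.max'_mem hSne)
  have hdiff : (q : ℝ) * ((k2 : ℝ) ^ d - (k1 : ℝ) ^ d) * |β| ≤ 2 * (q * Δ) := by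
    have h3 : (0 : ℝ) ≤ (k2 : ℝ) ^ d - (k1 : ℝ) ^ d := by
      have : (k1 : ℝ) ^ d ≤ (k2 : ℝ) ^ d := pow_le_pow_left₀ (by positivity) (by exact_mod_cast hk12) d
      linarith
    have h4 : (q : ℝ) * ((k2 : ℝ) ^ d - (k1 : ℝ) ^ d) * |β| =
        |((q : ℝ) * ((k2 : ℝ) ^ d - (y.1 : ℝ) ^ d) * β - (y.2 : ℝ)) -
          ((q : ℝ) * ((k1 : ℝ) ^ d - (y.1 : ℝ) ^ d) * β - (y.2 : ℝ))| := by
      have e : ((q : ℝ) * ((k2 : ℝ) ^ d - (y.1 : ℝ) ^ d) * β - (y.2 : ℝ)) -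
          ((q : ℝ) * ((k1 : ℝ) ^ d - (y.1 : ℝ) ^ d) * β - (y.2 : ℝ)) =
          q * ((k2 : ℝ) ^ d - (k1 : ℝ) ^ d) * β := by ring
      rw [e, abs_mul, abs_mul, abs_of_pos hq0, abs_of_nonneg h3]
    rw [h4]
    refine (abs_sub _ _).trans ?_
    linarith [hm1.2, hm2.2]
  have hpow : (K : ℝ) ^ d / (2 * V) ≤ (k2 : ℝ) ^ d - (k1 : ℝ) ^ d := by
    obtain ⟨e, rfl⟩ : ∃ e, d = e + 1 := ⟨d - 1, by omega⟩
    have h3 : (K : ℝ) ≤ k2 := by exact_mod_cast hm2.1.le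
    have h4 : (k1 : ℝ) ≤ k2 := by exact_mod_cast hk12
    have h5 : (k1 : ℝ) ^ e ≤ (k2 : ℝ) ^ e := pow_le_pow_left₀ (by positivity) h4 e
    have h6 : (K : ℝ) ^ e ≤ (k2 : ℝ) ^ e := pow_le_pow_left₀ (by positivity) h3 e
    have h7 : ((k2 : ℝ) - k1) * (K : ℝ) ^ e ≤ (k2 : ℝ) ^ (e + 1) - (k1 : ℝ) ^ (e + 1) := by
      rw [pow_succ, pow_succ]
      have h8 : (k1 : ℝ) ^ e * k1 ≤ (k2 : ℝ) ^ e * k1 := by gcongr
      have h9 : ((k2 : ℝ) - k1) * (K : ℝ) ^ e ≤ ((k2 : ℝ) - k1) * (k2 : ℝ) ^ e :=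
        mul_le_mul_of_nonneg_left h6 (by linarith)
      nlinarith
    refine le_trans ?_ h7
    have h8 : (K : ℝ) ^ (e + 1) / (2 * V) = (K / (2 * V)) * (K : ℝ) ^ e := by
      rw [pow_succ]; ring
    rw [h8]
    gcongr
  have hβfin : |β| ≤ 4 * V * Δ / (K : ℝ) ^ d := by
    have hKd : (0 : ℝ) < (K : ℝ) ^ d := by positivity
    rw [le_div_iff₀ hKd]
    have h3 : (q : ℝ) * ((K : ℝ) ^ d / (2 * V)) * |β| ≤ 2 * (q * Δ) := by
      refine le_trans ?_ hdiff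
      gcongr
    have h4 : (K : ℝ) ^ d * |β| ≤ 4 * V * Δ := by
      have h5 : (q : ℝ) * ((K : ℝ) ^ d / (2 * V)) * |β| = (q / (2 * V)) * ((K : ℝ) ^ d * |β|) := by
        field_simp
      have h6 : 2 * ((q : ℝ) * Δ) = (q / (2 * V)) * (4 * V * Δ) := by
        field_simp; ring
      rw [h5, h6] at h3
      exact le_of_mul_le_mul_left h3 (by positivity)
    linarith
  refine ⟨q, hq1, hq2.trans hLE1, b, ?_⟩
  have e : (q : ℝ) * α - b = q * β := by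
    rw [hβ]; field_simp
  rw [e, abs_mul, abs_of_pos hq0]
  calc (q : ℝ) * |β| ≤ L ^ E1 * (4 * V * Δ / (K : ℝ) ^ d) := by gcongr
    _ ≤ L ^ E1 * (L ^ 2 * V * Δ / (K : ℝ) ^ d) := by
        have : (4 : ℝ) ≤ L ^ 2 := by nlinarith
        gcongr
    _ = L ^ E * Δ / (K : ℝ) ^ d := by
        rw [hE, pow_add L (E1 + (U + (2 * E1 + 1))), pow_add L E1, ← hV]
        ring

end Pool.Agent.Q51.MD
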