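import Pool.Agent.Q51.MD.PVb

set_option autoImplicit false

/-!
# Sums over primes of polynomial phases: bilinear sums
-/

namespace Pool.Agent.Q51.MD

open Finset Polynomial
open Pool.Agent.Helper602.MK (ee)
open Pool.Agent.Helper602.MK.N_J5b (ee_eq ee_add ee_zero ee_conj norm_ee ee_int ee_nat_mul)
open Pool.Agent.H442R2.EHI (nint)

/-- `α` is within `P / N ^ d` of a rational of denominator at most `P`, after multiplication by it -/
def Maj (P : ℝ) (d : ℕ) (N : ℝ) (α : ℝ) : Prop :=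
  ∃ q : ℕ, 1 ≤ q ∧ (q : ℝ) ≤ P ∧ ∃ b : ℤ, |q * α - b| ≤ P / N ^ d

/-- the phase of the correlation of two rows -/
theorem row_poly (F : ℝ[X]) (d : ℕ) (hF : F.natDegree ≤ d) (k k' : ℕ) :
    ∃ G : ℝ[X], G.natDegree ≤ d ∧ G.coeff d = F.coeff d * ((k : ℝ) ^ d - (k' : ℝ) ^ d) ∧
      ∀ m : ℕ, G.eval (m : ℝ) = F.eval ((m : ℝ) * k) - F.eval ((m : ℝ) * k') := by
  refine ⟨F.comp (C (k : ℝ) * X) - F.comp (C (k' : ℝ) * X), ?_, ?_, ?_⟩
  · have h : ∀ r : ℝ, (F.comp (C r * X)).natDegree ≤ d := by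
      intro r
      rw [natDegree_le_iff_coeff_eq_zero]
      intro j hj
      rw [comp_C_mul_X_coeff, coeff_eq_zero_of_natDegree_lt (lt_of_le_of_lt hF hj), zero_mul]
    exact (natDegree_sub_le _ _).trans (max_le (h _) (h _))
  · rw [coeff_sub, comp_C_mul_X_coeff, comp_C_mul_X_coeff]; ring
  · intro m
    rw [eval_sub, eval_comp, eval_comp]
    simp only [eval_mul, eval_C, eval_X]
    rw [mul_comm (k : ℝ), mul_comm (k' : ℝ)]

/-- the sum over a row pair is a sum over an interval -/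
theorem row_sum (F G : ℝ[X]) (k k' N N' M : ℕ) (hk : 1 ≤ k) (hk' : 1 ≤ k')
    (hG : ∀ m : ℕ, G.eval (m : ℝ) = F.eval ((m : ℝ) * k) - F.eval ((m : ℝ) * k')) :
    ∑ m ∈ Ioc M (2 * M), (if N < m * k ∧ m * k ≤ N' then ee (F.eval (((m * k : ℕ)) : ℝ)) else 0) *
      (starRingEnd ℂ) (if N < m * k' ∧ m * k' ≤ N' then ee (F.eval (((m * k' : ℕ)) : ℝ)) else 0) =
    ∑ m ∈ Ioc (max M (max (N / k) (N / k'))) (min (2 * M) (min (N' / k) (N' / k'))), ee (G.eval (m : ℝ)) := by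
  have hsub : Ioc (max M (max (N / k) (N / k'))) (min (2 * M) (min (N' / k) (N' / k'))) ⊆ Ioc M (2 * M) := by
    intro m hm
    rw [mem_Ioc] at hm ⊢
    omega
  rw [← sum_subset hsub]
  · apply sum_congr rfl
    intro m hm
    rw [mem_Ioc] at hm
    obtain ⟨h1, h2⟩ := hm
    have h3 : N / k < m := by omega
    have h4 : N / k' < m := by omega
    have h5 : m ≤ N' / k := by omega
    have h6 : m ≤ N' / k' := by omega
    rw [Nat.div_lt_iff_lt_mul (by omega)] at h3 h4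
    rw [Nat.le_div_iff_mul_le (by omega)] at h5 h6
    rw [if_pos ⟨h3, h5⟩, if_pos ⟨h4, h6⟩, ee_conj, ← ee_add, hG]
    push_cast
    rw [sub_eq_add_neg]
  · intro m hm hm'
    rw [mem_Ioc] at hm hm'
    by_cases h1 : N < m * k ∧ m * k ≤ N'
    · by_cases h2 : N < m * k' ∧ m * k' ≤ N'
      · exfalso
        apply hm'
        have h3 : N / k < m := by rw [Nat.div_lt_iff_lt_mul (by omega)]; exact h1.1
        have h4 : N / k' < m := by rw [Nat.div_lt_iff_lt_mul (by omega)]; exact h2.1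
        have h5 : m ≤ N' / k := by rw [Nat.le_div_iff_mul_le (by omega)]; exact h1.2
        have h6 : m ≤ N' / k' := by rw [Nat.le_div_iff_mul_le (by omega)]; exact h2.2
        omega
      · rw [if_neg h2, map_zero, mul_zero]
    · rw [if_neg h1, zero_mul]

/-- bilinear sums -/
theorem typeII (d : ℕ) (hd : 1 ≤ d) (A : ℕ) : ∃ (E : ℕ) (L0 : ℝ), ∀ L : ℝ, L0 ≤ L →
    ∀ N N' M K : ℕ, 1 ≤ N → N' ≤ 2 * N → 1 ≤ M → 1 ≤ K → L ^ E ≤ M → L ^ E ≤ K → M * K ≤ N' →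
    ∀ F : ℝ[X], F.natDegree ≤ d → ¬ Maj (L ^ E) d N (F.coeff d) →
    ∀ (a b : ℕ → ℂ) (A₂ B₂ : ℝ), 0 ≤ A₂ → 0 ≤ B₂ →
      ∑ m ∈ Ioc M (2 * M), ‖a m‖ ^ 2 ≤ A₂ * M → ∑ l ∈ Ioc K (2 * K), ‖b l‖ ^ 2 ≤ B₂ * K →
      ‖∑ m ∈ Ioc M (2 * M), ∑ l ∈ Ioc K (2 * K),
        a m * b l * (if N < m * l ∧ m * l ≤ N' then ee (F.eval (((m * l : ℕ)) : ℝ)) else 0)‖ ^ 2 ≤
        A₂ * B₂ * (N / L ^ A) ^ 2 := by
  classical
  obtain ⟨c, μ, hc, hW⟩ := weyl_inv d hd
  -- the saving in the correlations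
  set w : ℕ := 2 * (2 * A + 2) + 1 with hw
  set U : ℕ := w + (1 + w * μ) with hU
  obtain ⟨E1, L1, hcore⟩ := core_dio d hd U
  set E : ℕ := E1 + (1 + w * μ) + d + 1 with hE
  refine ⟨E, max (max L1 4) c, ?_⟩
  intro L hL N N' M K hN hN' hM hK hLM hLK hMK F hF hmaj a b A₂ B₂ hA₂ hB₂ ha hb
  have hL1 : L1 ≤ L := ((le_max_left _ _).trans (le_max_left _ _)).trans hL
  have hL4 : 4 ≤ L := ((le_max_right _ _).trans (le_max_left _ _)).trans hL
  have hLc : (c : ℝ) ≤ L := (le_max_right _ _).trans hL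
  have hLpos : 0 < L := by linarith
  have hLone : 1 ≤ L := by linarith
  have hN0 : (0 : ℝ) < N := by exact_mod_cast hN
  have hM0 : (0 : ℝ) < M := by exact_mod_cast hM
  have hK0 : (0 : ℝ) < K := by exact_mod_cast hK
  have hc0 : (0 : ℝ) < c := by exact_mod_cast hc
  set KK : ℕ → ℕ → ℂ := fun m l =>
    if N < m * l ∧ m * l ≤ N' then ee (F.eval (((m * l : ℕ)) : ℝ)) else 0 with hKK
  rcases lt_or_ge (4 * (M * K)) N with hsmall | hbig
  · have h0 : ∑ m ∈ Ioc M (2 * M), ∑ l ∈ Ioc K (2 * K), a m * b l * KK m l = 0 := by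
      apply sum_eq_zero; intro m hm
      apply sum_eq_zero; intro l hl
      rw [mem_Ioc] at hm hl
      simp only [hKK]
      rw [if_neg, mul_zero]
      rintro ⟨h1, _⟩
      have : m * l ≤ (2 * M) * (2 * K) := Nat.mul_le_mul hm.2 hl.2
      have e : (2 * M) * (2 * K) = 4 * (M * K) := by ring
      omega
    rw [h0, norm_zero, zero_pow (by norm_num)]
    positivity
  set T : ℕ → ℕ → ℝ := fun l l' => ‖∑ m ∈ Ioc M (2 * M), KK m l * (starRingEnd ℂ) (KK m l')‖ with hT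
  have hcs := cs_bil (Ioc M (2 * M)) (Ioc K (2 * K)) a b KK
  have hKK1 : ∀ m l, ‖KK m l‖ ≤ 1 := by
    intro m l
    simp only [hKK]
    split_ifs
    · rw [norm_ee]
    · rw [norm_zero]; norm_num
  have hT1 : ∀ l l', T l l' ≤ M := by
    intro l l'
    refine (norm_sum_le _ _).trans ?_
    have : ∀ m ∈ Ioc M (2 * M), ‖KK m l * (starRingEnd ℂ) (KK m l')‖ ≤ 1 := by
      intro m _
      rw [norm_mul, Complex.norm_conj]
      exact mul_le_one₀ (hKK1 _ _) (norm_nonneg _) (hKK1 _ _)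
    refine (sum_le_sum this).trans (le_of_eq ?_)
    rw [sum_const, Nat.card_Ioc, nsmul_eq_mul, mul_one]
    congr 1; omega
  have hT0 : ∀ l l', 0 ≤ T l l' := fun l l' => norm_nonneg _
  set u : ℝ := L ^ w with hu
  have hu1 : 1 ≤ u := one_le_pow₀ hLone
  have hu0 : 0 < u := by linarith
  set P := (Ioc K (2 * K) ×ˢ Ioc K (2 * K)).filter (fun kk : ℕ × ℕ => (M : ℝ) < u * T kk.1 kk.2) with hP
  have hPle : (P.card : ℝ) ≤ (K : ℝ) ^ 2 / u := by
    by_contra hcon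
    push Not at hcon
    -- every pair in `P` gives a denominator
    have hden : ∀ kk ∈ P, ∃ q : ℕ, 1 ≤ q ∧ (q : ℝ) ≤ c * u ^ μ ∧ ∃ z : ℤ,
        |q * (F.coeff d * ((kk.1 : ℝ) ^ d - (kk.2 : ℝ) ^ d)) - z| ≤ c * u ^ μ / (M : ℝ) ^ d := by
      intro kk hkk
      rw [hP, mem_filter, mem_product, mem_Ioc, mem_Ioc] at hkk
      obtain ⟨G, hG1, hG2, hG3⟩ := row_poly F d hF kk.1 kk.2
      have hrow := row_sum F G kk.1 kk.2 N N' M (by omega) (by omega) hG3
      have h2 := hkk.2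
      simp only [hT, hKK] at h2
      rw [hrow] at h2
      obtain ⟨q, hq1, hq2, z, hz⟩ := hW _ _ (M : ℝ) u G hM0 (by
        have : min (2 * M) (min (N' / kk.1) (N' / kk.2)) - max M (max (N / kk.1) (N / kk.2)) ≤ M := by omega
        exact_mod_cast this) hu1 hG1 h2.le
      exact ⟨q, hq1, hq2, z, by rw [hG2] at hz; exact hz⟩
    set Q : ℕ := ⌊(c : ℝ) * u ^ μ⌋₊ with hQ
    have hQle : (Q : ℝ) ≤ c * u ^ μ := Nat.floor_le (by positivity)
    have hcu : (c : ℝ) * u ^ μ ≤ L ^ (1 + w * μ) := by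
      rw [hu, ← pow_mul, pow_add, pow_one]
      gcongr
    have hPne : P.Nonempty := by
      rw [← card_pos]
      have h2 : (0 : ℝ) < P.card := lt_of_le_of_lt (by positivity) hcon
      exact_mod_cast h2
    choose! qf hqf using hden
    have hQ1 : 1 ≤ Q := by
      obtain ⟨kk, hkk⟩ := hPne
      obtain ⟨h2, h3, _⟩ := hqf kk hkk
      rw [hQ]
      exact Nat.le_floor (by exact_mod_cast le_trans (by exact_mod_cast h2) h3)
    have hcon' : (K : ℝ) ^ 2 / u < P.card := hcon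
    obtain ⟨q, hqm, hfib⟩ := exists_le_card_fiber_of_nsmul_le_card_of_maps_to
      (s := P) (t := Icc 1 Q) (f := qf) (b := (P.card : ℝ) / Q)
      (by
        intro kk hkk
        obtain ⟨h2, h3, _⟩ := hqf kk hkk
        rw [mem_Icc]
        exact ⟨h2, Nat.le_floor h3⟩)
      ⟨1, by rw [mem_Icc]; omega⟩
      (by
        rw [nsmul_eq_mul, Nat.card_Icc]
        have : (Q : ℝ) ≠ 0 := by
          have : (0 : ℝ) < Q := by exact_mod_cast hQ1
          exact this.ne'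
        simp only [Nat.add_sub_cancel]
        field_simp
        exact le_rfl)
    rw [mem_Icc] at hqm
    have hq0 : (0 : ℝ) < q := by exact_mod_cast hqm.1
    have hQ0 : (0 : ℝ) < Q := by exact_mod_cast hQ1
    set Δ : ℝ := c * u ^ μ / (M : ℝ) ^ d with hΔ
    have hΔ0 : 0 ≤ Δ := by positivity
    have hMd : (M : ℝ) ≤ (M : ℝ) ^ d := by
      have : (1 : ℝ) ≤ M := by exact_mod_cast hM
      exact le_self_pow₀ this (by omega)
    have hΔE : Δ * L ^ E1 ≤ 1 := by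
      rw [hΔ, div_mul_eq_mul_div, div_le_one (by positivity)]
      calc (c : ℝ) * u ^ μ * L ^ E1 ≤ L ^ (1 + w * μ) * L ^ E1 := by gcongr
        _ = L ^ (E1 + (1 + w * μ)) := by rw [← pow_add]; congr 1; omega
        _ ≤ L ^ E := pow_le_pow_right₀ hLone (by omega)
        _ ≤ M := hLM
        _ ≤ _ := hMd
    have hKE : L ^ E1 ≤ K := (pow_le_pow_right₀ hLone (by omega)).trans hLK
    obtain ⟨q2, h21, h22, z, hz⟩ := hcore L hL1 K hK hKE Δ (q * F.coeff d) hΔ0 hΔE (by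
      refine lt_of_lt_of_le ?_ (hfib.trans ?_)
      · rw [hU, pow_add]
        have h2 : (K : ℝ) ^ 2 / (L ^ w * L ^ (1 + w * μ)) = (K : ℝ) ^ 2 / u / L ^ (1 + w * μ) := by
          rw [hu, div_div]
        rw [h2]
        calc (K : ℝ) ^ 2 / u / L ^ (1 + w * μ) < P.card / L ^ (1 + w * μ) := by gcongr
          _ ≤ P.card / Q := by
            have := hQle.trans hcu
            gcongr
      · refine Nat.cast_le.2 (card_le_card ?_)
        intro kk hkk
        rw [mem_filter] at hkk ⊢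
        obtain ⟨h2, h3⟩ := hkk
        have h4 := h2
        rw [hP, mem_filter] at h4
        refine ⟨h4.1, ?_⟩
        obtain ⟨_, _, z, hz⟩ := hqf kk h2
        unfold nint
        refine (round_le _ z).trans ?_
        rw [h3] at hz
        have e : (((((kk.1 ^ d : ℕ) : ℤ) - ((kk.2 ^ d : ℕ) : ℤ) : ℤ) : ℝ) * (q * F.coeff d)) =
            q * (F.coeff d * ((kk.1 : ℝ) ^ d - (kk.2 : ℝ) ^ d)) := by push_cast; ring
        rw [e]
        exact hz)
    apply hmaj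
    refine ⟨q2 * q, Nat.mul_pos h21 hqm.1, ?_, z, ?_⟩
    · push_cast
      have h2 : (q : ℝ) ≤ Q := by exact_mod_cast hqm.2
      calc (q2 : ℝ) * q ≤ L ^ E1 * L ^ (1 + w * μ) := by
            have := h2.trans (hQle.trans hcu)
            gcongr
        _ = L ^ (E1 + (1 + w * μ)) := by rw [← pow_add]
        _ ≤ L ^ E := pow_le_pow_right₀ hLone (by omega)
    · have e : ((q2 * q : ℕ) : ℝ) * F.coeff d - z = q2 * (q * F.coeff d) - z := by push_cast; ring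
      rw [e]
      refine hz.trans ?_
      rw [hΔ]
      have hbig' : (N : ℝ) ≤ 4 * (M * K) := by exact_mod_cast hbig
      have h3 : (N : ℝ) ^ d ≤ 4 ^ d * ((M : ℝ) ^ d * (K : ℝ) ^ d) := by
        rw [← mul_pow, ← mul_pow]
        exact pow_le_pow_left₀ hN0.le hbig' d
      rw [mul_div_assoc', div_div, div_le_div_iff₀ (by positivity) (by positivity)]
      calc L ^ E1 * (c * u ^ μ) * (N : ℝ) ^ d ≤
          L ^ E1 * L ^ (1 + w * μ) * (4 ^ d * ((M : ℝ) ^ d * (K : ℝ) ^ d)) := by gcongr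
        _ ≤ L ^ E1 * L ^ (1 + w * μ) * (L ^ (d + 1) * ((M : ℝ) ^ d * (K : ℝ) ^ d)) := by
            have h4 : (4 : ℝ) ^ d ≤ L ^ (d + 1) :=
              (pow_le_pow_left₀ (by norm_num) hL4 d).trans (pow_le_pow_right₀ hLone (by omega))
            gcongr
        _ = _ := by rw [hE]; ring
  have hsumT : ∑ l ∈ Ioc K (2 * K), ∑ l' ∈ Ioc K (2 * K), T l l' ^ 2 ≤
      ((K : ℝ) * M / L ^ (2 * A + 2)) ^ 2 := by
    rw [← sum_product' (f := fun l l' => T l l' ^ 2)]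
    have h2 : ∀ kk ∈ Ioc K (2 * K) ×ˢ Ioc K (2 * K), T kk.1 kk.2 ^ 2 ≤
        (if (M : ℝ) < u * T kk.1 kk.2 then (M : ℝ) ^ 2 else 0) + (M / u) ^ 2 := by
      intro kk _
      split_ifs with h3
      · have := pow_le_pow_left₀ (hT0 kk.1 kk.2) (hT1 kk.1 kk.2) 2
        have h4 : 0 ≤ ((M : ℝ) / u) ^ 2 := by positivity
        linarith
      · push Not at h3
        rw [zero_add]
        apply pow_le_pow_left₀ (hT0 _ _)
        rw [le_div_iff₀ hu0]
        linarith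
    refine (sum_le_sum h2).trans ?_
    rw [sum_add_distrib, ← sum_filter, sum_const, sum_const, card_product, Nat.card_Ioc,
      nsmul_eq_mul, nsmul_eq_mul]
    have e1 : 2 * K - K = K := by omega
    rw [e1]
    have h4 : (P.card : ℝ) * (M : ℝ) ^ 2 + ((K * K : ℕ) : ℝ) * (M / u) ^ 2 ≤
        (K : ℝ) ^ 2 / u * (M : ℝ) ^ 2 + (K : ℝ) ^ 2 * (M : ℝ) ^ 2 / u := by
      have h5 : ((K * K : ℕ) : ℝ) * (M / u) ^ 2 ≤ (K : ℝ) ^ 2 * (M : ℝ) ^ 2 / u := by
        push_cast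
        rw [div_pow]
        have e : (K : ℝ) * K * ((M : ℝ) ^ 2 / u ^ 2) = (K : ℝ) ^ 2 * (M : ℝ) ^ 2 / (u * u) := by
          rw [sq u]; ring
        rw [e]
        apply div_le_div_of_nonneg_left (by positivity) hu0
        nlinarith
      have h6 : (P.card : ℝ) * (M : ℝ) ^ 2 ≤ (K : ℝ) ^ 2 / u * (M : ℝ) ^ 2 := by gcongr
      linarith
    refine h4.trans ?_
    have e2 : (K : ℝ) ^ 2 / u * (M : ℝ) ^ 2 + (K : ℝ) ^ 2 * (M : ℝ) ^ 2 / u =
        2 * ((K : ℝ) ^ 2 * (M : ℝ) ^ 2) / u := by ring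
    rw [e2, div_pow, mul_pow, ← pow_mul, hu, hw]
    rw [div_le_div_iff₀ (by positivity) (by positivity)]
    have e3 : L ^ (2 * (2 * A + 2) + 1) = L ^ ((2 * A + 2) * 2) * L := by
      rw [← pow_succ]; congr 1; ring
    rw [e3]
    have h7 : 0 ≤ (K : ℝ) ^ 2 * (M : ℝ) ^ 2 * L ^ ((2 * A + 2) * 2) := by positivity
    nlinarith
  have hsqrt : Real.sqrt (∑ l ∈ Ioc K (2 * K), ∑ l' ∈ Ioc K (2 * K), T l l' ^ 2) ≤
      (K : ℝ) * M / L ^ (2 * A + 2) := by
    rw [← Real.sqrt_sq (show 0 ≤ (K : ℝ) * M / L ^ (2 * A + 2) by positivity)]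
    exact Real.sqrt_le_sqrt hsumT
  refine hcs.trans ?_
  calc (∑ m ∈ Ioc M (2 * M), ‖a m‖ ^ 2) * ((∑ l ∈ Ioc K (2 * K), ‖b l‖ ^ 2) *
        Real.sqrt (∑ l ∈ Ioc K (2 * K), ∑ l' ∈ Ioc K (2 * K), T l l' ^ 2))
      ≤ (A₂ * M) * ((B₂ * K) * ((K : ℝ) * M / L ^ (2 * A + 2))) := by
        apply mul_le_mul ha _ (by positivity) (by positivity)
        exact mul_le_mul hb hsqrt (Real.sqrt_nonneg _) (by positivity)
    _ = A₂ * B₂ * ((M * K) ^ 2 / L ^ (2 * A + 2)) := by ring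
    _ ≤ A₂ * B₂ * (N / L ^ A) ^ 2 := by
        apply mul_le_mul_of_nonneg_left _ (by positivity)
        have h2 : (M : ℝ) * K ≤ 2 * N := by exact_mod_cast hMK.trans hN'
        have h3 : ((M : ℝ) * K) ^ 2 ≤ (2 * N) ^ 2 := pow_le_pow_left₀ (by positivity) h2 2
        rw [div_pow, ← pow_mul, div_le_div_iff₀ (by positivity) (by positivity)]
        calc ((M : ℝ) * K) ^ 2 * L ^ (A * 2) ≤ (2 * N) ^ 2 * L ^ (A * 2) := by gcongr
          _ = (N : ℝ) ^ 2 * (4 * L ^ (A * 2)) := by ring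
          _ ≤ (N : ℝ) ^ 2 * (L ^ 2 * L ^ (A * 2)) := by
              have : (4 : ℝ) ≤ L ^ 2 := by nlinarith
              gcongr
          _ = _ := by rw [← pow_add]; congr 2; ring

end Pool.Agent.Q51.MD
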