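import Pool.Agent.Q51.MD.PVc

set_option autoImplicit false

/-!
# Sums over primes of polynomial phases: minor arcs
-/

namespace Pool.Agent.Q51.MD

open Finset Polynomial Filter
open Pool.Agent.Helper602.MK (ee)
open Pool.Agent.Helper602.MK.N_J5b (ee_eq ee_add ee_zero ee_conj norm_ee ee_int ee_nat_mul)

/-- the logarithmic scale -/
noncomputable def ell (N : ℕ) : ℝ := 1 + Real.log (4 * N)

theorem ell_pow (k : ℕ) (ε : ℝ) (hε : 0 < ε) : ∃ N₀ : ℕ, ∀ N : ℕ, N₀ ≤ N → ell N ^ k ≤ ε * N := by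
  have h1 := (Real.isLittleO_pow_log_id_atTop (n := k)).bound (c := ε / 12) (by positivity)
  obtain ⟨X, hX⟩ := eventually_atTop.1 h1
  refine ⟨max ⌈X⌉₊ 1, fun N hN => ?_⟩
  have hN1 : 1 ≤ N := (le_max_right _ _).trans hN
  have hN0 : (1 : ℝ) ≤ N := by exact_mod_cast hN1
  have hXN : X ≤ N := (Nat.le_ceil X).trans (by exact_mod_cast (le_max_left _ _).trans hN)
  have he1 : 1 ≤ Real.exp 1 := by rw [← Real.exp_zero]; exact Real.exp_le_exp.2 (by norm_num)
  have he3 : Real.exp 1 ≤ 3 := by have := Real.exp_one_lt_d9; linarith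
  have hlog : ell N = Real.log (Real.exp 1 * (4 * N)) := by
    rw [Real.log_mul (Real.exp_pos 1).ne' (by positivity), Real.log_exp]; rfl
  have h2 := hX (Real.exp 1 * (4 * N)) (by nlinarith)
  rw [← hlog] at h2
  have hell : 0 ≤ ell N := by
    unfold ell
    have := Real.log_nonneg (show (1 : ℝ) ≤ 4 * N by linarith)
    linarith
  rw [Real.norm_of_nonneg (by positivity), id, Real.norm_of_nonneg (by positivity)] at h2
  refine h2.trans ?_
  have h3 : Real.exp 1 * (4 * (N : ℝ)) ≤ 12 * N := by nlinarith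
  calc ε / 12 * (Real.exp 1 * (4 * (N : ℝ))) ≤ ε / 12 * (12 * N) := by gcongr
    _ = ε * N := by ring

theorem ell_large (C : ℝ) : ∃ N₀ : ℕ, ∀ N : ℕ, N₀ ≤ N → C ≤ ell N := by
  have h1 : Tendsto (fun N : ℕ => Real.log (N : ℝ)) atTop atTop :=
    Real.tendsto_log_atTop.comp tendsto_natCast_atTop_atTop
  obtain ⟨N₀, h⟩ := eventually_atTop.1 (h1.eventually_ge_atTop C)
  refine ⟨max N₀ 1, fun N hN => ?_⟩
  have hN1 : 1 ≤ N := (le_max_right _ _).trans hN
  have hN0 : (1 : ℝ) ≤ N := by exact_mod_cast hN1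
  have h2 := h N ((le_max_left _ _).trans hN)
  have h3 : Real.log (N : ℝ) ≤ Real.log (4 * N) := Real.log_le_log (by linarith) (by linarith)
  unfold ell
  linarith

theorem Maj.mono {P P' : ℝ} {d : ℕ} {N : ℝ} {α : ℝ} (h : Maj P d N α) (hP : P ≤ P') (hN : 0 < N) :
    Maj P' d N α := by
  obtain ⟨q, h1, h2, b, h3⟩ := h
  exact ⟨q, h1, h2.trans hP, b, h3.trans (by gcongr)⟩

/-- minor arcs -/
theorem pv (d : ℕ) (hd : 1 ≤ d) (A : ℕ) : ∃ E N₀ : ℕ, ∀ N N' : ℕ, N₀ ≤ N → N ≤ N' → N' ≤ 2 * N →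
    ∀ F : ℝ[X], F.natDegree ≤ d → ¬ Maj (ell N ^ E) d N (F.coeff d) →
    ‖∑ n ∈ Ioc N N', ((ArithmeticFunction.vonMangoldt n : ℝ) : ℂ) * ee (F.eval (n : ℝ))‖ ≤
      N / ell N ^ A := by
  obtain ⟨c, μ, hc, hW⟩ := weyl_inv d hd
  obtain ⟨E2, L0, hII⟩ := typeII d hd (A + 6)
  set E : ℕ := E2 + (1 + (A + 4) * μ + (2 * E2 + 2) * d) with hE
  obtain ⟨N1, hN1⟩ := ell_large (max (max L0 14) c)
  obtain ⟨N2, hN2⟩ := ell_pow (2 * E2 + 2) 1 one_pos
  refine ⟨E, max (max N1 N2) 1, ?_⟩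
  intro N N' hN hNN' hN' F hF hmaj
  have hNN1 : N1 ≤ N := ((le_max_left _ _).trans (le_max_left _ _)).trans hN
  have hNN2 : N2 ≤ N := ((le_max_right _ _).trans (le_max_left _ _)).trans hN
  have hNone : 1 ≤ N := (le_max_right _ _).trans hN
  have hN0 : (0 : ℝ) < N := by exact_mod_cast hNone
  have hNr : (1 : ℝ) ≤ N := by exact_mod_cast hNone
  set L : ℝ := ell N with hL
  have hL0 : L0 ≤ L := ((le_max_left _ _).trans (le_max_left _ _)).trans (hN1 N hNN1)
  have hL14 : 14 ≤ L := ((le_max_right _ _).trans (le_max_left _ _)).trans (hN1 N hNN1)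
  have hLc : (c : ℝ) ≤ L := (le_max_right _ _).trans (hN1 N hNN1)
  have hLpos : 0 < L := by linarith
  have hLone : 1 ≤ L := by linarith
  have hgrow := hN2 N hNN2
  rw [one_mul] at hgrow
  set U : ℕ := ⌈2 * L ^ E2⌉₊ with hU
  have hUge : 2 * L ^ E2 ≤ U := Nat.le_ceil _
  have hUle : (U : ℝ) ≤ L ^ (E2 + 1) := by
    have h1 := Nat.ceil_lt_add_one (show 0 ≤ 2 * L ^ E2 by positivity)
    have h2 : 1 ≤ L ^ E2 := one_le_pow₀ hLone
    rw [pow_succ]
    rw [← hU] at h1
    nlinarith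
  have hU1 : 1 ≤ U := by
    have h2 : 1 ≤ L ^ E2 := one_le_pow₀ hLone
    have h3 : (1 : ℝ) ≤ U := by linarith
    exact_mod_cast h3
  have hUUle : ((U * U : ℕ) : ℝ) ≤ L ^ (2 * E2 + 2) := by
    push_cast
    calc (U : ℝ) * U ≤ L ^ (E2 + 1) * L ^ (E2 + 1) := by gcongr
      _ = _ := by rw [← pow_add]; congr 1; ring
  have hUU : U * U ≤ N := by
    have := hUUle.trans hgrow
    exact_mod_cast this
  set u : ℝ := L ^ (A + 4) with hu
  have hu1 : 1 ≤ u := one_le_pow₀ hLone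
  have hu0 : 0 < u := by linarith
  set Y : ℕ → ℝ := fun m => 2 * (N : ℝ) / m / u with hY
  have hY0 : ∀ m, 0 ≤ Y m := fun m => by simp only [hY]; positivity
  have hmain := Pool.Agent.H373R2.T7.vaughan_gen (fun n => ee (F.eval (n : ℝ))) N N' U hNone hNN' hN'
    hU1 hUU Y (N / L ^ (A + 6)) (by positivity) hY0 (by
      intro m hm b hb
      rw [mem_Icc] at hm
      have hm0 : (0 : ℝ) < m := by exact_mod_cast hm.1
      by_contra hcon
      push Not at hcon
      apply hmaj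
      set G : ℝ[X] := F.comp (C (m : ℝ) * X) with hG
      have hGd : G.natDegree ≤ d := by
        rw [natDegree_le_iff_coeff_eq_zero]
        intro j hj
        rw [hG, comp_C_mul_X_coeff, coeff_eq_zero_of_natDegree_lt (lt_of_le_of_lt hF hj), zero_mul]
      have hGe : ∀ l : ℕ, G.eval (l : ℝ) = F.eval (((m * l : ℕ)) : ℝ) := by
        intro l
        rw [hG, eval_comp]
        simp only [eval_mul, eval_C, eval_X]
        push_cast; rfl
      obtain ⟨q, hq1, hq2, z, hz⟩ := hW (N / m) b (2 * N / m) u G (by positivity) (by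
          have h1 : b - N / m ≤ 2 * N / m :=
            (Nat.sub_le _ _).trans (hb.trans (Nat.div_le_div_right hN'))
          have h2 : ((b - N / m : ℕ) : ℝ) ≤ ((2 * N / m : ℕ) : ℝ) := by exact_mod_cast h1
          refine h2.trans ?_
          have h3 : ((2 * N / m : ℕ) : ℝ) ≤ ((2 * N : ℕ) : ℝ) / (m : ℝ) := Nat.cast_div_le
          push_cast at h3
          exact h3) hu1 hGd (by
          simp_rw [hGe]
          simp only [hY] at hcon
          rw [div_lt_iff₀ hu0] at hcon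
          rw [mul_comm u]
          exact hcon.le)
      refine ⟨q * m ^ d, Nat.mul_pos hq1 (pow_pos (by omega) _), ?_, z, ?_⟩
      · push_cast
        have h1 : (m : ℝ) ≤ L ^ (2 * E2 + 2) := by
          refine le_trans ?_ hUUle
          exact_mod_cast hm.2
        calc (q : ℝ) * (m : ℝ) ^ d ≤ (c * u ^ μ) * (L ^ (2 * E2 + 2)) ^ d := by gcongr
          _ ≤ (L * u ^ μ) * (L ^ (2 * E2 + 2)) ^ d := by gcongr
          _ = L ^ (1 + (A + 4) * μ + (2 * E2 + 2) * d) := by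
              rw [hu, ← pow_mul, ← pow_mul]; ring
          _ ≤ L ^ E := pow_le_pow_right₀ hLone (by omega)
      · have e : ((q * m ^ d : ℕ) : ℝ) * F.coeff d - z = q * G.coeff d - z := by
          rw [hG, comp_C_mul_X_coeff]; push_cast; ring
        rw [e]
        refine hz.trans ?_
        have h1 : (m : ℝ) ≤ L ^ (2 * E2 + 2) := by
          refine le_trans ?_ hUUle
          exact_mod_cast hm.2
        rw [div_pow, div_le_div_iff₀ (by positivity) (by positivity)]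
        have h2 : (N : ℝ) ^ d ≤ (2 * (N : ℝ)) ^ d := pow_le_pow_left₀ hN0.le (by linarith) d
        have h3 : (c : ℝ) * u ^ μ * (m : ℝ) ^ d ≤ L ^ E := by
          calc (c : ℝ) * u ^ μ * (m : ℝ) ^ d ≤ (L * u ^ μ) * (L ^ (2 * E2 + 2)) ^ d := by gcongr
            _ = L ^ (1 + (A + 4) * μ + (2 * E2 + 2) * d) := by
                rw [hu, ← pow_mul, ← pow_mul]; ring
            _ ≤ L ^ E := pow_le_pow_right₀ hLone (by omega)
        have hmd : (0 : ℝ) < (m : ℝ) ^ d := by positivity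
        have h4 : (c : ℝ) * u ^ μ * (N : ℝ) ^ d ≤ L ^ E * ((2 * (N : ℝ)) ^ d / (m : ℝ) ^ d) := by
          rw [mul_div_assoc', le_div_iff₀ hmd]
          calc (c : ℝ) * u ^ μ * (N : ℝ) ^ d * (m : ℝ) ^ d = (c : ℝ) * u ^ μ * (m : ℝ) ^ d * (N : ℝ) ^ d := by
                ring
            _ ≤ L ^ E * (2 * (N : ℝ)) ^ d := by gcongr
        exact h4) (by
      intro a b A₂ B₂ hA₂ hB₂ M K hM hK hM2 hK2 hMK ha hb
      have hLM : L ^ E2 ≤ M := by
        have h1 : (U : ℝ) ≤ 2 * M := by exact_mod_cast hM2.le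
        linarith
      have hLK : L ^ E2 ≤ K := by
        have h1 : (U : ℝ) ≤ 2 * K := by exact_mod_cast hK2.le
        linarith
      exact hII L hL0 N N' M K hNone hN' hM hK hLM hLK hMK F hF
        (fun h => hmaj (h.mono (pow_le_pow_right₀ hLone (by omega)) hN0)) a b A₂ B₂ hA₂ hB₂ ha hb)
  refine hmain.trans ?_
  have hLdef : 1 + Real.log (4 * (N : ℝ)) = L := rfl
  rw [hLdef]
  have hharm : ∑ m ∈ Icc 1 (U * U), Y m ≤ 2 * N / u * L := by
    have e1 : ∑ m ∈ Icc 1 (U * U), Y m = 2 * N / u * ∑ m ∈ Icc 1 (U * U), ((m : ℝ))⁻¹ := by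
      rw [mul_sum]
      apply sum_congr rfl
      intro m _
      simp only [hY]
      rw [div_div, mul_comm (m : ℝ) u, ← div_div, div_eq_mul_inv (2 * (N : ℝ) / u)]
    rw [e1]
    apply mul_le_mul_of_nonneg_left _ (by positivity)
    have h1 := harmonic_le_one_add_log (U * U)
    rw [harmonic_eq_sum_Icc] at h1
    push_cast at h1
    refine h1.trans ?_
    have h2 : Real.log ((U : ℝ) * U) ≤ Real.log (4 * N) := by
      apply Real.log_le_log
      · have : (0 : ℝ) < U := by exact_mod_cast hU1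
        positivity
      · have : ((U * U : ℕ) : ℝ) ≤ N := by exact_mod_cast hUU
        push_cast at this
        linarith
    rw [← hLdef]
    linarith
  have h3 : 3 * L * ∑ m ∈ Icc 1 (U * U), Y m ≤ 3 * L * (2 * N / u * L) := by gcongr
  have h4 : 8 * L ^ 5 * (N / L ^ (A + 6)) = 8 / L * (N / L ^ A) := by
    rw [pow_add]; field_simp
  have h5 : 3 * L * (2 * N / u * L) = 6 / L ^ 2 * (N / L ^ A) := by
    rw [hu, pow_add]; field_simp; ring
  rw [h4]
  rw [h5] at h3
  have h6 : 8 / L + 6 / L ^ 2 ≤ 1 := by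
    have h7 : 8 / L ≤ 8 / 14 := by gcongr
    have h8 : 6 / L ^ 2 ≤ 6 / 14 ^ 2 := by gcongr
    norm_num at h7 h8 ⊢
    linarith
  have h7 : 0 ≤ N / L ^ A := by positivity
  nlinarith

end Pool.Agent.Q51.MD
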