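import Pool.Agent.Q51.MD.PVd
import Pool.Agent.W762.EC.Swc

set_option autoImplicit false

/-!
# Siegel-Walfisz for primes in arithmetic progressions
-/

namespace Pool.Agent.Q51.MD

open Finset Filter
open Pool.Agent.H262R3.Lk.SWQ (SS av)

/-- the weight `log p` on primes -/
noncomputable def lp (n : ℕ) : ℝ := if n.Prime then Real.log n else 0

theorem lp_nonneg (n : ℕ) : 0 ≤ lp n := by
  unfold lp
  split_ifs
  · exact Real.log_natCast_nonneg n
  · exact le_rfl

theorem sum_log_primeFactors (Q : ℕ) (hQ : 1 ≤ Q) : ∑ p ∈ Q.primeFactors, Real.log p ≤ Real.log Q := by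
  rw [← Real.log_prod (fun p hp => by
    have := (Nat.prime_of_mem_primeFactors hp).pos
    positivity)]
  apply Real.log_le_log
  · apply prod_pos
    intro p hp
    have := (Nat.prime_of_mem_primeFactors hp).pos
    positivity
  · have h := Nat.le_of_dvd (by omega) (Nat.prod_primeFactors_dvd Q)
    have h2 : ((∏ p ∈ Q.primeFactors, p : ℕ) : ℝ) ≤ Q := by exact_mod_cast h
    push_cast at h2
    exact h2

/-- functions that differ only at primes dividing `Q` -/
theorem diff_le (Q n : ℕ) (hQ : 1 ≤ Q) (f g : ℕ → ℂ)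
    (h1 : ∀ p : ℕ, p.Prime → ¬ p ∣ Q → f p = g p) (h2 : ∀ p : ℕ, p.Prime → p ∣ Q → ‖f p - g p‖ ≤ 1) :
    ‖∑ k ∈ Icc 1 n, ((if k.Prime then f k * ((Real.log k : ℝ) : ℂ) else 0) -
      (if k.Prime then g k * ((Real.log k : ℝ) : ℂ) else 0))‖ ≤ Real.log Q := by
  refine le_trans ?_ (sum_log_primeFactors Q hQ)
  have h3 : ∀ k ∈ Icc 1 n, ‖((if k.Prime then f k * ((Real.log k : ℝ) : ℂ) else 0) -
      (if k.Prime then g k * ((Real.log k : ℝ) : ℂ) else 0))‖ ≤
      if k ∈ Q.primeFactors then Real.log k else 0 := by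
    intro k _
    have hlog : 0 ≤ Real.log k := Real.log_natCast_nonneg k
    by_cases hk : k.Prime
    · rw [if_pos hk, if_pos hk]
      by_cases hd : k ∣ Q
      · rw [if_pos (Nat.mem_primeFactors.2 ⟨hk, hd, by omega⟩), ← sub_mul, norm_mul, Complex.norm_real,
          Real.norm_of_nonneg hlog]
        have := h2 k hk hd
        nlinarith
      · rw [h1 k hk hd, sub_self, norm_zero]
        split_ifs
        · exact hlog
        · exact le_rfl
    · rw [if_neg hk, if_neg hk, sub_self, norm_zero]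
      split_ifs
      · exact hlog
      · exact le_rfl
  refine (norm_sum_le _ _).trans ((sum_le_sum h3).trans ?_)
  rw [← sum_filter]
  apply sum_le_sum_of_subset_of_nonneg
  · intro k hk
    rw [mem_filter] at hk
    exact hk.2
  · intro k _ _
    exact Real.log_natCast_nonneg k

theorem unit_of_prime {Q p : ℕ} (hp : p.Prime) (hd : ¬ p ∣ Q) : IsUnit (p : ZMod Q) := by
  rw [ZMod.isUnit_iff_coprime]
  exact (Nat.Prime.coprime_iff_not_dvd hp).2 hd

/-- passing to the primitive character -/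
theorem SS_prim (Q n : ℕ) (hQ : 1 ≤ Q) (χ : DirichletCharacter ℂ Q) :
    ‖SS χ n - SS χ.primitiveCharacter n‖ ≤ Real.log Q := by
  have : NeZero Q := ⟨by omega⟩
  unfold SS av
  rw [← sum_sub_distrib]
  apply diff_le Q n hQ (fun k => χ (k : ZMod Q)) (fun k => χ.primitiveCharacter (k : ZMod χ.conductor))
  · intro p hp hd
    have hu : IsCoprime (p : ℤ) (Q : ℤ) := by
      rw [Nat.isCoprime_iff_coprime]
      exact (Nat.Prime.coprime_iff_not_dvd hp).2 hd
    have h1 := DirichletCharacter.primitiveCharacter_apply_of_isCoprime χ hu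
    rw [Int.cast_natCast, Int.cast_natCast] at h1
    exact h1.symm
  · intro p hp hd
    have h1 : χ (p : ZMod Q) = 0 := by
      apply χ.map_nonunit
      rw [ZMod.isUnit_iff_coprime]
      intro h
      have := (Nat.Prime.coprime_iff_not_dvd hp).1 h
      exact this hd
    show ‖χ (p : ZMod Q) - χ.primitiveCharacter (p : ZMod χ.conductor)‖ ≤ 1
    rw [h1, zero_sub, norm_neg]
    exact DirichletCharacter.norm_le_one _ _

theorem log_le_pow (Q n B : ℕ) (hQ : 1 ≤ Q) (hQB : (Q : ℝ) ≤ Real.log n ^ B) :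
    Real.log Q ≤ Real.log n ^ B := by
  have h0 : (1 : ℝ) ≤ Q := by exact_mod_cast hQ
  have h1 := Real.log_le_sub_one_of_pos (show (0 : ℝ) < Q by linarith)
  linarith

open Pool.Agent.W762.EC in
/-- Siegel-Walfisz in arithmetic progressions, sums from `1` -/
theorem sw_one (A B : ℕ) : ∃ (C : ℝ) (n₀ : ℕ), 0 ≤ C ∧ ∀ n : ℕ, n₀ ≤ n → ∀ Q : ℕ, 1 ≤ Q →
    (Q : ℝ) ≤ Real.log n ^ B → ∀ r : ℕ, r.Coprime Q →
    |∑ m ∈ (Icc 1 n).filter (fun m => m ≡ r [MOD Q]), lp m - n / Q.totient| ≤
      C * (n / Real.log n ^ A) := by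
  obtain ⟨n1, h1⟩ := SSA.SS_bound A B
  obtain ⟨n2, h2⟩ := theta_bound A
  obtain ⟨X, hX⟩ := SSA.growth (A + B)
  refine ⟨12 + 2 + (37 + 16 * 8 ^ (A + 1)), max (max n1 n2) (max ⌈X⌉₊ 3), by positivity, ?_⟩
  intro n hn Q hQ hQB r hr
  have hn1 : n1 ≤ n := ((le_max_left _ _).trans (le_max_left _ _)).trans hn
  have hn2 : n2 ≤ n := ((le_max_right _ _).trans (le_max_left _ _)).trans hn
  have hn3 : 3 ≤ n := ((le_max_right _ _).trans (le_max_right _ _)).trans hn
  have hnX : X ≤ n := (Nat.le_ceil X).trans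
    (by exact_mod_cast ((le_max_left _ _).trans (le_max_right _ _)).trans hn)
  have hn0 : (3 : ℝ) ≤ n := by exact_mod_cast hn3
  have hlog1 : 1 ≤ Real.log n := by
    rw [Real.le_log_iff_exp_le (by linarith)]
    have := Real.exp_one_lt_d9
    linarith
  have hlog0 : 0 < Real.log n := by linarith
  have : NeZero Q := ⟨by omega⟩
  have hru : IsUnit (r : ZMod Q) := by rw [ZMod.isUnit_iff_coprime]; exact hr
  set S : ℝ := ∑ m ∈ (Icc 1 n).filter (fun m => m ≡ r [MOD Q]), lp m with hS
  have hφ : (0 : ℝ) < Q.totient := by exact_mod_cast Nat.totient_pos.2 (by omega)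
  -- detect by characters
  have hdet : ((Q.totient : ℕ) : ℂ) * (S : ℂ) =
      ∑ χ : DirichletCharacter ℂ Q, χ (r : ZMod Q)⁻¹ * SS χ n := by
    unfold SS
    simp_rw [mul_sum]
    rw [sum_comm, hS, sum_filter]
    push_cast
    rw [mul_sum]
    apply sum_congr rfl
    intro k _
    have e := DirichletCharacter.sum_char_inv_mul_char_eq ℂ hru (k : ZMod Q)
    unfold av lp
    by_cases hk : k.Prime
    · simp only [if_pos hk]
      have e1 : ∑ χ : DirichletCharacter ℂ Q, χ (r : ZMod Q)⁻¹ * (χ (k : ZMod Q) * ((Real.log k : ℝ) : ℂ)) =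
          (∑ χ : DirichletCharacter ℂ Q, χ (r : ZMod Q)⁻¹ * χ (k : ZMod Q)) * ((Real.log k : ℝ) : ℂ) := by
        rw [sum_mul]
        apply sum_congr rfl; intro χ _; ring
      rw [e1, e]
      have h3 : ((r : ZMod Q) = k) ↔ k ≡ r [MOD Q] := by
        rw [ZMod.natCast_eq_natCast_iff]
        exact ⟨fun h => h.symm, fun h => h.symm⟩
      by_cases hkr : k ≡ r [MOD Q]
      · rw [if_pos hkr, if_pos (h3.2 hkr)]
      · rw [if_neg hkr, if_neg (fun h => hkr (h3.1 h))]
        simp
    · simp only [if_neg hk]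
      simp
  have hlogQ : 0 ≤ Real.log Q := Real.log_natCast_nonneg Q
  have hEb : ∀ χ : DirichletCharacter ℂ Q, χ ≠ 1 → ‖SS χ n‖ ≤ 12 * n / Real.log n ^ A + Real.log Q := by
    intro χ hχ
    have h3 := SS_prim Q n hQ χ
    have hcond : χ.conductor ≠ 0 := χ.conductor_ne_zero
    have hcond1 : χ.conductor ≠ 1 := by
      intro h
      exact hχ ((DirichletCharacter.eq_one_iff_conductor_eq_one).2 h)
    have hcle : χ.conductor ≤ Q := Nat.le_of_dvd (by omega) χ.conductor_dvd_level
    have h4 := h1 n hn1 χ.conductor (by omega) (le_trans (by exact_mod_cast hcle) hQB)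
      χ.primitiveCharacter χ.primitiveCharacter_isPrimitive
    have h5 : SS χ n = (SS χ n - SS χ.primitiveCharacter n) + SS χ.primitiveCharacter n := by ring
    rw [h5]
    refine (norm_add_le _ _).trans ?_
    linarith
  have hE1 : ‖SS (1 : DirichletCharacter ℂ Q) n - ((Chebyshev.theta (n : ℝ) : ℝ) : ℂ)‖ ≤ Real.log Q := by
    have e1 : ((Chebyshev.theta (n : ℝ) : ℝ) : ℂ) = ∑ k ∈ Icc 1 n,
        (if k.Prime then (fun _ : ℕ => (1 : ℂ)) k * ((Real.log k : ℝ) : ℂ) else 0) := by
      rw [theta_nat]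
      push_cast
      apply sum_congr
      · ext k; simp only [mem_Ioc, mem_Icc]; omega
      · intro k _
        unfold Pool.Agent.W762.EC.lp
        split_ifs <;> simp
    rw [e1]
    unfold SS av
    rw [← sum_sub_distrib]
    apply diff_le Q n hQ (fun k => (1 : DirichletCharacter ℂ Q) (k : ZMod Q)) (fun _ => 1)
    · intro p hp hd
      exact MulChar.one_apply (unit_of_prime hp hd)
    · intro p hp hd
      have h1 : (1 : DirichletCharacter ℂ Q) (p : ZMod Q) = 0 := by
        apply MulChar.map_nonunit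
        rw [ZMod.isUnit_iff_coprime]
        intro h
        have := (Nat.Prime.coprime_iff_not_dvd hp).1 h
        exact this hd
      show ‖(1 : DirichletCharacter ℂ Q) (p : ZMod Q) - 1‖ ≤ 1
      rw [h1, zero_sub, norm_neg, norm_one]
  have hnorm1 : ∀ χ : DirichletCharacter ℂ Q, ‖χ (r : ZMod Q)⁻¹‖ ≤ 1 := fun χ => DirichletCharacter.norm_le_one _ _
  have h3 : ‖((Q.totient : ℕ) : ℂ) * (S : ℂ) - ((Chebyshev.theta (n : ℝ) : ℝ) : ℂ)‖ ≤
      Q.totient * (12 * n / Real.log n ^ A + Real.log Q) := by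
    rw [hdet]
    classical
    have e2 : ∑ χ : DirichletCharacter ℂ Q, χ (r : ZMod Q)⁻¹ * SS χ n - ((Chebyshev.theta (n : ℝ) : ℝ) : ℂ) =
        ∑ χ : DirichletCharacter ℂ Q, (χ (r : ZMod Q)⁻¹ * SS χ n -
          if χ = 1 then ((Chebyshev.theta (n : ℝ) : ℝ) : ℂ) else 0) := by
      rw [sum_sub_distrib, sum_ite_eq' univ (1 : DirichletCharacter ℂ Q), if_pos (mem_univ _)]
    rw [e2]
    refine (norm_sum_le _ _).trans ?_
    have h4 : ∀ χ ∈ (univ : Finset (DirichletCharacter ℂ Q)), ‖χ (r : ZMod Q)⁻¹ * SS χ n -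
          (if χ = 1 then ((Chebyshev.theta (n : ℝ) : ℝ) : ℂ) else 0)‖ ≤
          12 * n / Real.log n ^ A + Real.log Q := by
      intro χ _
      by_cases hχ : χ = 1
      · rw [if_pos hχ, hχ]
        have hu : IsUnit ((r : ZMod Q)⁻¹) := by
          have := ZMod.coe_unitOfCoprime r hr
          rw [← this, ZMod.inv_coe_unit]
          exact Units.isUnit _
        rw [MulChar.one_apply hu, one_mul]
        have : 0 ≤ 12 * (n : ℝ) / Real.log n ^ A := by positivity
        linarith
      · rw [if_neg hχ, sub_zero, norm_mul]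
        have := hEb χ hχ
        have h6 := hnorm1 χ
        have h7 := norm_nonneg (SS χ n)
        nlinarith
    refine (sum_le_card_nsmul _ _ _ h4).trans (le_of_eq ?_)
    rw [nsmul_eq_mul, card_univ, ← Nat.card_eq_fintype_card,
      DirichletCharacter.card_eq_totient_of_hasEnoughRootsOfUnity]
  have h4 : |Q.totient * S - Chebyshev.theta (n : ℝ)| ≤
      Q.totient * (12 * n / Real.log n ^ A + Real.log Q) := by
    have e : ((Q.totient : ℕ) : ℂ) * (S : ℂ) - ((Chebyshev.theta (n : ℝ) : ℝ) : ℂ) =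
        ((Q.totient * S - Chebyshev.theta (n : ℝ) : ℝ) : ℂ) := by push_cast; ring
    rw [e, Complex.norm_real, Real.norm_eq_abs] at h3
    exact h3
  have h5 := h2 n hn2
  have hgrow := hX n hnX
  have hlogQ2 : Real.log Q ≤ 2 * (n / Real.log n ^ A) := by
    refine (log_le_pow Q n B hQ hQB).trans ?_
    have h6 : Real.log n ^ B * Real.log n ^ A ≤ n := by
      rw [← pow_add, add_comm B A]
      refine hgrow.trans ?_
      rw [Real.sqrt_le_left (by linarith)]
      nlinarith
    have h7 : Real.log n ^ B ≤ n / Real.log n ^ A := by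
      rw [le_div_iff₀ (by positivity)]; exact h6
    have h8 : 0 ≤ n / Real.log n ^ A := by positivity
    linarith
  have hφ1 : (1 : ℝ) ≤ Q.totient := by exact_mod_cast Nat.totient_pos.2 (show 0 < Q by omega)
  have e : S - n / Q.totient = (Q.totient * S - Chebyshev.theta (n : ℝ)) / Q.totient +
      (Chebyshev.theta (n : ℝ) - n) / Q.totient := by
    field_simp
    ring
  rw [e]
  refine (abs_add_le _ _).trans ?_
  rw [abs_div, abs_div, abs_of_pos hφ]
  have h6 : |Q.totient * S - Chebyshev.theta (n : ℝ)| / Q.totient ≤ 12 * n / Real.log n ^ A + Real.log Q := by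
    rw [div_le_iff₀ hφ]
    linarith
  have h7 : |Chebyshev.theta (n : ℝ) - n| / Q.totient ≤ |Chebyshev.theta (n : ℝ) - n| :=
    div_le_self (abs_nonneg _) hφ1
  have h8 : 12 * (n : ℝ) / Real.log n ^ A = 12 * (n / Real.log n ^ A) := by ring
  rw [h8] at h6
  linarith

end Pool.Agent.Q51.MD
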