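import Pool.Agent.Q51.MD.SWap

set_option autoImplicit false

/-!
# Siegel-Walfisz on dyadic intervals, partial summation
-/

namespace Pool.Agent.Q51.MD

open Finset Filter

theorem ell_le (N : ℕ) (h : 1 + Real.log 4 ≤ Real.log N) (hN : 1 ≤ N) : ell N ≤ 2 * Real.log N := by
  have hN0 : (0 : ℝ) < N := by exact_mod_cast hN
  unfold ell
  rw [Real.log_mul (by norm_num) hN0.ne']
  linarith

theorem sw_int (A B : ℕ) : ∃ N₀ : ℕ, ∀ N : ℕ, N₀ ≤ N → ∀ t : ℕ, N ≤ t → t ≤ 2 * N → ∀ Q : ℕ, 1 ≤ Q →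
    (Q : ℝ) ≤ ell N ^ B → ∀ r : ℕ, r.Coprime Q →
    |∑ m ∈ (Ioc N t).filter (fun m => m ≡ r [MOD Q]), lp m - ((t : ℝ) - N) / Q.totient| ≤
      N / ell N ^ A := by
  obtain ⟨C, n₀, hC, h1⟩ := sw_one (A + 1) (B + 1)
  have hlog : Tendsto (fun N : ℕ => Real.log (N : ℝ)) atTop atTop :=
    Real.tendsto_log_atTop.comp tendsto_natCast_atTop_atTop
  obtain ⟨N1, hN1⟩ := eventually_atTop.1 (hlog.eventually_ge_atTop (max (1 + Real.log 4) (2 ^ B)))
  obtain ⟨N2, hN2⟩ := ell_large (C * 2 ^ (A + 3))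
  refine ⟨max (max n₀ 1) (max N1 N2), ?_⟩
  intro N hN t hNt ht Q hQ hQB r hr
  have a1 : n₀ ≤ N := ((le_max_left _ _).trans (le_max_left _ _)).trans hN
  have a2 : 1 ≤ N := ((le_max_right _ _).trans (le_max_left _ _)).trans hN
  have a3 : N1 ≤ N := ((le_max_left _ _).trans (le_max_right _ _)).trans hN
  have a4 : N2 ≤ N := ((le_max_right _ _).trans (le_max_right _ _)).trans hN
  have hN0 : (0 : ℝ) < N := by exact_mod_cast a2
  have b1 : 1 + Real.log 4 ≤ Real.log N := (le_max_left _ _).trans (hN1 N a3)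
  have b2 : (2 : ℝ) ^ B ≤ Real.log N := (le_max_right _ _).trans (hN1 N a3)
  have hl4 : 0 < Real.log 4 := Real.log_pos (by norm_num)
  have hlN : 0 < Real.log N := by linarith
  have c1 := ell_le N b1 a2
  have c2 := hN2 N a4
  have hell : 0 < ell N := by
    unfold ell
    have : 0 < Real.log (4 * (N : ℝ)) := Real.log_pos (by
      have : (1 : ℝ) ≤ N := by exact_mod_cast a2
      linarith)
    linarith
  have hkey : ∀ s : ℕ, N ≤ s → s ≤ 2 * N →
      |∑ m ∈ (Icc 1 s).filter (fun m => m ≡ r [MOD Q]), lp m - s / Q.totient| ≤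
        C * 2 ^ (A + 2) * (N / ell N ^ (A + 1)) := by
    intro s hs1 hs2
    have hs0 : (N : ℝ) ≤ s := by exact_mod_cast hs1
    have hs3 : (s : ℝ) ≤ 2 * N := by exact_mod_cast hs2
    have hls : Real.log N ≤ Real.log s := Real.log_le_log hN0 hs0
    have hQ2 : (Q : ℝ) ≤ Real.log s ^ (B + 1) := by
      calc (Q : ℝ) ≤ ell N ^ B := hQB
        _ ≤ (2 * Real.log N) ^ B := by gcongr
        _ = 2 ^ B * Real.log N ^ B := mul_pow _ _ _
        _ ≤ Real.log N * Real.log N ^ B := by gcongr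
        _ = Real.log N ^ (B + 1) := by rw [pow_succ]; ring
        _ ≤ Real.log s ^ (B + 1) := by gcongr
    refine (h1 s (a1.trans hs1) Q hQ hQ2 r hr).trans ?_
    have d1 : ell N / 2 ≤ Real.log s := by linarith
    have d2 : (s : ℝ) / Real.log s ^ (A + 1) ≤ 2 * N / (ell N / 2) ^ (A + 1) := by gcongr
    calc C * (s / Real.log s ^ (A + 1)) ≤ C * (2 * N / (ell N / 2) ^ (A + 1)) := by gcongr
      _ = C * 2 ^ (A + 2) * (N / ell N ^ (A + 1)) := by
          rw [div_pow]; field_simp; ring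
  have hsplit : (Icc 1 t).filter (fun m => m ≡ r [MOD Q]) =
      (Icc 1 N).filter (fun m => m ≡ r [MOD Q]) ∪ (Ioc N t).filter (fun m => m ≡ r [MOD Q]) := by
    rw [← filter_union]
    congr 1
    ext k
    simp only [mem_union, mem_Icc, mem_Ioc]
    omega
  have hdisj : Disjoint ((Icc 1 N).filter (fun m => m ≡ r [MOD Q]))
      ((Ioc N t).filter (fun m => m ≡ r [MOD Q])) := by
    apply disjoint_filter_filter
    rw [Finset.disjoint_left]
    intro k hk hk'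
    rw [mem_Icc] at hk
    rw [mem_Ioc] at hk'
    omega
  have e1 := hkey t hNt ht
  have e2 := hkey N le_rfl (by omega)
  rw [hsplit, sum_union hdisj] at e1
  have e3 : ∑ m ∈ (Ioc N t).filter (fun m => m ≡ r [MOD Q]), lp m - ((t : ℝ) - N) / Q.totient =
      (∑ m ∈ (Icc 1 N).filter (fun m => m ≡ r [MOD Q]), lp m +
        ∑ m ∈ (Ioc N t).filter (fun m => m ≡ r [MOD Q]), lp m - t / Q.totient) -
      (∑ m ∈ (Icc 1 N).filter (fun m => m ≡ r [MOD Q]), lp m - N / Q.totient) := by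
    rw [sub_div]; ring
  rw [e3]
  refine (abs_sub _ _).trans ?_
  have e4 : C * 2 ^ (A + 2) * (N / ell N ^ (A + 1)) + C * 2 ^ (A + 2) * (N / ell N ^ (A + 1)) =
      (C * 2 ^ (A + 3)) / ell N * (N / ell N ^ A) := by
    rw [pow_succ (ell N) A]; field_simp; ring
  have e5 : (C * 2 ^ (A + 3)) / ell N ≤ 1 := by rw [div_le_one hell]; exact c2
  have e6 : 0 ≤ (N : ℝ) / ell N ^ A := by positivity
  have e7 : (C * 2 ^ (A + 3)) / ell N * (N / ell N ^ A) ≤ N / ell N ^ A := by nlinarith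
  linarith

/-- partial summation -/
theorem abel_id (a f : ℕ → ℂ) (N n : ℕ) (h : N ≤ n) :
    ∑ m ∈ Ioc N (n + 1), a m * f m = (∑ m ∈ Ioc N (n + 1), a m) * f (n + 1) -
      ∑ m ∈ Ioc N n, (∑ k ∈ Ioc N m, a k) * (f (m + 1) - f m) := by
  induction n, h using Nat.le_induction with
  | base => simp
  | succ n hn ih =>
    have h1 : Ioc N (n + 1 + 1) = insert (n + 1 + 1) (Ioc N (n + 1)) := by
      ext k; simp only [mem_Ioc, mem_insert]; omega
    have h2 : Ioc N (n + 1) = insert (n + 1) (Ioc N n) := by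
      ext k; simp only [mem_Ioc, mem_insert]; omega
    rw [h1, sum_insert (by simp), sum_insert (by simp), ih]
    rw [show ∑ m ∈ Ioc N (n + 1), (∑ k ∈ Ioc N m, a k) * (f (m + 1) - f m) =
      (∑ k ∈ Ioc N (n + 1), a k) * (f (n + 1 + 1) - f (n + 1)) +
        ∑ m ∈ Ioc N n, (∑ k ∈ Ioc N m, a k) * (f (m + 1) - f m) by
      conv_lhs => rw [h2]
      rw [sum_insert (by simp)]]
    ring

theorem abel_bd (a f : ℕ → ℂ) (N N' : ℕ) (h : N < N') (D V : ℝ) (hD : 0 ≤ D)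
    (ha : ∀ t, N ≤ t → t ≤ N' → ‖∑ m ∈ Ioc N t, a m‖ ≤ D) (hf : ‖f N'‖ ≤ 1)
    (hV : ∑ m ∈ Ioc N (N' - 1), ‖f (m + 1) - f m‖ ≤ V) :
    ‖∑ m ∈ Ioc N N', a m * f m‖ ≤ D * (1 + V) := by
  obtain ⟨n, rfl⟩ : ∃ n, N' = n + 1 := ⟨N' - 1, by omega⟩
  rw [abel_id a f N n (by omega)]
  refine (norm_sub_le _ _).trans ?_
  rw [mul_add, mul_one]
  apply add_le_add
  · rw [norm_mul]
    have h1 := ha (n + 1) (by omega) le_rfl
    have h2 := norm_nonneg (f (n + 1))
    have h3 := norm_nonneg (∑ m ∈ Ioc N (n + 1), a m)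
    nlinarith
  · refine (norm_sum_le _ _).trans ?_
    calc ∑ m ∈ Ioc N n, ‖(∑ k ∈ Ioc N m, a k) * (f (m + 1) - f m)‖ ≤
        ∑ m ∈ Ioc N n, D * ‖f (m + 1) - f m‖ := by
          apply sum_le_sum
          intro m hm
          rw [mem_Ioc] at hm
          rw [norm_mul]
          exact mul_le_mul_of_nonneg_right (ha m hm.1.le (by omega)) (norm_nonneg _)
      _ = D * ∑ m ∈ Ioc N n, ‖f (m + 1) - f m‖ := by rw [mul_sum]
      _ ≤ D * V := mul_le_mul_of_nonneg_left (by simpa using hV) hD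

end Pool.Agent.Q51.MD
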