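import Pool.Agent.Q51.MD.VdC

set_option autoImplicit false

/-!
# Measure preserving flows and sets avoiding differences
-/

namespace Pool.Agent.Q51.MD

open MeasureTheory Filter Topology Finset

variable {Ω : Type} {m0 : MeasurableSpace Ω}

/-- a measure preserving action of `ℤ` -/
structure Flow (μ : Measure Ω) (σ : ℤ → Ω → Ω) : Prop where
  zero : ∀ x, σ 0 x = x
  add : ∀ j k x, σ (j + k) x = σ j (σ k x)
  mp : ∀ k, MeasurePreserving (σ k) μ μ

/-- the sets which are invariant (mod null sets) under `σ m` -/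
@[implicit_reducible] def J (μ : Measure Ω) (σ : ℤ → Ω → Ω) (m : ℕ) : MeasurableSpace Ω where
  MeasurableSet' s := MeasurableSet[m0] s ∧ (σ m) ⁻¹' s =ᵐ[μ] s
  measurableSet_empty := ⟨MeasurableSet.empty, by rw [Set.preimage_empty]⟩
  measurableSet_compl s hs := ⟨hs.1.compl, by rw [Set.preimage_compl]; exact hs.2.compl⟩
  measurableSet_iUnion f hf := ⟨MeasurableSet.iUnion fun i => (hf i).1, by
    rw [Set.preimage_iUnion]; exact Filter.EventuallyEq.countable_iUnion fun i => (hf i).2⟩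

variable {μ : Measure Ω} {σ : ℤ → Ω → Ω}

lemma J_le (m : ℕ) : J μ σ m ≤ m0 := fun _ hs => hs.1

lemma Flow.pre (h : Flow μ σ) (k : ℤ) {s t : Set Ω} (hst : s =ᵐ[μ] t) :
    (σ k) ⁻¹' s =ᵐ[μ] (σ k) ⁻¹' t :=
  (h.mp k).quasiMeasurePreserving.preimage_ae_eq hst

lemma J_mul_nat (h : Flow μ σ) {m : ℕ} {s : Set Ω} (hs : MeasurableSet[J μ σ m] s) (k : ℕ) :
    (σ ((m : ℤ) * k)) ⁻¹' s =ᵐ[μ] s := by
  induction k with
  | zero =>
    have : (σ ((m : ℤ) * (0 : ℕ))) ⁻¹' s = s := by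
      ext x; simp [h.zero]
    rw [this]
  | succ k ih =>
    have h1 : (σ ((m : ℤ) * (k + 1 : ℕ))) ⁻¹' s = (σ ((m : ℤ) * k)) ⁻¹' ((σ m) ⁻¹' s) := by
      ext x
      simp only [Set.mem_preimage]
      rw [← h.add]
      congr! 2
      push_cast; ring
    rw [h1]
    exact (h.pre _ hs.2).trans ih

lemma J_mul (h : Flow μ σ) {m : ℕ} {s : Set Ω} (hs : MeasurableSet[J μ σ m] s) (k : ℤ) :
    (σ ((m : ℤ) * k)) ⁻¹' s =ᵐ[μ] s := by
  rcases Int.le_total 0 k with hk | hk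
  · obtain ⟨n, rfl⟩ := Int.eq_ofNat_of_zero_le hk
    exact J_mul_nat h hs n
  · obtain ⟨n, hn⟩ := Int.eq_ofNat_of_zero_le (show 0 ≤ -k by omega)
    have h1 : (σ ((m : ℤ) * k)) ⁻¹' ((σ ((m : ℤ) * n)) ⁻¹' s) = s := by
      ext x
      simp only [Set.mem_preimage]
      rw [← h.add]
      have : (m : ℤ) * n + m * k = 0 := by rw [← hn]; ring
      rw [this, h.zero]
    have h2 := h.pre ((m : ℤ) * k) (J_mul_nat h hs n)
    rw [h1] at h2
    exact h2.symm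

lemma J_mono (h : Flow μ σ) {m m' : ℕ} (hm : m ∣ m') : J μ σ m ≤ J μ σ m' := by
  intro s hs
  obtain ⟨k, rfl⟩ := hm
  refine ⟨hs.1, ?_⟩
  have := J_mul h hs k
  push_cast
  exact this

lemma J_shift (h : Flow μ σ) {m : ℕ} {s : Set Ω} (hs : MeasurableSet[J μ σ m] s) (k : ℤ) :
    MeasurableSet[J μ σ m] ((σ k) ⁻¹' s) := by
  refine ⟨(h.mp k).measurable hs.1, ?_⟩
  have h1 : (σ m) ⁻¹' ((σ k) ⁻¹' s) = (σ k) ⁻¹' ((σ m) ⁻¹' s) := by
    ext x
    simp only [Set.mem_preimage]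
    rw [← h.add, ← h.add, add_comm]
  rw [h1]
  exact h.pre k hs.2

/-- the filtration `J (n!)` -/
def filt (h : Flow μ σ) : Filtration ℕ m0 where
  seq n := J μ σ n.factorial
  mono' _ _ hab := J_mono h (Nat.factorial_dvd_factorial hab)
  le' _ := J_le _

/-- the rational factor -/
@[implicit_reducible] def KK (h : Flow μ σ) : MeasurableSpace Ω := ⨆ n, filt h n

lemma KK_le (h : Flow μ σ) : KK h ≤ m0 := iSup_le fun n => (filt h).le n

lemma J_le_KK (h : Flow μ σ) {m : ℕ} (hm : 1 ≤ m) : J μ σ m ≤ KK h :=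
  (J_mono h (Nat.dvd_factorial hm le_rfl)).trans (le_iSup (fun n => (filt h n)) m)

lemma KK_shift (h : Flow μ σ) (k : ℤ) : Measurable[KK h, KK h] (σ k) := by
  rw [measurable_iff_comap_le]
  unfold KK
  rw [MeasurableSpace.comap_iSup]
  apply iSup_mono
  intro n
  rintro _ ⟨s, hs, rfl⟩
  exact J_shift h hs k

/-- functions measurable w.r.t. `J m` are invariant under `σ (m k)` -/
lemma fn_shift (h : Flow μ σ) {m : ℕ} {F : Ω → ℝ} (hF : Measurable[J μ σ m] F) (k : ℤ) :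
    (fun x => F (σ ((m : ℤ) * k) x)) =ᵐ[μ] F := by
  have h1 : ∀ q : ℚ, ∀ᵐ x ∂μ, (F (σ ((m : ℤ) * k) x) < q ↔ F x < q) := by
    intro q
    have h2 : MeasurableSet[J μ σ m] (F ⁻¹' Set.Iio (q : ℝ)) := hF measurableSet_Iio
    have h3 := J_mul h h2 k
    filter_upwards [h3.mem_iff] with x hx
    exact hx
  filter_upwards [ae_all_iff.2 h1] with x hx
  exact eq_of_forall_lt_rat_iff_lt hx

lemma fn_congr (h : Flow μ σ) {m : ℕ} {F : Ω → ℝ} (hF : Measurable[J μ σ m] F) {x r : ℤ}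
    (hxr : x ≡ r [ZMOD m]) : (fun y => F (σ x y)) =ᵐ[μ] fun y => F (σ r y) := by
  obtain ⟨k, hk⟩ := hxr.symm.dvd
  have h1 := fn_shift h hF k
  have h2 := (h.mp r).quasiMeasurePreserving.ae_eq_comp h1
  filter_upwards [h2] with y hy
  simp only [Function.comp] at hy
  rw [← hy, ← h.add]
  congr 2
  rw [← hk]; ring

/-! ### The Koopman representation -/

section Koop

variable [IsProbabilityMeasure μ]

/-- the Koopman representation -/
noncomputable def V (h : Flow μ σ) (k : ℤ) : Lp ℝ 2 μ →ₗᵢ[ℝ] Lp ℝ 2 μ :=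
  Lp.compMeasurePreservingₗᵢ ℝ (σ k) (h.mp k)

omit [IsProbabilityMeasure μ] in
lemma V_coe (h : Flow μ σ) (k : ℤ) (f : Lp ℝ 2 μ) : V h k f =ᵐ[μ] fun x => f (σ k x) :=
  Lp.coeFn_compMeasurePreserving f (h.mp k)

omit [IsProbabilityMeasure μ] in
lemma V_rep (h : Flow μ σ) : Rep (V h) where
  zero f := by
    apply Lp.ext
    filter_upwards [V_coe h 0 f] with x hx
    rw [hx, h.zero]
  add j k f := by
    apply Lp.ext
    have h1 := (h.mp j).quasiMeasurePreserving.ae_eq_comp (V_coe h k f)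
    filter_upwards [V_coe h (j + k) f, V_coe h j (V h k f), h1] with x hx hx1 hx2
    simp only [Function.comp] at hx2
    rw [hx, hx1, hx2, ← h.add, add_comm]

lemma bdd_memLp {f : Ω → ℝ} (hf : AEStronglyMeasurable f μ) (hb : ∀ᵐ x ∂μ, |f x| ≤ 1)
    (p : ENNReal) : MemLp f p μ :=
  MemLp.of_bound hf 1 hb

lemma integrable_of_bdd {f : Ω → ℝ} (hf : AEStronglyMeasurable f μ) (hb : ∀ᵐ x ∂μ, |f x| ≤ 1) :
    Integrable f μ := memLp_one_iff_integrable.1 (bdd_memLp hf hb 1)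

omit [IsProbabilityMeasure μ] in
lemma inner_toLp (h : Flow μ σ) {f g : Ω → ℝ} (hf : MemLp f 2 μ) (hg : MemLp g 2 μ) (k : ℤ) :
    inner ℝ (hf.toLp f) (V h k (hg.toLp g)) = ∫ x, f x * g (σ k x) ∂μ := by
  rw [L2.inner_def]
  apply integral_congr_ae
  have h1 := (h.mp k).quasiMeasurePreserving.ae_eq_comp hg.coeFn_toLp
  filter_upwards [hf.coeFn_toLp, V_coe h k (hg.toLp g), h1] with x hx hx1 hx2
  simp only [Function.comp] at hx2
  rw [hx, hx1, hx2]
  simp [mul_comm]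

/-- pulling out -/
lemma pull {𝒢 : MeasurableSpace Ω} (hG : 𝒢 ≤ m0) {v f : Ω → ℝ} (hv : StronglyMeasurable[𝒢] v)
    (hvi : Integrable v μ) (hf : AEStronglyMeasurable[m0] f μ) (hb : ∀ᵐ x ∂μ, |f x| ≤ 1) :
    ∫ x, v x * f x ∂μ = ∫ x, v x * (μ[f | 𝒢]) x ∂μ := by
  have h1 : Integrable (v * f) μ := by
    have := hvi.bdd_mul hf hb
    refine this.congr (Eventually.of_forall fun x => ?_)
    simp [mul_comm]
  have h2 := condExp_mul_of_stronglyMeasurable_left hv h1 (integrable_of_bdd hf hb)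
  have h3 : ∫ x, (μ[v * f | 𝒢]) x ∂μ = ∫ x, (v * f) x ∂μ := integral_condExp hG
  rw [integral_congr_ae h2] at h3
  exact h3.symm

lemma condExp_bdd {𝒢 : MeasurableSpace Ω} (hG : 𝒢 ≤ m0) {f : Ω → ℝ}
    (hf : Integrable f μ) (h0 : 0 ≤ᵐ[μ] f) (h1 : ∀ᵐ x ∂μ, f x ≤ 1) :
    ∀ᵐ x ∂μ, 0 ≤ (μ[f | 𝒢]) x ∧ (μ[f | 𝒢]) x ≤ 1 := by
  have h2 := condExp_nonneg (m := 𝒢) h0
  have h3 : μ[f | 𝒢] ≤ᵐ[μ] μ[fun _ => (1 : ℝ) | 𝒢] := condExp_mono hf (integrable_const _) h1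
  rw [condExp_const hG] at h3
  filter_upwards [h2, h3] with x hx hx1
  exact ⟨hx, hx1⟩

lemma aper (h : Flow μ σ) {f : Ω → ℝ} (hf : AEStronglyMeasurable f μ)
    (hb : ∀ᵐ x ∂μ, |f x| ≤ 1) (hw : MemLp (fun x => f x - (μ[f | KK h]) x) 2 μ) :
    Aper (V h) (hw.toLp _) := by
  intro m hm v hv
  have hsm : StronglyMeasurable (v : Ω → ℝ) := Lp.stronglyMeasurable v
  have h1 : (fun x => (v : Ω → ℝ) (σ m x)) =ᵐ[μ] v := by
    have h2 := V_coe h m v
    rw [hv] at h2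
    exact h2.symm
  have hJ : Measurable[J μ σ m] (v : Ω → ℝ) := by
    intro B hB
    refine ⟨hsm.measurable hB, ?_⟩
    rw [eventuallyEq_set]
    filter_upwards [h1] with x hx
    simp only [Set.mem_preimage]
    rw [hx]
  have hK : StronglyMeasurable[KK h] (v : Ω → ℝ) :=
    (hJ.mono (J_le_KK h hm) le_rfl).stronglyMeasurable
  have hvi : Integrable (v : Ω → ℝ) μ := (Lp.memLp v).integrable (by norm_num)
  have h3 := pull (KK_le h) hK hvi hf hb
  rw [L2.inner_def]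
  have h4 : ∫ x, inner ℝ ((v : Ω → ℝ) x) (((hw.toLp _ : Lp ℝ 2 μ) : Ω → ℝ) x) ∂μ =
      ∫ x, ((v : Ω → ℝ) x * f x - (v : Ω → ℝ) x * (μ[f | KK h]) x) ∂μ := by
    apply integral_congr_ae
    filter_upwards [hw.coeFn_toLp] with x hx
    rw [hx]
    simp only [inner]
    simp
    ring
  rw [h4, integral_sub, h3, sub_self]
  · exact (hvi.bdd_mul hf hb).congr (Eventually.of_forall fun x => by simp [mul_comm])
  · have h5 : Integrable (fun x => (v : Ω → ℝ) x * f x) μ :=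
      (hvi.bdd_mul hf hb).congr (Eventually.of_forall fun x => by simp [mul_comm])
    have h6 := condExp_mul_of_stronglyMeasurable_left hK h5 (integrable_of_bdd hf hb)
    exact integrable_condExp.congr h6

end Koop

end Pool.Agent.Q51.MD
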