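import Mathlib

set_option autoImplicit false

/-!
# Van der Corput's lemma and the mean ergodic theorem along polynomials
-/

namespace Pool.Agent.Q51.MD

open Finset Filter Topology

section VdC

variable {H : Type*} [NormedAddCommGroup H] [InnerProductSpace ℝ H]

/-- the average of the first `N` terms -/
noncomputable def avg {E : Type*} [AddCommGroup E] [Module ℝ E] (u : ℕ → E) (N : ℕ) : E :=
  (N : ℝ)⁻¹ • ∑ n ∈ range N, u n

lemma avg_add {E : Type*} [AddCommGroup E] [Module ℝ E] (u v : ℕ → E) (N : ℕ) :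
    avg (fun n => u n + v n) N = avg u N + avg v N := by
  simp [avg, Finset.sum_add_distrib, smul_add]

lemma avg_sum {E : Type*} [AddCommGroup E] [Module ℝ E] {ι : Type*} (s : Finset ι) (u : ι → ℕ → E)
    (N : ℕ) : avg (fun n => ∑ i ∈ s, u i n) N = ∑ i ∈ s, avg (u i) N := by
  simp only [avg]
  rw [Finset.sum_comm, Finset.smul_sum]

lemma norm_avg_le {E : Type*} [NormedAddCommGroup E] [NormedSpace ℝ E] {u : ℕ → E} {B : ℝ}
    (hB : ∀ n, ‖u n‖ ≤ B) (N : ℕ) : ‖avg u N‖ ≤ B := by
  have hB0 : 0 ≤ B := (norm_nonneg _).trans (hB 0)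
  unfold avg
  rw [norm_smul, norm_inv, Real.norm_natCast]
  rcases Nat.eq_zero_or_pos N with h | h
  · subst h; simpa using hB0
  · have h1 : ‖∑ n ∈ range N, u n‖ ≤ N * B := by
      calc ‖∑ n ∈ range N, u n‖ ≤ ∑ n ∈ range N, ‖u n‖ := norm_sum_le _ _
        _ ≤ ∑ n ∈ range N, B := Finset.sum_le_sum fun n _ => hB n
        _ = N * B := by simp
    have h2 : (0 : ℝ) < N := by exact_mod_cast h
    calc (N : ℝ)⁻¹ * ‖∑ n ∈ range N, u n‖ ≤ (N : ℝ)⁻¹ * (N * B) :=
          mul_le_mul_of_nonneg_left h1 (by positivity)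
      _ = B := by field_simp

lemma tendsto_avg_shift {E : Type*} [NormedAddCommGroup E] [NormedSpace ℝ E] {u : ℕ → E} {B : ℝ}
    (hB : ∀ n, ‖u n‖ ≤ B) (l : ℕ) :
    Tendsto (fun N => avg (fun n => u (n + l)) N - avg u N) atTop (𝓝 0) := by
  have h0 : Tendsto (fun N : ℕ => (2 * l * B) / (N : ℝ)) atTop (𝓝 0) :=
    tendsto_const_div_atTop_nhds_zero_nat _
  refine squeeze_zero_norm (fun N => ?_) h0
  unfold avg
  rw [← smul_sub, norm_smul, norm_inv, Real.norm_natCast, div_eq_inv_mul]
  apply mul_le_mul_of_nonneg_left _ (by positivity)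
  have h1 : ∑ n ∈ range N, u (n + l) - ∑ n ∈ range N, u n =
      ∑ n ∈ range l, u (N + n) - ∑ n ∈ range l, u n := by
    have h2 := Finset.sum_range_add u N l
    have h3 := Finset.sum_range_add u l N
    rw [add_comm l N, h2] at h3
    have h4 : ∀ n, u (l + n) = u (n + l) := fun n => by rw [add_comm]
    simp only [h4] at h3
    rw [sub_eq_sub_iff_add_eq_add, add_comm, ← h3, add_comm]
  rw [h1]
  calc ‖∑ n ∈ range l, u (N + n) - ∑ n ∈ range l, u n‖
      ≤ ‖∑ n ∈ range l, u (N + n)‖ + ‖∑ n ∈ range l, u n‖ := norm_sub_le _ _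
    _ ≤ ∑ n ∈ range l, B + ∑ n ∈ range l, B := by
        apply add_le_add
        · exact (norm_sum_le _ _).trans (Finset.sum_le_sum fun n _ => hB _)
        · exact (norm_sum_le _ _).trans (Finset.sum_le_sum fun n _ => hB _)
    _ = 2 * l * B := by simp; ring

lemma norm_avg_sq_le (u : ℕ → H) (N : ℕ) : ‖avg u N‖ ^ 2 ≤ avg (fun n => ‖u n‖ ^ 2) N := by
  rcases Nat.eq_zero_or_pos N with h | h
  · subst h; simp [avg]
  have h2 : (0 : ℝ) < N := by exact_mod_cast h
  unfold avg
  rw [norm_smul, norm_inv, Real.norm_natCast, mul_pow, smul_eq_mul]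
  have h1 : ‖∑ n ∈ range N, u n‖ ^ 2 ≤ N * ∑ n ∈ range N, ‖u n‖ ^ 2 := by
    have h3 : ‖∑ n ∈ range N, u n‖ ≤ ∑ n ∈ range N, ‖u n‖ := norm_sum_le _ _
    have h4 : (∑ n ∈ range N, ‖u n‖) ^ 2 ≤ N * ∑ n ∈ range N, ‖u n‖ ^ 2 := by
      have := sq_sum_le_card_mul_sum_sq (s := range N) (f := fun n => ‖u n‖)
      simpa using this
    exact (pow_le_pow_left₀ (norm_nonneg _) h3 2).trans h4
  calc ((N : ℝ)⁻¹) ^ 2 * ‖∑ n ∈ range N, u n‖ ^ 2
      ≤ ((N : ℝ)⁻¹) ^ 2 * (N * ∑ n ∈ range N, ‖u n‖ ^ 2) :=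
        mul_le_mul_of_nonneg_left h1 (by positivity)
    _ = (N : ℝ)⁻¹ * ∑ n ∈ range N, ‖u n‖ ^ 2 := by field_simp

/-- **Van der Corput's lemma** -/
theorem vdc {u : ℕ → H} {B : ℝ} (hB : ∀ n, ‖u n‖ ≤ B)
    (h : ∀ l, 1 ≤ l → Tendsto (fun N => avg (fun n => inner ℝ (u (n + l)) (u n)) N) atTop (𝓝 0)) :
    Tendsto (avg u) atTop (𝓝 0) := by
  have hB0 : 0 ≤ B := (norm_nonneg _).trans (hB 0)
  have hinner : ∀ a b, ‖(inner ℝ (u a) (u b) : ℝ)‖ ≤ B * B := fun a b =>
    (norm_inner_le_norm _ _).trans (mul_le_mul (hB a) (hB b) (norm_nonneg _) hB0)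
  -- correlations with different shifts
  have hcor : ∀ l l', l ≠ l' →
      Tendsto (fun N => avg (fun n => (inner ℝ (u (n + l)) (u (n + l')) : ℝ)) N) atTop (𝓝 0) := by
    have hlt : ∀ l l', l' < l →
        Tendsto (fun N => avg (fun n => (inner ℝ (u (n + l)) (u (n + l')) : ℝ)) N) atTop (𝓝 0) := by
      intro l l' hl
      have h1 := h (l - l') (by omega)
      have h2 := tendsto_avg_shift (u := fun n => (inner ℝ (u (n + (l - l'))) (u n) : ℝ))
        (fun n => hinner _ _) l'
      have h3 := h2.add h1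
      simp only [sub_add_cancel, add_zero] at h3
      have h4 : ∀ n, n + l' + (l - l') = n + l := fun n => by omega
      simpa only [h4] using h3
    intro l l' hne
    rcases lt_or_gt_of_ne hne with h1 | h1
    · have h2 := hlt l' l h1
      simp only [real_inner_comm] at h2 ⊢
      exact h2
    · exact hlt l l' h1
  -- bound for each `K`
  have key : ∀ K : ℕ, 1 ≤ K → ∀ᶠ N in atTop, ‖avg u N‖ ≤ (√(K * B ^ 2 + 1) + 1) / K := by
    intro K hK
    have hK0 : (0 : ℝ) < K := by exact_mod_cast hK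
    set y : ℕ → H := fun n => ∑ l ∈ range K, u (n + l) with hy
    -- first: avg y - K avg u → 0
    have h1 : Tendsto (fun N => avg y N - (K : ℝ) • avg u N) atTop (𝓝 0) := by
      have h2 : ∀ N, avg y N - (K : ℝ) • avg u N =
          ∑ l ∈ range K, (avg (fun n => u (n + l)) N - avg u N) := by
        intro N
        rw [hy, avg_sum, Finset.sum_sub_distrib, Finset.sum_const, Finset.card_range,
          Nat.cast_smul_eq_nsmul]
      simp only [h2]
      have := tendsto_finsetSum (range K) (fun l _ => tendsto_avg_shift hB l)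
      simpa using this
    -- second: avg ‖y‖² eventually ≤ K B² + 1
    have h2 : ∀ᶠ N in atTop, avg (fun n => ‖y n‖ ^ 2) N ≤ K * B ^ 2 + 1 := by
      have h3 : ∀ n, ‖y n‖ ^ 2 = ∑ l ∈ range K, ‖u (n + l)‖ ^ 2 +
          ∑ l ∈ range K, ∑ l' ∈ (range K).erase l, (inner ℝ (u (n + l)) (u (n + l')) : ℝ) := by
        intro n
        rw [← real_inner_self_eq_norm_sq, hy, sum_inner, ← Finset.sum_add_distrib]
        apply Finset.sum_congr rfl
        intro l hl
        rw [inner_sum, ← Finset.add_sum_erase _ _ hl, real_inner_self_eq_norm_sq]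
      have h4 : Tendsto (fun N => avg (fun n => ∑ l ∈ range K, ∑ l' ∈ (range K).erase l,
          (inner ℝ (u (n + l)) (u (n + l')) : ℝ)) N) atTop (𝓝 0) := by
        simp only [avg_sum]
        have := tendsto_finsetSum (range K) (fun l _ => tendsto_finsetSum ((range K).erase l)
          (fun l' hl' => hcor l l' (Finset.ne_of_mem_erase hl').symm))
        simpa using this
      have h5 : ∀ N, avg (fun n => ∑ l ∈ range K, ‖u (n + l)‖ ^ 2) N ≤ K * B ^ 2 := by
        intro N
        refine (le_abs_self _).trans ?_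
        apply norm_avg_le (u := fun n => ∑ l ∈ range K, ‖u (n + l)‖ ^ 2)
        intro n
        rw [Real.norm_of_nonneg (Finset.sum_nonneg fun _ _ => by positivity)]
        calc ∑ l ∈ range K, ‖u (n + l)‖ ^ 2 ≤ ∑ l ∈ range K, B ^ 2 :=
              Finset.sum_le_sum fun l _ => pow_le_pow_left₀ (norm_nonneg _) (hB _) 2
          _ = K * B ^ 2 := by simp
      filter_upwards [h4.eventually (gt_mem_nhds (show (0 : ℝ) < 1 by norm_num))] with N hN
      simp only [h3]
      rw [avg_add]
      linarith [h5 N]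
    have h3 : ∀ᶠ N in atTop, ‖avg y N - (K : ℝ) • avg u N‖ < 1 := by
      have := h1.norm
      rw [norm_zero] at this
      exact this.eventually (gt_mem_nhds (by norm_num))
    filter_upwards [h2, h3] with N hN2 hN3
    have h4 : ‖avg y N‖ ≤ √(K * B ^ 2 + 1) := by
      apply Real.le_sqrt_of_sq_le
      exact (norm_avg_sq_le y N).trans hN2
    have h5 : ‖(K : ℝ) • avg u N‖ ≤ √(K * B ^ 2 + 1) + 1 := by
      calc ‖(K : ℝ) • avg u N‖ = ‖avg y N - (avg y N - (K : ℝ) • avg u N)‖ := by
            congr 1; abel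
        _ ≤ ‖avg y N‖ + ‖avg y N - (K : ℝ) • avg u N‖ := norm_sub_le _ _
        _ ≤ √(K * B ^ 2 + 1) + 1 := by linarith
    rw [norm_smul, Real.norm_natCast] at h5
    rw [le_div_iff₀ hK0, mul_comm]
    exact h5
  -- the bound tends to zero
  have hlim : Tendsto (fun K : ℕ => (√(K * B ^ 2 + 1) + 1) / (K : ℝ)) atTop (𝓝 0) := by
    have hs : Tendsto (fun K : ℕ => (K : ℝ)) atTop atTop := tendsto_natCast_atTop_atTop
    have hinv : Tendsto (fun K : ℕ => ((K : ℝ))⁻¹) atTop (𝓝 0) := tendsto_inv_atTop_zero.comp hs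
    have h1 : Tendsto (fun K : ℕ => √(((K : ℝ))⁻¹ * B ^ 2 + (((K : ℝ))⁻¹) ^ 2) + ((K : ℝ))⁻¹)
        atTop (𝓝 (√(0 * B ^ 2 + 0 ^ 2) + 0)) :=
      (((hinv.mul_const _).add (hinv.pow 2)).sqrt).add hinv
    simp only [zero_mul, ne_eq, OfNat.ofNat_ne_zero, not_false_eq_true, zero_pow, add_zero,
      Real.sqrt_zero] at h1
    refine h1.congr' ?_
    filter_upwards [eventually_gt_atTop 0] with K hK
    have hK0 : (0 : ℝ) < K := by exact_mod_cast hK
    have h2 : ((K : ℝ))⁻¹ * B ^ 2 + (((K : ℝ))⁻¹) ^ 2 = (K * B ^ 2 + 1) / (K : ℝ) ^ 2 := by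
      field_simp
    rw [h2, Real.sqrt_div (by positivity), Real.sqrt_sq hK0.le]
    field_simp
  rw [Metric.tendsto_atTop]
  intro ε hε
  obtain ⟨K, hK⟩ := ((hlim.eventually (gt_mem_nhds hε)).and (eventually_ge_atTop 1)).exists
  obtain ⟨N₀, hN₀⟩ := eventually_atTop.1 (key K hK.2)
  refine ⟨N₀, fun N hN => ?_⟩
  rw [dist_zero_right]
  exact (hN₀ N hN).trans_lt hK.1

end VdC

section Poly

variable {H : Type*} [NormedAddCommGroup H] [InnerProductSpace ℝ H] [CompleteSpace H]

/-- a representation of `ℤ` by isometries -/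
structure Rep (V : ℤ → H →ₗᵢ[ℝ] H) : Prop where
  zero : ∀ x, V 0 x = x
  add : ∀ j k x, V (j + k) x = V j (V k x)

omit [CompleteSpace H] in
lemma Rep.inner_eq {V : ℤ → H →ₗᵢ[ℝ] H} (hV : Rep V) (j k : ℤ) (x y : H) :
    inner ℝ (V j x) (V k y) = inner ℝ (V (j - k) x) y := by
  have h1 : V j x = V k (V (j - k) x) := by rw [← hV.add]; congr 2; ring
  rw [h1, LinearIsometry.inner_map_map]

omit [CompleteSpace H] in
lemma Rep.iterate {V : ℤ → H →ₗᵢ[ℝ] H} (hV : Rep V) (a : ℤ) (n : ℕ) (x : H) :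
    (V a)^[n] x = V (a * n) x := by
  induction n with
  | zero => simp [hV.zero]
  | succ n ih =>
    rw [Function.iterate_succ_apply', ih, ← hV.add]
    congr 2
    push_cast
    ring

/-- `w` is orthogonal to all vectors fixed by some `V m`, `m ≥ 1` -/
def Aper (V : ℤ → H →ₗᵢ[ℝ] H) (w : H) : Prop :=
  ∀ m : ℕ, 1 ≤ m → ∀ v, V m v = v → inner ℝ v w = 0

omit [CompleteSpace H] in
lemma Aper.int {V : ℤ → H →ₗᵢ[ℝ] H} (hV : Rep V) {w : H} (hw : Aper V w) {a : ℤ} (ha : a ≠ 0)
    (v : H) (hv : V a v = v) : inner ℝ v w = 0 := by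
  rcases lt_or_gt_of_ne ha with h | h
  · apply hw a.natAbs (by omega) v
    have h1 : ((a.natAbs : ℕ) : ℤ) = -a := by omega
    rw [h1]
    conv_lhs => rw [← hv]
    rw [← hV.add, neg_add_cancel, hV.zero]
  · apply hw a.natAbs (by omega) v
    have h1 : ((a.natAbs : ℕ) : ℤ) = a := by omega
    rw [h1]
    exact hv

/-- linear case -/
lemma mean_linear {V : ℤ → H →ₗᵢ[ℝ] H} (hV : Rep V) {w : H} (hw : Aper V w) {a : ℤ} (ha : a ≠ 0)
    (b : ℤ) : Tendsto (avg fun n => V (a * n + b) w) atTop (𝓝 0) := by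
  have h1 := ContinuousLinearMap.tendsto_birkhoffAverage_orthogonalProjection
    (V a).toContinuousLinearMap ((V a).norm_toContinuousLinearMap_le) w
  have h2 : ((((V a).toContinuousLinearMap.eqLocus
      (1 : H →L[ℝ] H)).orthogonalProjectionOnto w : _) : H) = 0 := by
    rw [← Submodule.starProjection_apply, Submodule.starProjection_apply_eq_zero_iff,
      Submodule.mem_orthogonal]
    intro v hv
    exact hw.int hV ha v hv
  rw [h2] at h1
  have h3 : ∀ N, avg (fun n : ℕ => V (a * n + b) w) N = V b (avg (fun n : ℕ => V (a * n) w) N) := by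
    intro N
    simp only [avg]
    rw [map_smul, map_sum]
    congr 1
    apply Finset.sum_congr rfl
    intro n _
    rw [← hV.add]
    congr 2
    ring
  have h4 : Tendsto (avg fun n : ℕ => V (a * n) w) atTop (𝓝 0) := by
    refine h1.congr fun N => ?_
    simp only [birkhoffAverage, birkhoffSum, avg]
    congr 1
    apply Finset.sum_congr rfl
    intro n _
    show (V a)^[n] w = _
    rw [hV.iterate]
  have h5 : Tendsto (fun N => V b (avg (fun n : ℕ => V (a * n) w) N)) atTop (𝓝 (V b 0)) :=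
    ((V b).continuous.tendsto 0).comp h4
  rw [map_zero] at h5
  exact h5.congr fun N => (h3 N).symm

open Polynomial

/-- the difference polynomial -/
lemma diff_poly (q : ℤ[X]) {l : ℕ} (hl : 1 ≤ l) (hq : 2 ≤ q.natDegree) :
    1 ≤ (taylor (l : ℤ) q - q).natDegree ∧ (taylor (l : ℤ) q - q).natDegree < q.natDegree := by
  obtain ⟨d, hd⟩ : ∃ d, q.natDegree = d + 2 := ⟨q.natDegree - 2, by omega⟩
  have hq0 : q ≠ 0 := by rintro rfl; simp at hd
  constructor
  · apply Nat.le_trans (show 1 ≤ d + 1 by omega)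
    apply Polynomial.le_natDegree_of_ne_zero
    rw [coeff_sub, taylor_coeff]
    have h1 : (hasseDeriv (d + 1) q).eval (l : ℤ) = q.coeff (d + 1) + (d + 2) * q.coeff (d + 2) * l := by
      have h2 : (hasseDeriv (d + 1) q).natDegree < 2 := by
        have := natDegree_hasseDeriv_le q (d + 1)
        omega
      rw [eval_eq_sum_range' h2]
      simp only [Finset.sum_range_succ, Finset.sum_range_zero, hasseDeriv_coeff, pow_zero, mul_one,
        zero_add, pow_one]
      rw [Nat.choose_self, show 1 + (d + 1) = d + 2 by ring, Nat.choose_succ_self_right]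
      push_cast
      ring
    rw [h1]
    have h3 : q.coeff (d + 2) ≠ 0 := by
      rw [← hd]
      exact leadingCoeff_ne_zero.2 hq0
    have h4 : ((d : ℤ) + 2) * q.coeff (d + 2) * l ≠ 0 := by
      apply mul_ne_zero (mul_ne_zero (by omega) h3)
      omega
    intro h5
    apply h4
    linarith
  · have h1 : (taylor (l : ℤ) q - q).degree < q.degree := by
      have h2 : (taylor (l : ℤ) q).degree = q.degree := by
        rw [degree_eq_natDegree hq0, degree_eq_natDegree (by
          intro h; apply hq0; exact (taylor_injective (l : ℤ)) (by rw [h, map_zero])), natDegree_taylor]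
      rw [← h2]
      apply degree_sub_lt_left h2
      · intro h; apply hq0; exact (taylor_injective (l : ℤ)) (by rw [h, map_zero])
      · rw [leadingCoeff, leadingCoeff, natDegree_taylor, taylor_coeff]
        have h3 : (hasseDeriv q.natDegree q).natDegree < 1 := by
          have := natDegree_hasseDeriv_le q q.natDegree
          omega
        rw [eval_eq_sum_range' h3]
        simp [hasseDeriv_coeff]
    by_cases h0 : taylor (l : ℤ) q - q = 0
    · rw [h0, natDegree_zero]; omega
    · exact (natDegree_lt_natDegree_iff h0).2 h1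

/-- **Mean ergodic theorem along polynomials** for vectors orthogonal to the rational spectrum -/
theorem mean_poly {V : ℤ → H →ₗᵢ[ℝ] H} (hV : Rep V) {w : H} (hw : Aper V w) (q : ℤ[X])
    (hq : 1 ≤ q.natDegree) : Tendsto (avg fun n : ℕ => V (q.eval (n : ℤ)) w) atTop (𝓝 0) := by
  induction hd : q.natDegree using Nat.strong_induction_on generalizing q with
  | _ d ih =>
    rcases Nat.lt_or_ge q.natDegree 2 with h2 | h2
    · have h1 : q.natDegree = 1 := by omega
      have h3 : ∀ n : ℕ, q.eval (n : ℤ) = q.coeff 1 * n + q.coeff 0 := by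
        intro n
        rw [eval_eq_sum_range, h1]
        simp [Finset.sum_range_succ]
        ring
      simp only [h3]
      apply mean_linear hV hw
      rw [← h1]
      apply leadingCoeff_ne_zero.2
      rintro rfl
      simp at h1
    · apply vdc (B := ‖w‖) (fun n => by rw [LinearIsometry.norm_map])
      intro l hl
      obtain ⟨h3, h4⟩ := diff_poly q hl h2
      have h5 := ih _ (by omega) (taylor (l : ℤ) q - q) h3 rfl
      have h6 : ∀ n : ℕ, (inner ℝ (V (q.eval ((n + l : ℕ) : ℤ)) w) (V (q.eval (n : ℤ)) w) : ℝ) =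
          inner ℝ (V ((taylor (l : ℤ) q - q).eval (n : ℤ)) w) w := by
        intro n
        rw [hV.inner_eq]
        congr 3
        rw [eval_sub, taylor_eval]
        push_cast
        ring_nf
      simp only [h6]
      have h7 : ∀ N, avg (fun n : ℕ => (inner ℝ (V ((taylor (l : ℤ) q - q).eval (n : ℤ)) w) w : ℝ)) N =
          inner ℝ (avg (fun n : ℕ => V ((taylor (l : ℤ) q - q).eval (n : ℤ)) w) N) w := by
        intro N
        simp only [avg]
        rw [inner_smul_left, sum_inner]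
        simp
      simp only [h7]
      have h8 : Tendsto (fun N => (inner ℝ (avg (fun n : ℕ => V ((taylor (l : ℤ) q - q).eval (n : ℤ)) w) N)
          w : ℝ)) atTop (𝓝 (inner ℝ (0 : H) w)) := h5.inner tendsto_const_nhds
      rwa [inner_zero_left] at h8

end Poly

end Pool.Agent.Q51.MD
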